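import Pool.Agent.Lib.MP_c497bd_nt.Defs

/-!
# MP_c497bd: the numerical conditions of `core` hold for large `K`
-/

namespace Pool.Agent.C497

open Filter Topology

theorem two_pow_omega_le {m : ℕ} (hm : 1 ≤ m) : 2 ^ m.primeFactors.card ≤ m := by
  calc 2 ^ m.primeFactors.card = ∏ _p ∈ m.primeFactors, 2 := by rw [Finset.prod_const]
    _ ≤ ∏ p ∈ m.primeFactors, p :=
        Finset.prod_le_prod' (fun p hp => (Nat.prime_of_mem_primeFactors hp).two_le)
    _ ≤ m := Nat.le_of_dvd hm (Nat.prod_primeFactors_dvd m)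

theorem J_mono {a b : ℕ} (h : a ≤ b) : J a ≤ J b := by
  unfold J
  exact Nat.pow_le_pow_left (by omega) _

/-- The numerical conditions of `core` hold for large `K`. -/
theorem asym (ε : ℝ) (hε : 0 < ε) : ∃ c : ℝ, 0 < c ∧ c ≤ 1 / 2 ∧ ∃ k₀ : ℕ, 1 ≤ k₀ ∧
    ∀ K k m e : ℕ, k₀ ≤ K → (K : ℝ) ^ (1 - c) ≤ k → 1 ≤ m →
    (m : ℝ) ≤ (K : ℝ) ^ ((3 : ℝ) / 2 - ε) → (e : ℝ) ≤ (K : ℝ) ^ c →
    8192 * (J (m.primeFactors.card + e) + 1) ^ 3 * m ^ 2 < k ^ 3 ∧
      1000 * (J (m.primeFactors.card + e) + 1) ^ 3 * m < k ^ 2 := by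
  obtain ⟨A, hA⟩ : ∃ A : ℕ, A = Jexp := ⟨_, rfl⟩
  obtain ⟨δ, hδ⟩ : ∃ δ : ℝ, δ = min ε (1 / 2) := ⟨_, rfl⟩
  have hδ0 : 0 < δ := by rw [hδ]; exact lt_min hε (by norm_num)
  have hδ1 : δ ≤ 1 / 2 := by rw [hδ]; exact min_le_right _ _
  have hδε : δ ≤ ε := by rw [hδ]; exact min_le_left _ _
  have hA0 : (0 : ℝ) ≤ A := by positivity
  obtain ⟨c, hc⟩ : ∃ c : ℝ, c = δ / (3 * (A + 1)) := ⟨_, rfl⟩
  have hc0 : 0 < c := by rw [hc]; positivity
  have hc3 : 3 * c * A + 3 * c = δ := by rw [hc]; field_simp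
  have hcle : c ≤ 1 / 2 := by
    have : 0 ≤ c * A := by positivity
    linarith
  obtain ⟨B, hB⟩ : ∃ B : ℝ, B = 8192 * 2 ^ (3 * A + 3) := ⟨_, rfl⟩
  have hB0 : 0 < B := by rw [hB]; positivity
  -- large `K`
  have ht1 : Tendsto (fun K : ℕ => (K : ℝ) ^ δ) atTop atTop :=
    (tendsto_rpow_atTop hδ0).comp tendsto_natCast_atTop_atTop
  have ht2 : ∀ᶠ K : ℕ in atTop, 3 * Real.log K + 2 ≤ (K : ℝ) ^ c := by
    have h1 : (fun x : ℝ => Real.log x) =o[atTop] fun x : ℝ => x ^ c := isLittleO_log_rpow_atTop hc0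
    have h2 := h1.bound (show (0 : ℝ) < 1 / 6 by norm_num)
    have h3 : ∀ᶠ x : ℝ in atTop, 4 ≤ x ^ c :=
      (tendsto_rpow_atTop hc0).eventually (eventually_ge_atTop 4)
    have h4 : ∀ᶠ x : ℝ in atTop, 3 * Real.log x + 2 ≤ x ^ c := by
      filter_upwards [h2, h3, eventually_ge_atTop (1 : ℝ)] with x hx hx4 hx1
      rw [Real.norm_of_nonneg (Real.log_nonneg hx1), Real.norm_of_nonneg (by positivity)] at hx
      linarith
    exact tendsto_natCast_atTop_atTop.eventually h4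
  obtain ⟨k₁, hk₁⟩ := (ht1.eventually (eventually_gt_atTop B)).exists_forall_of_atTop
  obtain ⟨k₂, hk₂⟩ := ht2.exists_forall_of_atTop
  refine ⟨c, hc0, hcle, max (max k₁ k₂) 1, le_max_right _ _, ?_⟩
  intro K k m e hK hk hm hmK he
  have hKB := hk₁ K (le_trans (le_trans (le_max_left _ _) (le_max_left _ _)) hK)
  have hKl := hk₂ K (le_trans (le_trans (le_max_right _ _) (le_max_left _ _)) hK)
  have hK1 : (1 : ℝ) ≤ K := by exact_mod_cast le_trans (le_max_right _ _) hK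
  have hK0 : (0 : ℝ) < K := by linarith
  have hm1 : (1 : ℝ) ≤ m := by exact_mod_cast hm
  have hmK2 : (m : ℝ) ≤ (K : ℝ) ^ ((3 : ℝ) / 2 - δ) :=
    le_trans hmK (Real.rpow_le_rpow_of_exponent_le hK1 (by linarith))
  have hk0 : (0 : ℝ) < (K : ℝ) ^ (1 - c) := by positivity
  -- the number of primes
  have hω : (m.primeFactors.card : ℝ) ≤ 3 * Real.log K := by
    have h1 : ((2 : ℝ)) ^ m.primeFactors.card ≤ m := by exact_mod_cast two_pow_omega_le hm
    have h2 := Real.log_le_log (by positivity) h1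
    rw [Real.log_pow] at h2
    have h3 : Real.log m ≤ ((3 : ℝ) / 2 - δ) * Real.log K := by
      rw [← Real.log_rpow hK0]
      exact Real.log_le_log (by linarith) hmK2
    have h4 := Real.log_two_gt_d9
    have h5 : 0 ≤ Real.log K := Real.log_nonneg hK1
    have h6 : 0 ≤ (m.primeFactors.card : ℝ) := by positivity
    have h7 : ((3 : ℝ) / 2 - δ) * Real.log K ≤ 3 / 2 * Real.log K := by
      apply mul_le_mul_of_nonneg_right _ h5
      linarith
    nlinarith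
  obtain ⟨L, hL⟩ : ∃ L : ℕ, L = J (m.primeFactors.card + e) + 1 := ⟨_, rfl⟩
  rw [← hL]
  have hKc1 : (1 : ℝ) ≤ (K : ℝ) ^ c := Real.one_le_rpow hK1 hc0.le
  have hbase : ((m.primeFactors.card + e + 2 : ℕ) : ℝ) ≤ 2 * (K : ℝ) ^ c := by
    push_cast
    linarith
  have hLle : (L : ℝ) ≤ 2 ^ (A + 1) * (K : ℝ) ^ (c * A) := by
    have h1 : (J (m.primeFactors.card + e) : ℝ) ≤ (2 * (K : ℝ) ^ c) ^ A := by
      unfold J
      rw [← hA, Nat.cast_pow]
      exact pow_le_pow_left₀ (by positivity) hbase A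
    have h2 : (2 * (K : ℝ) ^ c) ^ A = 2 ^ A * (K : ℝ) ^ (c * A) := by
      rw [mul_pow, Real.rpow_mul hK0.le, Real.rpow_natCast]
    have h3 : (1 : ℝ) ≤ 2 ^ A * (K : ℝ) ^ (c * A) := by
      have h4 : (1 : ℝ) ≤ 2 ^ A := one_le_pow₀ (by norm_num)
      have h5 : (1 : ℝ) ≤ (K : ℝ) ^ (c * A) := Real.one_le_rpow hK1 (by positivity)
      nlinarith
    rw [hL]
    push_cast
    rw [pow_succ]
    linarith
  have hL3 : (L : ℝ) ^ 3 ≤ 2 ^ (3 * A + 3) * (K : ℝ) ^ (3 * c * A) := by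
    calc (L : ℝ) ^ 3 ≤ (2 ^ (A + 1) * (K : ℝ) ^ (c * A)) ^ 3 :=
          pow_le_pow_left₀ (by positivity) hLle 3
      _ = 2 ^ (3 * A + 3) * (K : ℝ) ^ (3 * c * A) := by
          rw [mul_pow, ← pow_mul, ← Real.rpow_natCast ((K : ℝ) ^ (c * A)) 3,
            ← Real.rpow_mul hK0.le]
          congr 2
          · ring
          · push_cast
            ring
  have hk3 : (K : ℝ) ^ (3 - 3 * c) ≤ (k : ℝ) ^ 3 := by
    calc (K : ℝ) ^ (3 - 3 * c) = ((K : ℝ) ^ (1 - c)) ^ 3 := by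
          rw [← Real.rpow_natCast, ← Real.rpow_mul hK0.le]
          congr 1
          push_cast
          ring
      _ ≤ (k : ℝ) ^ 3 := pow_le_pow_left₀ hk0.le hk 3
  have hk2 : (K : ℝ) ^ (2 - 2 * c) ≤ (k : ℝ) ^ 2 := by
    calc (K : ℝ) ^ (2 - 2 * c) = ((K : ℝ) ^ (1 - c)) ^ 2 := by
          rw [← Real.rpow_natCast, ← Real.rpow_mul hK0.le]
          congr 1
          push_cast
          ring
      _ ≤ (k : ℝ) ^ 2 := pow_le_pow_left₀ hk0.le hk 2
  have hm2 : (m : ℝ) ^ 2 ≤ (K : ℝ) ^ (3 - 2 * δ) := by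
    calc (m : ℝ) ^ 2 ≤ ((K : ℝ) ^ ((3 : ℝ) / 2 - δ)) ^ 2 := pow_le_pow_left₀ (by linarith) hmK2 2
      _ = (K : ℝ) ^ (3 - 2 * δ) := by
          rw [← Real.rpow_natCast, ← Real.rpow_mul hK0.le]
          congr 1
          push_cast
          ring
  constructor
  · have hreal : 8192 * (L : ℝ) ^ 3 * (m : ℝ) ^ 2 < (k : ℝ) ^ 3 := by
      calc 8192 * (L : ℝ) ^ 3 * (m : ℝ) ^ 2
          ≤ 8192 * (2 ^ (3 * A + 3) * (K : ℝ) ^ (3 * c * A)) * (K : ℝ) ^ (3 - 2 * δ) := by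
            apply mul_le_mul _ hm2 (by positivity) (by positivity)
            exact mul_le_mul_of_nonneg_left hL3 (by norm_num)
        _ = B * (K : ℝ) ^ (3 * c * A + (3 - 2 * δ)) := by
            rw [Real.rpow_add hK0, hB]; ring
        _ < (K : ℝ) ^ δ * (K : ℝ) ^ (3 * c * A + (3 - 2 * δ)) :=
            mul_lt_mul_of_pos_right hKB (by positivity)
        _ = (K : ℝ) ^ (3 - 3 * c) := by
            rw [← Real.rpow_add hK0]
            congr 1
            linarith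
        _ ≤ (k : ℝ) ^ 3 := hk3
    exact_mod_cast hreal
  · have hreal : 1000 * (L : ℝ) ^ 3 * (m : ℝ) < (k : ℝ) ^ 2 := by
      calc 1000 * (L : ℝ) ^ 3 * (m : ℝ)
          ≤ 8192 * (2 ^ (3 * A + 3) * (K : ℝ) ^ (3 * c * A)) * (K : ℝ) ^ ((3 : ℝ) / 2 - δ) := by
            apply mul_le_mul _ hmK2 (by positivity) (by positivity)
            exact mul_le_mul (by norm_num) hL3 (by positivity) (by norm_num)
        _ = B * (K : ℝ) ^ (3 * c * A + ((3 : ℝ) / 2 - δ)) := by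
            rw [Real.rpow_add hK0, hB]; ring
        _ < (K : ℝ) ^ δ * (K : ℝ) ^ (3 * c * A + ((3 : ℝ) / 2 - δ)) :=
            mul_lt_mul_of_pos_right hKB (by positivity)
        _ = (K : ℝ) ^ (3 * c * A + (3 : ℝ) / 2) := by
            rw [← Real.rpow_add hK0]
            congr 1
            ring
        _ ≤ (K : ℝ) ^ (2 - 2 * c) := by
            apply Real.rpow_le_rpow_of_exponent_le hK1
            linarith
        _ ≤ (k : ℝ) ^ 2 := hk2
    exact_mod_cast hreal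

end Pool.Agent.C497
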