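import Pool.Agent.Lib.MP_c497bd_nt.Defs

/-!
# MP_c497bd: a reduced basis of the lattice `y = h x` modulo `M`
-/

namespace Pool.Agent.C497

/-- a nonzero short vector, by the pigeonhole principle -/
private theorem exists_short (M : ℕ) (hM : 0 < M) (h : ℤ) :
    ∃ a b : ℤ, (a ≠ 0 ∨ b ≠ 0) ∧ (M : ℤ) ∣ b - h * a ∧ |a| ≤ (Nat.sqrt M : ℕ) ∧
      |b| ≤ (Nat.sqrt M : ℕ) := by
  have : NeZero M := ⟨hM.ne'⟩
  set s := Nat.sqrt M with hs
  let S : Finset (ℕ × ℕ) := Finset.range (s + 1) ×ˢ Finset.range (s + 1)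
  let f : ℕ × ℕ → ZMod M := fun p => ((p.2 : ℤ) - h * (p.1 : ℤ) : ℤ)
  have hcard : (Finset.univ : Finset (ZMod M)).card < S.card := by
    rw [Finset.card_univ, ZMod.card, Finset.card_product, Finset.card_range]
    exact Nat.lt_succ_sqrt M
  obtain ⟨p, hp, q, hq, hpq, hf⟩ := Finset.exists_ne_map_eq_of_card_lt_of_maps_to hcard
    (f := f) (fun _ _ => Finset.mem_coe.2 (Finset.mem_univ _))
  have hp1 := Finset.mem_range.1 (Finset.mem_product.1 hp).1
  have hp2 := Finset.mem_range.1 (Finset.mem_product.1 hp).2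
  have hq1 := Finset.mem_range.1 (Finset.mem_product.1 hq).1
  have hq2 := Finset.mem_range.1 (Finset.mem_product.1 hq).2
  refine ⟨(p.1 : ℤ) - q.1, (p.2 : ℤ) - q.2, ?_, ?_, ?_, ?_⟩
  · by_contra hcon
    push Not at hcon
    apply hpq
    have h1 : p.1 = q.1 := by omega
    have h2 : p.2 = q.2 := by omega
    exact Prod.ext h1 h2
  · have h3 : (((p.2 : ℤ) - h * (p.1 : ℤ)) - ((q.2 : ℤ) - h * (q.1 : ℤ)) : ℤ) =
        ((p.2 : ℤ) - q.2) - h * ((p.1 : ℤ) - q.1) := by ring
    rw [← h3, ← ZMod.intCast_zmod_eq_zero_iff_dvd, Int.cast_sub, sub_eq_zero]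
    exact hf
  · rw [abs_le]; constructor <;> omega
  · rw [abs_le]; constructor <;> omega

/-- Proof. Let `Λ` be the set of the pairs `(x, y)` with `M ∣ y - h x`. By the pigeonhole principle
(more than `M` pairs in `{0, …, ⌊√M⌋}²`) there is a nonzero pair in `Λ` with entries at most `√M` in
absolute value. Choose a nonzero pair `(a, b) ∈ Λ` with `n = max |a| |b|` minimal; so `n * n ≤ M`.
Write `b = h a + M e`. By minimality `a` and `e` are coprime (if a prime divides both, divide the
pair by it), so there are `f, g` with `a g - e f = 1`. Put `(c, d) = (f, h f + M g)`: it is in `Λ`,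
`a d - b c = M`, and `a`, `c` are coprime; all this is unchanged if a multiple of `(a, b)` is added.
If `|a| = n` choose the multiple such that `|c| ≤ n`; then `a d = M + b c` gives
`|d| * n ≤ M + n * n`. If `|b| = n` choose it such that `|d| ≤ n`; then `b c = a d - M`. -/
theorem exists_basis (M : ℕ) (hM : 0 < M) (h : ℤ) :
    ∃ (a b c d : ℤ) (n : ℕ), 1 ≤ n ∧ n * n ≤ M ∧ |a| ≤ n ∧ |b| ≤ n ∧ (a ≠ 0 ∨ b ≠ 0) ∧
      (M : ℤ) ∣ b - h * a ∧ (M : ℤ) ∣ d - h * c ∧ a * d - b * c = M ∧ IsCoprime a c ∧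
      |c| * n ≤ M + n * n ∧ |d| * n ≤ M + n * n := by
  classical
  have hex : ∃ n : ℕ, ∃ a b : ℤ, (a ≠ 0 ∨ b ≠ 0) ∧ (M : ℤ) ∣ b - h * a ∧ |a| ≤ n ∧ |b| ≤ n :=
    ⟨_, exists_short M hM h⟩
  obtain ⟨a, b, hab, hdvd, han, hbn⟩ := Nat.find_spec hex
  have hmin := fun m hm => Nat.find_min hex (m := m) hm
  have hle : Nat.find hex ≤ Nat.sqrt M := Nat.find_min' hex (exists_short M hM h)
  generalize Nat.find hex = n at han hbn hmin hle
  have hn1 : 1 ≤ n := by
    rcases Nat.eq_zero_or_pos n with h0 | h0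
    · exfalso
      rw [h0] at han hbn
      have ha : a = 0 := by
        rw [abs_le] at han; omega
      have hb : b = 0 := by
        rw [abs_le] at hbn; omega
      rcases hab with h1 | h1
      · exact h1 ha
      · exact h1 hb
    · exact h0
  have hnM : n * n ≤ M := le_trans (Nat.mul_le_mul hle hle) (Nat.sqrt_le M)
  obtain ⟨e, he⟩ := hdvd
  have hb : b = h * a + M * e := by linarith
  -- coprimality
  have hcop : IsCoprime a e := by
    rw [Int.isCoprime_iff_gcd_eq_one]
    by_contra hg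
    have hgpos : 0 < Int.gcd a e := by
      rcases Nat.eq_zero_or_pos (Int.gcd a e) with h0 | h0
      · exfalso
        rw [Int.gcd_eq_zero_iff] at h0
        obtain ⟨h1, h2⟩ := h0
        rcases hab with h3 | h3
        · exact h3 h1
        · apply h3; rw [hb, h1, h2]; ring
      · exact h0
    have hg2 : 2 ≤ Int.gcd a e := by omega
    obtain ⟨a', ha'⟩ := Int.gcd_dvd_left a e
    obtain ⟨e', he'⟩ := Int.gcd_dvd_right a e
    generalize Int.gcd a e = g at hg hgpos hg2 ha' he'
    have hg2' : (2 : ℤ) ≤ g := by exact_mod_cast hg2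
    have hbg : b = g * (h * a' + M * e') := by
      rw [hb, ha', he']; ring
    refine hmin (n - 1) (by omega) ⟨a', h * a' + M * e', ?_, ⟨e', by ring⟩, ?_, ?_⟩
    · by_contra hcon
      push Not at hcon
      rcases hab with h3 | h3
      · apply h3; rw [ha', hcon.1]; ring
      · apply h3; rw [hbg, hcon.2]; ring
    · have h1 : |a| = g * |a'| := by
        rw [ha', abs_mul, abs_of_nonneg (by positivity)]
      rw [h1] at han
      have h2 : 0 ≤ |a'| := abs_nonneg _
      have h3 : 2 * |a'| ≤ n := le_trans (mul_le_mul_of_nonneg_right hg2' h2) han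
      push_cast [Nat.cast_sub hn1]
      have h4 : (1 : ℤ) ≤ n := by exact_mod_cast hn1
      omega
    · have h1 : |b| = g * |h * a' + M * e'| := by
        rw [hbg, abs_mul, abs_of_nonneg (by positivity)]
      rw [h1] at hbn
      have h2 : 0 ≤ |h * a' + M * e'| := abs_nonneg _
      have h3 : 2 * |h * a' + M * e'| ≤ n := le_trans (mul_le_mul_of_nonneg_right hg2' h2) hbn
      push_cast [Nat.cast_sub hn1]
      have h4 : (1 : ℤ) ≤ n := by exact_mod_cast hn1
      omega
  -- one of the two entries has absolute value `n`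
  have hor : |a| = n ∨ |b| = n := by
    by_contra hcon
    push Not at hcon
    have h1 : |a| < n := lt_of_le_of_ne han hcon.1
    have h2 : |b| < n := lt_of_le_of_ne hbn hcon.2
    refine hmin (n - 1) (by omega) ⟨a, b, hab, ⟨e, he⟩, ?_, ?_⟩
    · push_cast [Nat.cast_sub hn1]; omega
    · push_cast [Nat.cast_sub hn1]; omega
  obtain ⟨g, f', hgf⟩ := hcop
  -- `g * a + f' * e = 1`; put `f = -f'`
  have key : ∀ t : ℤ, (M : ℤ) ∣ (h * (-f') + M * g + t * b) - h * (-f' + t * a) ∧
      a * (h * (-f') + M * g + t * b) - b * (-f' + t * a) = M ∧ IsCoprime a (-f' + t * a) := by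
    intro t
    refine ⟨⟨g + t * e, ?_⟩, ?_, ⟨g + t * e, -e, ?_⟩⟩
    · rw [hb]; ring
    · rw [hb]; linear_combination (M : ℤ) * hgf
    · linear_combination hgf
  have hM0 : (0 : ℤ) ≤ M := by positivity
  have hn0 : (0 : ℤ) < n := by exact_mod_cast hn1
  rcases hor with han' | hbn'
  · have ha0 : a ≠ 0 := by
      rintro rfl; rw [abs_zero] at han'; omega
    obtain ⟨k1, k2, k3⟩ := key (-((-f') / a))
    have hc : -f' + -((-f') / a) * a = (-f') % a := by
      rw [Int.emod_def]; ring
    have hc0 : 0 ≤ (-f') % a := Int.emod_nonneg _ ha0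
    have hc1 : (-f') % a < |a| := Int.emod_lt_abs _ ha0
    rw [hc] at k1 k2 k3
    generalize (-f') % a = c at hc0 hc1 k1 k2 k3
    generalize h * (-f') + M * g + -((-f') / a) * b = d at k1 k2
    have hcn : |c| ≤ n := by rw [abs_of_nonneg hc0]; linarith
    refine ⟨a, b, c, d, n, hn1, hnM, han, hbn, hab, ⟨e, he⟩, k1, k2, k3, ?_, ?_⟩
    · have := mul_le_mul_of_nonneg_right hcn hn0.le
      linarith
    · have h1 : |d| * n = |a * d| := by rw [abs_mul, han']; ring
      have h2 : a * d = M + b * c := by linarith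
      rw [h1, h2]
      calc |(M : ℤ) + b * c| ≤ |(M : ℤ)| + |b * c| := abs_add_le _ _
        _ = M + |b| * |c| := by rw [abs_mul, abs_of_nonneg hM0]
        _ ≤ M + n * n := by
          have := mul_le_mul hbn hcn (abs_nonneg c) hn0.le
          linarith
  · have hb0 : b ≠ 0 := by
      rintro rfl; rw [abs_zero] at hbn'; omega
    obtain ⟨k1, k2, k3⟩ := key (-((h * (-f') + M * g) / b))
    have hd : h * (-f') + M * g + -((h * (-f') + M * g) / b) * b = (h * (-f') + M * g) % b := by
      rw [Int.emod_def]; ring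
    have hd0 : 0 ≤ (h * (-f') + M * g) % b := Int.emod_nonneg _ hb0
    have hd1 : (h * (-f') + M * g) % b < |b| := Int.emod_lt_abs _ hb0
    rw [hd] at k1 k2
    generalize (h * (-f') + M * g) % b = d at hd0 hd1 k1 k2
    generalize -f' + -((h * (-f') + M * g) / b) * a = c at k1 k2 k3
    have hdn : |d| ≤ n := by rw [abs_of_nonneg hd0]; linarith
    refine ⟨a, b, c, d, n, hn1, hnM, han, hbn, hab, ⟨e, he⟩, k1, k2, k3, ?_, ?_⟩
    · have h1 : |c| * n = |b * c| := by rw [abs_mul, hbn']; ring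
      have h2 : b * c = a * d + -M := by linarith
      rw [h1, h2]
      calc |a * d + -(M : ℤ)| ≤ |a * d| + |-(M : ℤ)| := abs_add_le _ _
        _ = |a| * |d| + M := by rw [abs_mul, abs_neg, abs_of_nonneg hM0]
        _ ≤ M + n * n := by
          have := mul_le_mul han hdn (abs_nonneg d) hn0.le
          linarith
    · have := mul_le_mul_of_nonneg_right hdn hn0.le
      linarith

end Pool.Agent.C497
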