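import Pool.Agent.Lib.MP_c497bd_nt.Defs

/-!
# MP_c497bd: a point with coordinates prime to `m` in the box, from a short basis
-/

namespace Pool.Agent.C497

private theorem lin_class (q : ℕ) (hq : q.Prime) (α β : ℤ) (hβ : ¬ (q : ℤ) ∣ β) :
    ∃ r : ℤ, ∀ i : ℤ, (q : ℤ) ∣ α + i * β → (q : ℤ) ∣ i - r := by
  have hqi : Prime (q : ℤ) := Nat.prime_iff_prime_int.1 hq
  have hco : IsCoprime (q : ℤ) β := (Prime.coprime_iff_not_dvd hqi).2 hβ
  obtain ⟨u, v, huv⟩ := hco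
  refine ⟨-(v * α), fun i hi => ?_⟩
  have h1 : i - -(v * α) = u * i * q + v * (α + i * β) := by
    linear_combination (-i) * huv
  rw [h1]
  exact dvd_add (Dvd.intro_left _ rfl) (Dvd.dvd.mul_left hi v)

private theorem box_bound (W k M : ℤ) (hM : 0 < M) (a c u v e f s t : ℤ)
    (hu : M * k = u * a + v * c)
    (he : u = 2 * M * e + (u % (2 * M))) (hf : v = 2 * M * f + (v % (2 * M)))
    (hW : 2 ≤ W) (hs0 : 0 ≤ s) (hs : s < W) (ht0 : 0 ≤ t) (ht : t < W)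
    (hx : 2 * W * (|a| + |c|) < k) :
    1 ≤ (e + s) * a + (f + t) * c ∧ (e + s) * a + (f + t) * c ≤ k := by
  have h2M : 0 < 2 * M := by linarith
  have hu0 : 0 ≤ u % (2 * M) := Int.emod_nonneg _ (ne_of_gt h2M)
  have hu1 : u % (2 * M) < 2 * M := Int.emod_lt_of_pos _ h2M
  have hv0 : 0 ≤ v % (2 * M) := Int.emod_nonneg _ (ne_of_gt h2M)
  have hv1 : v % (2 * M) < 2 * M := Int.emod_lt_of_pos _ h2M
  -- deviation: 2 M x - M k = (2 M s - u') a + (2 M t - v') c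
  have hdev : 2 * M * ((e + s) * a + (f + t) * c) - M * k =
      (2 * M * s - u % (2 * M)) * a + (2 * M * t - v % (2 * M)) * c := by
    linear_combination (-1) * hu + (-a) * he + (-c) * hf
  have hA : |2 * M * s - u % (2 * M)| ≤ 2 * M * W := by
    rw [abs_le]; constructor <;> nlinarith
  have hC : |2 * M * t - v % (2 * M)| ≤ 2 * M * W := by
    rw [abs_le]; constructor <;> nlinarith
  have hb : |2 * M * ((e + s) * a + (f + t) * c) - M * k| ≤ 2 * M * W * (|a| + |c|) := by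
    rw [hdev]
    refine (abs_add_le _ _).trans ?_
    rw [abs_mul, abs_mul, mul_add]
    exact add_le_add (mul_le_mul_of_nonneg_right hA (abs_nonneg _))
      (mul_le_mul_of_nonneg_right hC (abs_nonneg _))
  have hlt : |2 * M * ((e + s) * a + (f + t) * c) - M * k| < M * k := by
    refine hb.trans_lt ?_
    have := mul_lt_mul_of_pos_left hx hM
    linarith [this]
  rw [abs_lt] at hlt
  have h1 : 0 < 2 * M * ((e + s) * a + (f + t) * c) := by linarith [hlt.1]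
  have h2 : 2 * M * ((e + s) * a + (f + t) * c) < 2 * M * k := by linarith [hlt.2]
  have h3 : 0 < (e + s) * a + (f + t) * c := (mul_pos_iff_of_pos_left h2M).1 h1
  have h4 : (e + s) * a + (f + t) * c < k := lt_of_mul_lt_mul_left h2 h2M.le
  constructor
  · linarith [Int.add_one_le_of_lt h3]
  · exact h4.le

private theorem coprime_of_primes (x m : ℕ) (hm : 0 < m)
    (h : ∀ q ∈ m.primeFactors, ¬ (q : ℤ) ∣ (x : ℤ)) : x.Coprime m := by
  by_contra hc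
  obtain ⟨p, hp, hpx, hpm⟩ := Nat.Prime.not_coprime_iff_dvd.1 hc
  exact h p (Nat.mem_primeFactors.2 ⟨hp, hpm, hm.ne'⟩) (Int.natCast_dvd_natCast.2 hpx)

private theorem choose_t (M : ℕ) (a b c d x₀ y₀ : ℤ) (hdet : a * d - b * c = M)
    (hac : IsCoprime a c) (q : ℕ) (hq : q.Prime) :
    ∃ r : ℤ, ∀ i : ℤ, ¬ (q : ℤ) ∣ i - r →
      ((q : ℤ) ∣ a → ¬ (q : ℤ) ∣ x₀ + i * c) ∧
      (¬ (q : ℤ) ∣ (M : ℤ) → (q : ℤ) ∣ b → ¬ (q : ℤ) ∣ a → ¬ (q : ℤ) ∣ y₀ + i * d) ∧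
      (q = 2 → ¬ (q : ℤ) ∣ (M : ℤ) → ¬ (q : ℤ) ∣ a → ¬ (q : ℤ) ∣ b →
        (q : ℤ) ∣ (x₀ + i * c) - (y₀ + i * d)) := by
  have hqi : Prime (q : ℤ) := Nat.prime_iff_prime_int.1 hq
  by_cases ha : (q : ℤ) ∣ a
  · have hc : ¬ (q : ℤ) ∣ c := fun hc => hqi.not_isUnit (hac.isUnit_of_dvd' ha hc)
    obtain ⟨r, hr⟩ := lin_class q hq x₀ c hc
    refine ⟨r, fun i hi => ⟨fun _ h => hi (hr i h), fun _ _ h => absurd ha h,
      fun _ _ h => absurd ha h⟩⟩
  by_cases hMq : (q : ℤ) ∣ (M : ℤ)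
  · exact ⟨0, fun i _ => ⟨fun h => absurd h ha, fun h => absurd hMq h, fun _ h => absurd hMq h⟩⟩
  by_cases hb : (q : ℤ) ∣ b
  · have hd : ¬ (q : ℤ) ∣ d := by
      intro hd
      apply hMq
      rw [← hdet]
      exact dvd_sub (hd.mul_left a) (hb.mul_right c)
    obtain ⟨r, hr⟩ := lin_class q hq y₀ d hd
    exact ⟨r, fun i hi => ⟨fun h => absurd h ha, fun _ _ _ h => hi (hr i h),
      fun _ _ _ h => absurd hb h⟩⟩
  by_cases h2 : q = 2
  · subst h2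
    push_cast at ha hb hMq ⊢
    refine ⟨x₀ - y₀ + 1, fun i hi => ⟨fun h => absurd h ha, fun _ h => absurd h hb,
      fun _ _ _ _ => ?_⟩⟩
    have e1 : a % 2 = 1 := by omega
    have e2 : b % 2 = 1 := by omega
    obtain ⟨a', rfl⟩ : ∃ a', a = 2 * a' + 1 := ⟨a / 2, by omega⟩
    obtain ⟨b', rfl⟩ : ∃ b', b = 2 * b' + 1 := ⟨b / 2, by omega⟩
    have hdc : ¬ (2 : ℤ) ∣ d - c := by
      rintro ⟨z, hz⟩
      apply hMq
      rw [← hdet]
      exact ⟨a' * d - b' * c + z, by linear_combination hz⟩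
    obtain ⟨z, hz⟩ : ∃ z, d = c + 2 * z + 1 := ⟨(d - c) / 2, by omega⟩
    obtain ⟨y, hy⟩ : ∃ y, i = x₀ - y₀ + 2 * y := ⟨(i - (x₀ - y₀)) / 2, by omega⟩
    refine ⟨-y - i * z, ?_⟩
    linear_combination (-i) * hz - hy
  · exact ⟨0, fun i _ => ⟨fun h => absurd h ha, fun _ h => absurd h hb, fun h => absurd h h2⟩⟩

private theorem choose_s (M : ℕ) (a b X Y : ℤ) (q : ℕ) (hq : q.Prime)
    (h3 : q = 2 → ¬ (q : ℤ) ∣ (M : ℤ) → ¬ (q : ℤ) ∣ a → ¬ (q : ℤ) ∣ b → (q : ℤ) ∣ X - Y) :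
    ∃ r r' : ℤ, (q = 2 → (q : ℤ) ∣ r - r') ∧ ∀ i : ℤ, ¬ (q : ℤ) ∣ i - r → ¬ (q : ℤ) ∣ i - r' →
      (¬ (q : ℤ) ∣ a → ¬ (q : ℤ) ∣ X + i * a) ∧
      (¬ (q : ℤ) ∣ (M : ℤ) → ¬ (q : ℤ) ∣ b → ¬ (q : ℤ) ∣ Y + i * b) := by
  by_cases ha : (q : ℤ) ∣ a
  · by_cases hb : (q : ℤ) ∣ b
    · exact ⟨0, 0, fun _ => by simp, fun i _ _ =>
        ⟨fun h => absurd ha h, fun _ h => absurd hb h⟩⟩
    · obtain ⟨r, hr⟩ := lin_class q hq Y b hb
      exact ⟨r, r, fun _ => by simp, fun i hi _ => ⟨fun h => absurd ha h, fun _ _ h => hi (hr i h)⟩⟩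
  · by_cases hb : (q : ℤ) ∣ b
    · obtain ⟨r, hr⟩ := lin_class q hq X a ha
      exact ⟨r, r, fun _ => by simp, fun i hi _ => ⟨fun _ h => hi (hr i h), fun _ h => absurd hb h⟩⟩
    · by_cases hMq : (q : ℤ) ∣ (M : ℤ)
      · obtain ⟨r, hr⟩ := lin_class q hq X a ha
        exact ⟨r, r, fun _ => by simp, fun i hi _ =>
          ⟨fun _ h => hi (hr i h), fun h => absurd hMq h⟩⟩
      · by_cases h2 : q = 2
        · have hXY := h3 h2 hMq ha hb
          subst h2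
          push_cast at ha hb hMq hXY ⊢
          obtain ⟨a', rfl⟩ : ∃ a', a = 2 * a' + 1 := ⟨a / 2, by omega⟩
          obtain ⟨b', rfl⟩ : ∃ b', b = 2 * b' + 1 := ⟨b / 2, by omega⟩
          refine ⟨X, Y, fun _ => hXY, fun i hi hi' => ⟨fun _ hd => hi ?_, fun _ _ hd => hi' ?_⟩⟩
          · obtain ⟨z, hz⟩ := hd
            exact ⟨z - i * a' - X, by linear_combination hz⟩
          · obtain ⟨z, hz⟩ := hd
            exact ⟨z - i * b' - Y, by linear_combination hz⟩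
        · obtain ⟨r, hr⟩ := lin_class q hq X a ha
          obtain ⟨r', hr'⟩ := lin_class q hq Y b hb
          exact ⟨r, r', fun h => absurd h h2, fun i hi hi' =>
            ⟨fun _ h => hi (hr i h), fun _ _ h => hi' (hr' i h)⟩⟩

/-- Proof. Let `W = J (number of primes of m)`, and `σ, τ` rational numbers with
`(k / 2, k / 2) = σ (a, b) + τ (c, d)`, `(x₀, y₀) = ⌊σ⌋ (a, b) + ⌊τ⌋ (c, d)`. For `0 ≤ s, t < W` the
point `(x, y) = (x₀ + s a + t c, y₀ + s b + t d)` satisfies `M ∣ y - h x` and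
`|x - k / 2| ≤ W (|a| + |c|) < k / 2`, `|y - k / 2| ≤ W (|b| + |d|) < k / 2`; so it is in the box.

Choice of `t` by `exists_avoid`, for each prime `q` of `m` at most one class is excluded:
(1) if `q ∣ a` (then `q ∤ c`): `q ∤ x₀ + t c`; (2) if `q ∤ M`, `q ∤ a`, `q ∣ b` (then `q ∤ d` by the
determinant): `q ∤ y₀ + t d`; (3) if `q = 2 ∤ M` and `a`, `b` are odd (then `c + d` is odd):
`x₀ + t c` and `y₀ + t d` have the same parity. Choice of `s` by `exists_avoid`: if `q ∤ a`: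
`q ∤ x₀ + s a + t c`; if `q ∤ M` and `q ∤ b`: `q ∤ y₀ + s b + t d`; for `q = 2` these two classes
agree by (3) if both conditions occur. Now `x` is prime to `m`, and `y` is prime to `m`: for
`q ∣ M` because `y = h x` modulo `q` and `h` is prime to `M`; for `q ∤ M` by the choices. -/
theorem box_point (M m k : ℕ) (hM : 0 < M) (hMm : M ∣ m) (hm : 0 < m) (h : ℤ)
    (hh : IsCoprime h (M : ℤ)) (a b c d : ℤ)
    (hab : (M : ℤ) ∣ b - h * a) (hcd : (M : ℤ) ∣ d - h * c) (hdet : a * d - b * c = M)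
    (hac : IsCoprime a c)
    (hx : 2 * (J m.primeFactors.card : ℤ) * (|a| + |c|) < k)
    (hy : 2 * (J m.primeFactors.card : ℤ) * (|b| + |d|) < k) :
    ∃ x y : ℕ, 1 ≤ x ∧ x ≤ k ∧ 1 ≤ y ∧ y ≤ k ∧ x.Coprime m ∧ y.Coprime m ∧
      (M : ℤ) ∣ (y : ℤ) - h * x := by
  have hqS : ∀ q ∈ m.primeFactors, q.Prime := fun q hq => Nat.prime_of_mem_primeFactors hq
  obtain ⟨W, hWdef⟩ : ∃ W, W = J m.primeFactors.card := ⟨_, rfl⟩
  have hW2 : (2 : ℤ) ≤ (W : ℤ) := by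
    rw [hWdef]; exact_mod_cast J_pos _
  have hMi : (0 : ℤ) < (M : ℤ) := by exact_mod_cast hM
  obtain ⟨e, he⟩ : ∃ e, e = ((k : ℤ) * (d - c)) / (2 * M) := ⟨_, rfl⟩
  obtain ⟨f, hf⟩ : ∃ f, f = ((k : ℤ) * (a - b)) / (2 * M) := ⟨_, rfl⟩
  have he' : (k : ℤ) * (d - c) = 2 * M * e + ((k : ℤ) * (d - c)) % (2 * M) := by
    rw [he]; exact (Int.mul_ediv_add_emod _ _).symm
  have hf' : (k : ℤ) * (a - b) = 2 * M * f + ((k : ℤ) * (a - b)) % (2 * M) := by
    rw [hf]; exact (Int.mul_ediv_add_emod _ _).symm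
  -- choice of t
  have ht := fun q (hq : q ∈ m.primeFactors) =>
    choose_t M a b c d (e * a + f * c) (e * b + f * d) hdet hac q (hqS q hq)
  choose! r hr using ht
  obtain ⟨t, htW, ht⟩ := exists_avoid m.primeFactors hqS r r (fun _ => by simp) W
    (le_of_eq hWdef.symm)
  obtain ⟨X, hX⟩ : ∃ X, X = e * a + f * c + t * c := ⟨_, rfl⟩
  obtain ⟨Y, hY⟩ : ∃ Y, Y = e * b + f * d + t * d := ⟨_, rfl⟩
  have hT := fun q (hq : q ∈ m.primeFactors) => hr q hq (t : ℤ) (ht q hq).1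
  rw [← hX, ← hY] at hT
  have hs := fun q (hq : q ∈ m.primeFactors) =>
    choose_s M a b X Y q (hqS q hq) (hT q hq).2.2
  choose! r₁ r₂ hr12 using hs
  obtain ⟨s, hsW, hs⟩ := exists_avoid m.primeFactors hqS r₁ r₂
    (fun h2 => by exact_mod_cast (hr12 2 h2).1 rfl) W (le_of_eq hWdef.symm)
  have hSq := fun q (hq : q ∈ m.primeFactors) =>
    (hr12 q hq).2 (s : ℤ) (hs q hq).1 (hs q hq).2
  -- the point
  have hxb := box_bound W k M hMi a c ((k : ℤ) * (d - c)) ((k : ℤ) * (a - b)) e f s t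
    (by rw [← hdet]; ring) he' hf' hW2 (by positivity) (by exact_mod_cast hsW) (by positivity)
    (by exact_mod_cast htW) (by rw [hWdef]; exact hx)
  have hyb := box_bound W k M hMi b d ((k : ℤ) * (d - c)) ((k : ℤ) * (a - b)) e f s t
    (by rw [← hdet]; ring) he' hf' hW2 (by positivity) (by exact_mod_cast hsW) (by positivity)
    (by exact_mod_cast htW) (by rw [hWdef]; exact hy)
  obtain ⟨x, hxe⟩ : ∃ x : ℕ, (x : ℤ) = (e + s) * a + (f + t) * c :=
    ⟨((e + s) * a + (f + t) * c).toNat, Int.toNat_of_nonneg (by linarith [hxb.1])⟩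
  obtain ⟨y, hye⟩ : ∃ y : ℕ, (y : ℤ) = (e + s) * b + (f + t) * d :=
    ⟨((e + s) * b + (f + t) * d).toNat, Int.toNat_of_nonneg (by linarith [hyb.1])⟩
  rw [← hxe] at hxb
  rw [← hye] at hyb
  have hxX : (x : ℤ) = X + s * a := by rw [hxe, hX]; ring
  have hyY : (y : ℤ) = Y + s * b := by rw [hye, hY]; ring
  have hMd : (M : ℤ) ∣ (y : ℤ) - h * x := by
    obtain ⟨u, hu⟩ := hab
    obtain ⟨v, hv⟩ := hcd
    refine ⟨(e + s) * u + (f + t) * v, ?_⟩
    rw [hxe, hye]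
    linear_combination (e + s) * hu + (f + t) * hv
  have hxq : ∀ q ∈ m.primeFactors, ¬ (q : ℤ) ∣ (x : ℤ) := by
    intro q hq hd
    by_cases ha : (q : ℤ) ∣ a
    · apply (hT q hq).1 ha
      have : X = (x : ℤ) - s * a := by rw [hxX]; ring
      rw [this]
      exact dvd_sub hd (ha.mul_left _)
    · exact (hSq q hq).1 ha (by rw [← hxX]; exact hd)
  have hyq : ∀ q ∈ m.primeFactors, ¬ (q : ℤ) ∣ (y : ℤ) := by
    intro q hq hd
    have hqi : Prime (q : ℤ) := Nat.prime_iff_prime_int.1 (hqS q hq)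
    by_cases hMq : (q : ℤ) ∣ (M : ℤ)
    · have h1 : (q : ℤ) ∣ h * x := by
        have h2 := dvd_sub hd (hMq.trans hMd)
        have h3 : (y : ℤ) - ((y : ℤ) - h * x) = h * x := by ring
        rwa [h3] at h2
      rcases hqi.dvd_or_dvd h1 with h4 | h4
      · exact hqi.not_isUnit (hh.isUnit_of_dvd' h4 hMq)
      · exact hxq q hq h4
    · by_cases hb : (q : ℤ) ∣ b
      · by_cases ha : (q : ℤ) ∣ a
        · apply hMq
          rw [← hdet]
          exact dvd_sub (ha.mul_right d) (hb.mul_right c)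
        · apply (hT q hq).2.1 hMq hb ha
          have : Y = (y : ℤ) - s * b := by rw [hyY]; ring
          rw [this]
          exact dvd_sub hd (hb.mul_left _)
      · exact (hSq q hq).2 hMq hb (by rw [← hyY]; exact hd)
  refine ⟨x, y, by exact_mod_cast hxb.1, by exact_mod_cast hxb.2, by exact_mod_cast hyb.1,
    by exact_mod_cast hyb.2, coprime_of_primes x m hm hxq, coprime_of_primes y m hm hyq, hMd⟩

end Pool.Agent.C497
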