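import Pool.Agent.Lib.MP_c497bd_nt.Defs

/-!
# MP_c497bd: the elements `-1` modulo `A`, `1` modulo `M / A`
-/

namespace Pool.Agent.C497

variable {M k K : ℕ}

/-- `A` is a unitary divisor of `M` and the element which is `-1` modulo `A` and `1` modulo `M / A` is
in the kernel of `G`. -/
def NegIn (G : (ZMod M)ˣ →* Multiplicative (ZMod K)) (A : ℕ) : Prop :=
  ∃ B : ℕ, A * B = M ∧ A.Coprime B ∧ ∃ u : (ZMod M)ˣ, G u = 1 ∧ (A : ℤ) ∣ li u + 1 ∧
    (B : ℤ) ∣ li u - 1

theorem negIn_one [NeZero M] (G : (ZMod M)ˣ →* Multiplicative (ZMod K)) : NegIn G 1 := by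
  refine ⟨M, one_mul M, Nat.coprime_one_left M, 1, map_one G, ?_, li_one⟩
  simp

/-- the product of the elements for `A` and `B` -/
private theorem negMulAux [NeZero M] (A B C : ℕ) (hABC : A * B * C = M) (hAB : A.Coprime B)
    (u v : (ZMod M)ˣ) (hu1 : (A : ℤ) ∣ li u + 1) (hu2 : ((B * C : ℕ) : ℤ) ∣ li u - 1)
    (hv1 : (B : ℤ) ∣ li v + 1) (hv2 : ((A * C : ℕ) : ℤ) ∣ li v - 1) :
    ((A * B : ℕ) : ℤ) ∣ li (u * v) + 1 ∧ (C : ℤ) ∣ li (u * v) - 1 := by
  have hm := li_mul u v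
  have dA : A ∣ M := Dvd.intro (B * C) (by rw [← hABC]; ring)
  have dB : B ∣ M := Dvd.intro (A * C) (by rw [← hABC]; ring)
  have dC : C ∣ M := Dvd.intro (A * B) (by rw [← hABC]; ring)
  have hA : (A : ℤ) ∣ li (u * v) - li u * li v := dvd_trans (by exact_mod_cast dA) hm
  have hB : (B : ℤ) ∣ li (u * v) - li u * li v := dvd_trans (by exact_mod_cast dB) hm
  have hC : (C : ℤ) ∣ li (u * v) - li u * li v := dvd_trans (by exact_mod_cast dC) hm
  have hBu : (B : ℤ) ∣ li u - 1 := dvd_trans (by exact_mod_cast Dvd.intro C rfl) hu2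
  have hCu : (C : ℤ) ∣ li u - 1 := dvd_trans (by exact_mod_cast Dvd.intro_left B rfl) hu2
  have hAv : (A : ℤ) ∣ li v - 1 := dvd_trans (by exact_mod_cast Dvd.intro C rfl) hv2
  have hCv : (C : ℤ) ∣ li v - 1 := dvd_trans (by exact_mod_cast Dvd.intro_left A rfl) hv2
  have h1 : (A : ℤ) ∣ li (u * v) + 1 := by
    have e : li (u * v) + 1 = (li (u * v) - li u * li v) + (li u + 1) * li v - (li v - 1) := by
      ring
    rw [e]
    exact dvd_sub (dvd_add hA (Dvd.dvd.mul_right hu1 _)) hAv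
  have h2 : (B : ℤ) ∣ li (u * v) + 1 := by
    have e : li (u * v) + 1 = (li (u * v) - li u * li v) + (li v + 1) * li u - (li u - 1) := by
      ring
    rw [e]
    exact dvd_sub (dvd_add hB (Dvd.dvd.mul_right hv1 _)) hBu
  have h3 : (C : ℤ) ∣ li (u * v) - 1 := by
    have e : li (u * v) - 1 = (li (u * v) - li u * li v) + (li u - 1) * li v + (li v - 1) := by
      ring
    rw [e]
    exact dvd_add (dvd_add hC (Dvd.dvd.mul_right hCu _)) hCv
  refine ⟨?_, h3⟩
  rw [Nat.cast_mul]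
  exact IsCoprime.mul_dvd (Nat.isCoprime_iff_coprime.2 hAB) h1 h2

/-- Proof. The product of the two elements. -/
theorem negIn_mul [NeZero M] (G : (ZMod M)ˣ →* Multiplicative (ZMod K)) (A B C : ℕ)
    (hABC : A * B * C = M) (hAB : A.Coprime B) (hAC : A.Coprime C) (hBC : B.Coprime C)
    (hA : NegIn G A) (hB : NegIn G B) : NegIn G (A * B) := by
  have hM : A * B * C ≠ 0 := by rw [hABC]; exact NeZero.ne M
  have hA0 : 0 < A := Nat.pos_of_ne_zero (fun h => hM (by rw [h]; simp))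
  have hB0 : 0 < B := Nat.pos_of_ne_zero (fun h => hM (by rw [h]; simp))
  obtain ⟨B', h1, -, u, hu, hu1, hu2⟩ := hA
  obtain ⟨A', h2, -, v, hv, hv1, hv2⟩ := hB
  have e1 : B' = B * C := Nat.eq_of_mul_eq_mul_left hA0 (by rw [h1, ← hABC]; ring)
  have e2 : A' = A * C := Nat.eq_of_mul_eq_mul_left hB0 (by rw [h2, ← hABC]; ring)
  subst e1 e2
  obtain ⟨h3, h4⟩ := negMulAux A B C hABC hAB u v hu1 hu2 hv1 hv2
  exact ⟨C, hABC, Nat.Coprime.mul_left hAC hBC, u * v, by rw [map_mul, hu, hv, one_mul], h3, h4⟩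

/-- the element which is `-1` modulo `A` and `1` modulo `D` has square `1` -/
private theorem negExists [NeZero M] (A D : ℕ) (h : A * D = M) (hc : A.Coprime D) :
    ∃ u : (ZMod M)ˣ, u * u = 1 ∧ (A : ℤ) ∣ li u + 1 ∧ (D : ℤ) ∣ li u - 1 := by
  obtain ⟨a, b, hab⟩ := Nat.isCoprime_iff_coprime.2 hc
  have hAx : (A : ℤ) ∣ (a * A - b * D) + 1 := ⟨2 * a, by linear_combination (-1 : ℤ) * hab⟩
  have hDx : (D : ℤ) ∣ (a * A - b * D) - 1 := ⟨-(2 * b), by linear_combination hab⟩
  have hMc : (M : ℤ) = (A : ℤ) * D := by rw [← h]; push_cast; ring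
  have hx2 : (M : ℤ) ∣ (a * A - b * D) * (a * A - b * D) - 1 := by
    have e : (a * A - b * D) * (a * A - b * D) - 1 =
        ((a * A - b * D) + 1) * ((a * A - b * D) - 1) := by ring
    rw [e, hMc]
    exact mul_dvd_mul hAx hDx
  have hxc : IsCoprime (a * A - b * D) (M : ℤ) := by
    obtain ⟨t, ht⟩ := hx2
    exact ⟨a * A - b * D, -t, by linear_combination ht⟩
  obtain ⟨u, hu⟩ := exists_unit hxc
  have hAM : (A : ℤ) ∣ (M : ℤ) := by rw [hMc]; exact dvd_mul_right _ _
  have hDM : (D : ℤ) ∣ (M : ℤ) := by rw [hMc]; exact dvd_mul_left _ _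
  have hA' : (A : ℤ) ∣ li u + 1 := by
    have e : li u + 1 = (li u - (a * A - b * D)) + ((a * A - b * D) + 1) := by ring
    rw [e]
    exact dvd_add (dvd_trans hAM hu) hAx
  have hD' : (D : ℤ) ∣ li u - 1 := by
    have e : li u - 1 = (li u - (a * A - b * D)) + ((a * A - b * D) - 1) := by ring
    rw [e]
    exact dvd_add (dvd_trans hDM hu) hDx
  refine ⟨u, ?_, hA', hD'⟩
  apply li_ext
  have e : li (u * u) - li (1 : (ZMod M)ˣ) = (li (u * u) - li u * li u) +
      (li u + 1) * (li u - 1) - (li (1 : (ZMod M)ˣ) - 1) := by ring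
  rw [e]
  refine dvd_sub (dvd_add (li_mul u u) ?_) li_one
  rw [hMc]
  exact mul_dvd_mul hA' hD'

/-- two nonzero elements of `ZMod K` killed by `2` are equal -/
private theorem negTwo (hk : 0 < K) (a b : ZMod K) (ha : a + a = 0) (hb : b + b = 0) :
    a = 0 ∨ b = 0 ∨ a + b = 0 := by
  have : NeZero K := ⟨hk.ne'⟩
  have key : ∀ c : ZMod K, c + c = 0 → c = 0 ∨ 2 * c.val = K := by
    intro c hc
    have h1 : K ∣ 2 * c.val := by
      rw [← ZMod.natCast_eq_zero_iff]
      push_cast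
      rw [ZMod.natCast_zmod_val, two_mul]
      exact hc
    obtain ⟨t, ht⟩ := h1
    have hlt := ZMod.val_lt c
    have ht2 : t < 2 := by
      by_contra hcon
      push Not at hcon
      have : K * 2 ≤ K * t := Nat.mul_le_mul_left K hcon
      omega
    interval_cases t
    · left
      have : c.val = 0 := by omega
      exact (ZMod.val_eq_zero c).1 this
    · right
      omega
  rcases key a ha with h | h
  · exact Or.inl h
  · rcases key b hb with h' | h'
    · exact Or.inr (Or.inl h')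
    · right; right
      have : a = b := ZMod.val_injective K (by omega)
      rw [this]
      exact hb

/-- Proof. Let `u`, `v` be the elements for `A` and `B` (they exist by the Chinese remainder theorem,
`exists_unit`). `u ^ 2 = v ^ 2 = 1`, so `G u`, `G v` are killed by `2` in the cyclic group `ZMod K`
(`K > 0`), which has at most one nonzero such element: `G u = 1` or `G v = 1` or
`G (u v) = 1`. -/
theorem negIn_or [NeZero M] (hk : 0 < K) (G : (ZMod M)ˣ →* Multiplicative (ZMod K)) (A B C : ℕ)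
    (hABC : A * B * C = M) (hAB : A.Coprime B) (hAC : A.Coprime C) (hBC : B.Coprime C) :
    NegIn G A ∨ NegIn G B ∨ NegIn G (A * B) := by
  have e1 : A * (B * C) = M := by rw [← hABC]; ring
  have e2 : B * (A * C) = M := by rw [← hABC]; ring
  have c1 : A.Coprime (B * C) := Nat.Coprime.mul_right hAB hAC
  have c2 : B.Coprime (A * C) := Nat.Coprime.mul_right hAB.symm hBC
  obtain ⟨u, hu, hu1, hu2⟩ := negExists A (B * C) e1 c1
  obtain ⟨v, hv, hv1, hv2⟩ := negExists B (A * C) e2 c2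
  have ha : Multiplicative.toAdd (G u) + Multiplicative.toAdd (G u) = 0 := by
    rw [← toAdd_mul, ← map_mul, hu, map_one, toAdd_one]
  have hb : Multiplicative.toAdd (G v) + Multiplicative.toAdd (G v) = 0 := by
    rw [← toAdd_mul, ← map_mul, hv, map_one, toAdd_one]
  rcases negTwo hk _ _ ha hb with h | h | h
  · left
    exact ⟨B * C, e1, c1, u, toAdd_eq_zero.1 h, hu1, hu2⟩
  · right; left
    exact ⟨A * C, e2, c2, v, toAdd_eq_zero.1 h, hv1, hv2⟩
  · right; right
    obtain ⟨h3, h4⟩ := negMulAux A B C hABC hAB u v hu1 hu2 hv1 hv2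
    refine ⟨C, hABC, Nat.Coprime.mul_left hAC hBC, u * v, ?_, h3, h4⟩
    rw [← toAdd_mul, ← map_mul] at h
    exact toAdd_eq_zero.1 h

/-- `gcd (x, A B)` is at most `2 B` if `A` divides `x + 2` or `x - 2` -/
private theorem negGcd (x : ℤ) (A B M : ℕ) (hM : M = A * B) (hB : 0 < B)
    (h : (A : ℤ) ∣ x + 2 ∨ (A : ℤ) ∣ x - 2) : Int.gcd x (M : ℤ) ≤ 2 * B := by
  have h1 : Int.gcd x (M : ℤ) ∣ Int.gcd x (A : ℤ) * Int.gcd x (B : ℤ) := by
    rw [Int.gcd_def, Int.gcd_def, Int.gcd_def, Int.natAbs_natCast, Int.natAbs_natCast,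
      Int.natAbs_natCast, hM]
    exact Nat.gcd_mul_right_dvd_mul_gcd _ _ _
  have h2 : Int.gcd x (A : ℤ) ∣ 2 := by
    have a1 : ((Int.gcd x (A : ℤ) : ℕ) : ℤ) ∣ x := Int.gcd_dvd_left ..
    have a2 : ((Int.gcd x (A : ℤ) : ℕ) : ℤ) ∣ (A : ℤ) := Int.gcd_dvd_right ..
    have a3 : ((Int.gcd x (A : ℤ) : ℕ) : ℤ) ∣ 2 := by
      rcases h with h | h
      · have := dvd_sub (dvd_trans a2 h) a1
        simpa using this
      · have := dvd_sub a1 (dvd_trans a2 h)
        simpa using this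
    exact_mod_cast a3
  have h3 : Int.gcd x (B : ℤ) ∣ B := by
    have : ((Int.gcd x (B : ℤ) : ℕ) : ℤ) ∣ (B : ℤ) := Int.gcd_dvd_right ..
    exact_mod_cast this
  exact Nat.le_of_dvd (by omega) (dvd_trans h1 (mul_dvd_mul h2 h3))

/-- Proof. Let `u` be the element. If `u = 1` then `A ∣ 2`, so `A k ≤ 2 k < 6 M`. Otherwise
`k < 3 * Dm u` or `k < 3 * Dp u`. `Dm u ∣ 2 B` (`gcd (u - 1, A) ∣ 2`) gives `A k < 6 A B`;
`Dp u ∣ 2 A` gives `k < 6 A`. -/
theorem negIn_small [NeZero M] (G : (ZMod M)ˣ →* Multiplicative (ZMod K)) (h1 : k < 3 * M)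
    (hF : ∀ u : (ZMod M)ˣ, G u = 1 → u ≠ 1 → k < 3 * Dm u ∨ k < 3 * Dp u) (A B : ℕ)
    (hAB : A * B = M) (hcop : A.Coprime B) (hA : NegIn G A) : A * k < 6 * M ∨ k < 6 * A := by
  have hM : A * B ≠ 0 := by rw [hAB]; exact NeZero.ne M
  have hA0 : 0 < A := Nat.pos_of_ne_zero (fun h => hM (by rw [h]; simp))
  have hB0 : 0 < B := Nat.pos_of_ne_zero (fun h => hM (by rw [h]; simp))
  obtain ⟨B', h2, -, u, hu, hu1, hu2⟩ := hA
  have e1 : B' = B := Nat.eq_of_mul_eq_mul_left hA0 (by rw [h2, hAB])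
  subst e1
  by_cases hu0 : u = 1
  · left
    have hAM : (A : ℤ) ∣ (M : ℤ) := by exact_mod_cast Dvd.intro B' hAB
    have h3 : (A : ℤ) ∣ li u - 1 := by
      rw [hu0]
      exact dvd_trans hAM li_one
    have h4 : (A : ℤ) ∣ 2 := by
      have := dvd_sub hu1 h3
      have e : li u + 1 - (li u - 1) = 2 := by ring
      rwa [e] at this
    have h5 : A ≤ 2 := Nat.le_of_dvd (by norm_num) (by exact_mod_cast h4)
    have : A * k ≤ 2 * k := Nat.mul_le_mul_right k h5
    omega
  · rcases hF u hu hu0 with h | h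
    · left
      have h3 : Dm u ≤ 2 * B' := by
        unfold Dm
        apply negGcd _ A B' M hAB.symm hB0
        left
        have e : li u - 1 + 2 = li u + 1 := by ring
        rw [e]
        exact hu1
      have h4 : k < 6 * B' := by omega
      calc A * k < A * (6 * B') := Nat.mul_lt_mul_of_pos_left h4 hA0
        _ = 6 * M := by rw [← hAB]; ring
    · right
      have h3 : Dp u ≤ 2 * A := by
        unfold Dp
        apply negGcd _ B' A M (by rw [← hAB, mul_comm]) hA0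
        right
        have e : li u + 1 - 2 = li u - 1 := by ring
        rw [e]
        exact hu2
      omega

end Pool.Agent.C497
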