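import Pool.Agent.Lib.MP_c497bd_nt.PlusFree
import Pool.Agent.Lib.MP_c497bd_nt.Neg

/-!
# MP_c497bd: two components
-/

namespace Pool.Agent.C497

variable {M k K : ℕ}

private theorem ct_gcd_mul (x : ℤ) (A B : ℕ) :
    Int.gcd x ((A * B : ℕ) : ℤ) ∣ Int.gcd x A * Int.gcd x B := by
  have h := Nat.gcd_mul_right_dvd_mul_gcd x.natAbs A B
  simpa only [Int.gcd, Int.natAbs_natCast] using h

private theorem ct_two_m (x : ℤ) (A : ℕ) (h : (A : ℤ) ∣ x + 1) : Int.gcd (x - 1) A ∣ 2 := by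
  have h1 : ((Int.gcd (x - 1) A : ℕ) : ℤ) ∣ x - 1 := Int.gcd_dvd_left _ _
  have h2 : ((Int.gcd (x - 1) A : ℕ) : ℤ) ∣ x + 1 := (Int.gcd_dvd_right _ _).trans h
  have h3 : ((Int.gcd (x - 1) A : ℕ) : ℤ) ∣ ((2 : ℕ) : ℤ) := by
    have h4 := dvd_sub h2 h1
    have h5 : x + 1 - (x - 1) = ((2 : ℕ) : ℤ) := by push_cast; ring
    rwa [h5] at h4
  exact Int.natCast_dvd_natCast.1 h3

private theorem ct_two_p (x : ℤ) (A : ℕ) (h : (A : ℤ) ∣ x - 1) : Int.gcd (x + 1) A ∣ 2 := by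
  have h1 : ((Int.gcd (x + 1) A : ℕ) : ℤ) ∣ x + 1 := Int.gcd_dvd_left _ _
  have h2 : ((Int.gcd (x + 1) A : ℕ) : ℤ) ∣ x - 1 := (Int.gcd_dvd_right _ _).trans h
  have h3 : ((Int.gcd (x + 1) A : ℕ) : ℤ) ∣ ((2 : ℕ) : ℤ) := by
    have h4 := dvd_sub h1 h2
    have h5 : x + 1 - (x - 1) = ((2 : ℕ) : ℤ) := by push_cast; ring
    rwa [h5] at h4
  exact Int.natCast_dvd_natCast.1 h3

private theorem ct_gcd_le (x : ℤ) {A : ℕ} (hA : 0 < A) : Int.gcd x A ≤ A :=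
  Nat.le_of_dvd hA (Int.natCast_dvd_natCast.1 (Int.gcd_dvd_right x A))

private theorem ct_small {q e d : ℕ} (hq : q.Prime) {x : ℤ} (h1 : d ∣ q ^ e) (h2 : (d : ℤ) ∣ x)
    (h3 : ¬ ((q : ℤ) ∣ x ∧ (q = 2 → (4 : ℤ) ∣ x))) : d ≤ 2 := by
  obtain ⟨j, hj, rfl⟩ := (Nat.dvd_prime_pow hq).1 h1
  push_cast at h2
  rcases Nat.lt_or_ge j 1 with h | h
  · have : j = 0 := by omega
    subst this
    norm_num
  · have h4 : (q : ℤ) ∣ x := (dvd_pow_self _ (by omega)).trans h2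
    have h5 : ¬ (q = 2 → (4 : ℤ) ∣ x) := fun h6 => h3 ⟨h4, h6⟩
    push Not at h5
    obtain ⟨h6, h7⟩ := h5
    subst h6
    rcases Nat.lt_or_ge j 2 with h8 | h8
    · have : j = 1 := by omega
      subst this
      norm_num
    · exfalso
      apply h7
      have h9 : ((2 : ℕ) : ℤ) ^ 2 ∣ ((2 : ℕ) : ℤ) ^ j := pow_dvd_pow _ h8
      have h10 := h9.trans h2
      norm_num at h10
      exact h10

private theorem ct_neg [NeZero M] (G : (ZMod M)ˣ →* Multiplicative (ZMod K)) (B Q : ℕ)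
    (hM : B * Q = M) (hV : NegIn G B) :
    ∃ n : (ZMod M)ˣ, G n = 1 ∧ (B : ℤ) ∣ li n + 1 ∧ (Q : ℤ) ∣ li n - 1 := by
  obtain ⟨B', h1, _, n, h2, h3, h4⟩ := hV
  have hM0 : M ≠ 0 := NeZero.ne M
  have hB0 : 0 < B := by
    rcases Nat.eq_zero_or_pos B with h | h
    · subst h; simp at hM; exact absurd hM.symm hM0
    · exact h
  have h5 : B' = Q := Nat.eq_of_mul_eq_mul_left hB0 (h1.trans hM.symm)
  subst h5
  exact ⟨n, h2, h3, h4⟩

private theorem ct_pow_dvd [NeZero M] (u : (ZMod M)ˣ) (T : ℕ) {d : ℤ} (hd : d ∣ (M : ℤ))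
    (h : d ∣ li u - 1) : d ∣ li (u ^ T) - 1 := by
  have h1 := hd.trans (li_pow u T)
  have h2 : d ∣ li u ^ T - 1 := by
    have h3 := sub_dvd_pow_sub_pow (li u) 1 T
    rw [one_pow] at h3
    exact h.trans h3
  have h4 := dvd_add h1 h2
  simpa using h4

private theorem ct_kill [NeZero M] (G : (ZMod M)ˣ →* Multiplicative (ZMod K))
    (hP : ∀ q : ℕ, q.Prime → q ∣ M → ∃ v : (ZMod M)ˣ, ((M / q : ℕ) : ℤ) ∣ li v - 1 ∧ G v ≠ 1)
    (q e R T : ℕ) (hq : q.Prime) (he : 0 < e) (hM : q ^ e * R = M) (hcop : q.Coprime R)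
    (u : (ZMod M)ˣ) (hG : G u = 1) (h1 : (q : ℤ) ∣ li u - 1) (h2 : q = 2 → (4 : ℤ) ∣ li u - 1)
    (hR : (R : ℤ) ∣ li (u ^ T) - 1) : u ^ T = 1 := by
  by_contra hne
  have hqM : q ∣ M := by
    rw [← hM]
    exact Dvd.dvd.mul_right (dvd_pow_self _ (by omega)) _
  have hq1 : (q : ℤ) ∣ li (u ^ T) - 1 := ct_pow_dvd u T (by exact_mod_cast hqM) h1
  rcases Nat.lt_or_ge e 2 with h | h
  · have he1 : e = 1 := by omega
    subst he1
    apply hne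
    apply li_ext
    have hcop2 : IsCoprime (q : ℤ) (R : ℤ) := Nat.isCoprime_iff_coprime.2 hcop
    have h3 := hcop2.mul_dvd hq1 hR
    have hMM : (M : ℤ) = (q : ℤ) * R := by rw [← hM]; push_cast; ring
    rw [← hMM] at h3
    have h4 := dvd_sub h3 (li_one (M := M))
    simpa using h4
  · have hq2 : q = 2 → (4 : ℤ) ∣ li (u ^ T) - 1 := by
      intro h3
      refine ct_pow_dvd u T ?_ (h2 h3)
      have h4 : 4 ∣ M := by
        rw [← hM, h3]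
        refine Dvd.dvd.mul_right ?_ _
        have : (2 : ℕ) ^ 2 ∣ 2 ^ e := pow_dvd_pow _ h
        simpa using this
      exact_mod_cast h4
    obtain ⟨v, hv1, hv2⟩ := hP q hq hqM
    apply hv2
    exact prim_of_mem G q e R hq hM hcop (u ^ T) (by rw [map_pow, hG, one_pow]) hne hR hq1 hq2 v hv1

/-- Proof. Let `n` be the element of `V B`: `n = -1` modulo `B`, `n = 1` modulo `Q₁ Q₂`, `G n = 1`.
If `n = 1`, then `B ∣ 2` and `k < 3 M ≤ 6 Q₁ Q₂`. Otherwise `k < 3 * Dm n ≤ 6 Q₁ Q₂`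
(`Dm n ∣ 2 Q₁ Q₂`), or `k < 3 * Dp n ≤ 6 B`, and then `k ^ 2 < 6 B k < 36 M`, a contradiction. -/
theorem two_bound [NeZero M] (G : (ZMod M)ˣ →* Multiplicative (ZMod K)) (h1 : k < 3 * M)
    (hF : ∀ u : (ZMod M)ˣ, G u = 1 → u ≠ 1 → k < 3 * Dm u ∨ k < 3 * Dp u)
    (hk2 : 1000 * M ≤ k ^ 2) (B Q : ℕ) (hM : B * Q = M) (hBQ : B.Coprime Q) (hV : NegIn G B)
    (hB : B * k < 6 * M) : k < 6 * Q := by
  obtain ⟨n, hn1, hn2, hn3⟩ := ct_neg G B Q hM hV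
  have hM0 : 0 < M := Nat.pos_of_ne_zero (NeZero.ne M)
  have hB0 : 0 < B := by
    rcases Nat.eq_zero_or_pos B with h | h
    · subst h; simp at hM; omega
    · exact h
  have hQ0 : 0 < Q := by
    rcases Nat.eq_zero_or_pos Q with h | h
    · subst h; simp at hM; omega
    · exact h
  have hBM : (B : ℤ) ∣ (M : ℤ) := by exact_mod_cast Dvd.intro _ hM
  by_cases hne : n = 1
  · have h2 : (B : ℤ) ∣ li n - 1 := by
      rw [hne]; exact hBM.trans li_one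
    have h3 : (B : ℤ) ∣ ((2 : ℕ) : ℤ) := by
      have h4 := dvd_sub hn2 h2
      have h5 : li n + 1 - (li n - 1) = ((2 : ℕ) : ℤ) := by push_cast; ring
      rwa [h5] at h4
    have h6 : B ≤ 2 := Nat.le_of_dvd (by norm_num) (Int.natCast_dvd_natCast.1 h3)
    have h7 : M ≤ 2 * Q := by
      rw [← hM]; exact Nat.mul_le_mul_right _ h6
    omega
  · have hdm : Dm n ∣ Int.gcd (li n - 1) B * Int.gcd (li n - 1) Q := by
      have := ct_gcd_mul (li n - 1) B Q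
      rwa [hM] at this
    have hdp : Dp n ∣ Int.gcd (li n + 1) B * Int.gcd (li n + 1) Q := by
      have := ct_gcd_mul (li n + 1) B Q
      rwa [hM] at this
    rcases hF n hn1 hne with h | h
    · have h2 : Int.gcd (li n - 1) B ≤ 2 := Nat.le_of_dvd (by norm_num) (ct_two_m _ _ hn2)
      have h3 : Int.gcd (li n - 1) Q ≤ Q := ct_gcd_le _ hQ0
      have h4 : Int.gcd (li n - 1) B * Int.gcd (li n - 1) Q ≤ 2 * Q := Nat.mul_le_mul h2 h3
      have h5 : 0 < Int.gcd (li n - 1) B * Int.gcd (li n - 1) Q :=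
        Nat.mul_pos (Int.gcd_pos_of_ne_zero_right _ (by exact_mod_cast hB0.ne'))
          (Int.gcd_pos_of_ne_zero_right _ (by exact_mod_cast hQ0.ne'))
      have h6 := Nat.le_of_dvd h5 hdm
      omega
    · exfalso
      have h2 : Int.gcd (li n + 1) Q ≤ 2 := Nat.le_of_dvd (by norm_num) (ct_two_p _ _ hn3)
      have h3 : Int.gcd (li n + 1) B ≤ B := ct_gcd_le _ hB0
      have h4 : Int.gcd (li n + 1) B * Int.gcd (li n + 1) Q ≤ B * 2 := Nat.mul_le_mul h3 h2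
      have h5 : 0 < Int.gcd (li n + 1) B * Int.gcd (li n + 1) Q :=
        Nat.mul_pos (Int.gcd_pos_of_ne_zero_right _ (by exact_mod_cast hB0.ne'))
          (Int.gcd_pos_of_ne_zero_right _ (by exact_mod_cast hQ0.ne'))
      have h6 := Nat.le_of_dvd h5 hdp
      have h7 : k ≤ 6 * B := by omega
      have h8 : k * k ≤ 6 * B * k := Nat.mul_le_mul_right _ h7
      nlinarith

/-- Suppose that the subgroup of the `u = 1` modulo `B` contains an element `u ≠ 1` with `G u = 1`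
and
`k < 3 * Dm u`. Then `k < 12 * Q₁`.

Proof. Put `dᵢ = gcd (li u - 1, Qᵢ)`; `Dm u = B d₁ d₂`. Let `qᵢ` be the prime of `Qᵢ`.

(a) If `q₂ ∤ d₂`, or `q₂ = 2` and `4 ∤ d₂`: then `d₂ ≤ 2`. Let `n` be the element of `V B` as above
and `w = u n`; `w ≠ 1` (otherwise `u` would be `1` modulo `Q₁ Q₂` and modulo `B`), `G w = 1`. If
`k < 3 * Dm w`: `gcd (li w - 1, B) ∣ 2`, so `k < 3 * 2 * d₁ * d₂ ≤ 12 Q₁`. If `k < 3 * Dp w`:
`k < 3 * B * g` with `g = gcd (li u + 1, Q₁ Q₂)`, and `k < 3 B d₁ d₂`, `d₁ d₂ g ∣ 2 Q₁ Q₂`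
(`gcd (u - 1, u + 1) ∣ 2`), so `k ^ 2 < 9 B ^ 2 * 2 Q₁ Q₂ = 18 B M`, `k ^ 3 < 18 (B k) M < 108 M ^
2`,
a contradiction.

(b) Otherwise `q₂ ∣ li u - 1`, and `4 ∣ li u - 1` if `q₂ = 2`. Also `3 B d₁ d₂ > k`, `d₂ ≤ Q₂` and
`12 M ≤ Q₁ k` give `d₁ > 4`, so `q₁ ∣ li u - 1`, and `4 ∣ li u - 1` if `q₁ = 2`. With `Q₂ = q₂ ^
e₂` let
`w = u ^ Q₂`. It is `1` modulo `B`, modulo `Q₂` (`(1 + q z) ^ (q ^ e) = 1` modulo `q ^ e`) and
modulo
`q₁` (`4`), so `w = 1` by `prim_of_mem` (`R = B Q₂`) and `hP` at `q₁`. In the same way `u ^ Q₁ = 1`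
(at `q₂`). As `Q₁`, `Q₂` are coprime, `u = 1`, a contradiction. -/
theorem two_plus [NeZero M] (G : (ZMod M)ˣ →* Multiplicative (ZMod K))
    (hF : ∀ u : (ZMod M)ˣ, G u = 1 → u ≠ 1 → k < 3 * Dm u ∨ k < 3 * Dp u)
    (hP : ∀ q : ℕ, q.Prime → q ∣ M → ∃ v : (ZMod M)ˣ, ((M / q : ℕ) : ℤ) ∣ li v - 1 ∧ G v ≠ 1)
    (hst : 1000 * M ^ 2 < k ^ 3) (B Q₁ Q₂ : ℕ) (hM : B * (Q₁ * Q₂) = M)
    (hB1 : B.Coprime Q₁) (hB2 : B.Coprime Q₂) (h12 : Q₁.Coprime Q₂) (hQ1 : IsPrimePow Q₁)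
    (hQ2 : IsPrimePow Q₂) (hV : NegIn G B) (hB : B * k < 6 * M) (hbig : 12 * M ≤ Q₁ * k)
    (u : (ZMod M)ˣ) (hu : (B : ℤ) ∣ li u - 1) (hG : G u = 1) (hne : u ≠ 1)
    (hD : k < 3 * Dm u) : k < 12 * Q₁ := by
  have hM0 : 0 < M := Nat.pos_of_ne_zero (NeZero.ne M)
  have hB0 : 0 < B := by
    rcases Nat.eq_zero_or_pos B with h | h
    · subst h; simp at hM; omega
    · exact h
  have hQ10 : 0 < Q₁ := hQ1.pos
  have hQ20 : 0 < Q₂ := hQ2.pos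
  obtain ⟨q₁, e₁, hq1, he1, rfl⟩ := (isPrimePow_nat_iff _).1 hQ1
  obtain ⟨q₂, e₂, hq2, he2, rfl⟩ := (isPrimePow_nat_iff _).1 hQ2
  set Q₁ := q₁ ^ e₁ with hQ1d
  set Q₂ := q₂ ^ e₂ with hQ2d
  have hBM : (B : ℤ) ∣ (M : ℤ) := by exact_mod_cast Dvd.intro _ hM
  have hQM : ((Q₁ * Q₂ : ℕ) : ℤ) ∣ (M : ℤ) := by exact_mod_cast Dvd.intro_left _ hM
  have hQ1M : (Q₁ : ℤ) ∣ (M : ℤ) := (by exact_mod_cast Dvd.intro _ rfl :
    (Q₁ : ℤ) ∣ ((Q₁ * Q₂ : ℕ) : ℤ)).trans hQM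
  have hQ2M : (Q₂ : ℤ) ∣ (M : ℤ) := (by exact_mod_cast Dvd.intro_left _ rfl :
    (Q₂ : ℤ) ∣ ((Q₁ * Q₂ : ℕ) : ℤ)).trans hQM
  -- `k < 3 B d₁ d₂`
  have hdm : Dm u ∣ Int.gcd (li u - 1) B * Int.gcd (li u - 1) ((Q₁ * Q₂ : ℕ) : ℤ) := by
    have := ct_gcd_mul (li u - 1) B (Q₁ * Q₂)
    rwa [hM] at this
  have hpos1 : 0 < Int.gcd (li u - 1) B * Int.gcd (li u - 1) ((Q₁ * Q₂ : ℕ) : ℤ) :=
    Nat.mul_pos (Int.gcd_pos_of_ne_zero_right _ (by exact_mod_cast hB0.ne'))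
      (Int.gcd_pos_of_ne_zero_right _ (by exact_mod_cast (Nat.mul_pos hQ10 hQ20).ne'))
  have hk1 : k < 3 * (B * Int.gcd (li u - 1) ((Q₁ * Q₂ : ℕ) : ℤ)) := by
    have h1 := Nat.le_of_dvd hpos1 hdm
    have h2 := Nat.mul_le_mul_right (Int.gcd (li u - 1) ((Q₁ * Q₂ : ℕ) : ℤ))
      (ct_gcd_le (li u - 1) hB0)
    omega
  have hd12 : Int.gcd (li u - 1) ((Q₁ * Q₂ : ℕ) : ℤ) ≤
      Int.gcd (li u - 1) Q₁ * Int.gcd (li u - 1) Q₂ :=
    Nat.le_of_dvd (Nat.mul_pos (Int.gcd_pos_of_ne_zero_right _ (by exact_mod_cast hQ10.ne'))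
      (Int.gcd_pos_of_ne_zero_right _ (by exact_mod_cast hQ20.ne'))) (ct_gcd_mul _ _ _)
  by_cases hc2 : ((q₂ : ℤ) ∣ li u - 1 ∧ (q₂ = 2 → (4 : ℤ) ∣ li u - 1))
  · -- case (b)
    exfalso
    have hc1 : ((q₁ : ℤ) ∣ li u - 1 ∧ (q₁ = 2 → (4 : ℤ) ∣ li u - 1)) := by
      by_contra hc1
      have h1 : Int.gcd (li u - 1) Q₁ ≤ 2 :=
        ct_small hq1 (Int.natCast_dvd_natCast.1 (Int.gcd_dvd_right _ _)) (Int.gcd_dvd_left _ _) hc1
      have h2 : Int.gcd (li u - 1) Q₂ ≤ Q₂ := ct_gcd_le _ hQ20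
      have h3 : Int.gcd (li u - 1) Q₁ * Int.gcd (li u - 1) Q₂ ≤ 2 * Q₂ := Nat.mul_le_mul h1 h2
      have h4 : B * Int.gcd (li u - 1) ((Q₁ * Q₂ : ℕ) : ℤ) ≤ B * (2 * Q₂) :=
        Nat.mul_le_mul_left _ (hd12.trans h3)
      have h5 : k ≤ 3 * (B * (2 * Q₂)) := by omega
      have h6 : Q₁ * k ≤ Q₁ * (3 * (B * (2 * Q₂))) := Nat.mul_le_mul_left _ h5
      have h7 : Q₁ * (3 * (B * (2 * Q₂))) = 6 * M := by rw [← hM]; ring
      omega
    have hcB1 : IsCoprime (B : ℤ) (Q₁ : ℤ) := Nat.isCoprime_iff_coprime.2 hB1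
    have hcB2 : IsCoprime (B : ℤ) (Q₂ : ℤ) := Nat.isCoprime_iff_coprime.2 hB2
    have hpow : ∀ q e : ℕ, (q : ℤ) ∣ li u - 1 → ((q ^ e : ℕ) : ℤ) ∣ (M : ℤ) →
        ((q ^ e : ℕ) : ℤ) ∣ li (u ^ (q ^ e)) - 1 := by
      intro q e h1 h2
      have h3 := h2.trans (li_pow u (q ^ e))
      have h4 : ((q : ℤ)) ^ (e + 1) ∣ li u ^ (q ^ e) - 1 ^ (q ^ e) := dvd_sub_pow_of_dvd_sub h1 e
      rw [one_pow] at h4
      have h5 : ((q ^ e : ℕ) : ℤ) ∣ li u ^ (q ^ e) - 1 := by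
        push_cast
        exact (pow_dvd_pow _ (by omega)).trans h4
      have h6 := dvd_add h3 h5
      simpa using h6
    have hu2 : u ^ Q₂ = 1 := by
      refine ct_kill G hP q₁ e₁ (B * Q₂) Q₂ hq1 he1 ?_ ?_ u hG hc1.1 hc1.2 ?_
      · rw [← hM]; ring
      · refine Nat.Coprime.mul_right ?_ ?_
        · exact (Nat.Coprime.coprime_dvd_right (dvd_pow_self _ (by omega)) hB1).symm
        · exact Nat.Coprime.coprime_dvd_left (dvd_pow_self _ (by omega)) h12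
      · push_cast
        exact hcB2.mul_dvd (ct_pow_dvd u Q₂ hBM hu) (hpow q₂ e₂ hc2.1 hQ2M)
    have hu1 : u ^ Q₁ = 1 := by
      refine ct_kill G hP q₂ e₂ (B * Q₁) Q₁ hq2 he2 ?_ ?_ u hG hc2.1 hc2.2 ?_
      · rw [← hM]; ring
      · refine Nat.Coprime.mul_right ?_ ?_
        · exact (Nat.Coprime.coprime_dvd_right (dvd_pow_self _ (by omega)) hB2).symm
        · exact Nat.Coprime.coprime_dvd_left (dvd_pow_self _ (by omega)) h12.symm
      · push_cast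
        exact hcB1.mul_dvd (ct_pow_dvd u Q₁ hBM hu) (hpow q₁ e₁ hc1.1 hQ1M)
    apply hne
    rw [← orderOf_eq_one_iff]
    exact Nat.eq_one_of_dvd_coprimes h12 (orderOf_dvd_of_pow_eq_one hu1)
      (orderOf_dvd_of_pow_eq_one hu2)
  · -- case (a)
    obtain ⟨n, hn1, hn2, hn3⟩ := ct_neg G B (Q₁ * Q₂) hM hV
    have hw : (M : ℤ) ∣ li (u * n) - li u * li n := li_mul u n
    have hwB : (B : ℤ) ∣ li (u * n) + 1 := by
      have h1 := hBM.trans hw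
      have h2 : (B : ℤ) ∣ li u * li n + 1 := by
        have h3 : li u * li n + 1 = (li u - 1) * li n + (li n + 1) := by ring
        rw [h3]
        exact dvd_add (Dvd.dvd.mul_right hu _) hn2
      have h3 := dvd_add h1 h2
      have h4 : li (u * n) - li u * li n + (li u * li n + 1) = li (u * n) + 1 := by ring
      rwa [h4] at h3
    have hwQ : ((Q₁ * Q₂ : ℕ) : ℤ) ∣ li (u * n) - li u := by
      have h1 := hQM.trans hw
      have h2 : ((Q₁ * Q₂ : ℕ) : ℤ) ∣ li u * li n - li u := by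
        have h3 : li u * li n - li u = li u * (li n - 1) := by ring
        rw [h3]
        exact Dvd.dvd.mul_left hn3 _
      have h3 := dvd_add h1 h2
      have h4 : li (u * n) - li u * li n + (li u * li n - li u) = li (u * n) - li u := by ring
      rwa [h4] at h3
    have hcBQ : IsCoprime (B : ℤ) ((Q₁ * Q₂ : ℕ) : ℤ) :=
      Nat.isCoprime_iff_coprime.2 (Nat.Coprime.mul_right hB1 hB2)
    have hwne : u * n ≠ 1 := by
      intro h
      apply hne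
      apply li_ext
      have h1 : ((Q₁ * Q₂ : ℕ) : ℤ) ∣ li u - 1 := by
        have h2 : ((Q₁ * Q₂ : ℕ) : ℤ) ∣ li (u * n) - 1 := by
          rw [h]; exact hQM.trans li_one
        have h3 := dvd_sub h2 hwQ
        have h4 : li (u * n) - 1 - (li (u * n) - li u) = li u - 1 := by ring
        rwa [h4] at h3
      have h2 := hcBQ.mul_dvd hu h1
      have hMM : (B : ℤ) * ((Q₁ * Q₂ : ℕ) : ℤ) = M := by rw [← hM]; push_cast; ring
      rw [hMM] at h2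
      have h4 := dvd_sub h2 (li_one (M := M))
      simpa using h4
    rcases hF (u * n) (by rw [map_mul, hG, hn1, one_mul]) hwne with h | h
    · have hdw : Dm (u * n) ∣
          Int.gcd (li (u * n) - 1) B * Int.gcd (li (u * n) - 1) ((Q₁ * Q₂ : ℕ) : ℤ) := by
        have := ct_gcd_mul (li (u * n) - 1) B (Q₁ * Q₂)
        rwa [hM] at this
      have h1 : Int.gcd (li (u * n) - 1) B ≤ 2 := Nat.le_of_dvd (by norm_num) (ct_two_m _ _ hwB)
      have h2 : Int.gcd (li (u * n) - 1) ((Q₁ * Q₂ : ℕ) : ℤ) ≤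
          Int.gcd (li (u * n) - 1) Q₁ * Int.gcd (li (u * n) - 1) Q₂ :=
        Nat.le_of_dvd (Nat.mul_pos (Int.gcd_pos_of_ne_zero_right _ (by exact_mod_cast hQ10.ne'))
          (Int.gcd_pos_of_ne_zero_right _ (by exact_mod_cast hQ20.ne'))) (ct_gcd_mul _ _ _)
      have h3 : Int.gcd (li (u * n) - 1) Q₁ ≤ Q₁ := ct_gcd_le _ hQ10
      have h4 : Int.gcd (li (u * n) - 1) Q₂ ≤ 2 := by
        refine ct_small hq2 (x := li u - 1) (Int.natCast_dvd_natCast.1 (Int.gcd_dvd_right _ _))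
          ?_ hc2
        have h5 : ((Int.gcd (li (u * n) - 1) Q₂ : ℕ) : ℤ) ∣ li (u * n) - 1 := Int.gcd_dvd_left _ _
        have h6 : ((Int.gcd (li (u * n) - 1) Q₂ : ℕ) : ℤ) ∣ li (u * n) - li u :=
          ((Int.gcd_dvd_right _ _).trans (by exact_mod_cast Dvd.intro_left _ rfl :
            (Q₂ : ℤ) ∣ ((Q₁ * Q₂ : ℕ) : ℤ))).trans hwQ
        have h7 := dvd_sub h5 h6
        have h8 : li (u * n) - 1 - (li (u * n) - li u) = li u - 1 := by ring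
        rwa [h8] at h7
      have h5 : Int.gcd (li (u * n) - 1) B * Int.gcd (li (u * n) - 1) ((Q₁ * Q₂ : ℕ) : ℤ) ≤
          2 * (Q₁ * 2) := Nat.mul_le_mul h1 (h2.trans (Nat.mul_le_mul h3 h4))
      have h6 : 0 < Int.gcd (li (u * n) - 1) B *
          Int.gcd (li (u * n) - 1) ((Q₁ * Q₂ : ℕ) : ℤ) :=
        Nat.mul_pos (Int.gcd_pos_of_ne_zero_right _ (by exact_mod_cast hB0.ne'))
          (Int.gcd_pos_of_ne_zero_right _ (by exact_mod_cast (Nat.mul_pos hQ10 hQ20).ne'))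
      have h7 := Nat.le_of_dvd h6 hdw
      omega
    · exfalso
      have hdw : Dp (u * n) ∣
          Int.gcd (li (u * n) + 1) B * Int.gcd (li (u * n) + 1) ((Q₁ * Q₂ : ℕ) : ℤ) := by
        have := ct_gcd_mul (li (u * n) + 1) B (Q₁ * Q₂)
        rwa [hM] at this
      have h6 : 0 < Int.gcd (li (u * n) + 1) B *
          Int.gcd (li (u * n) + 1) ((Q₁ * Q₂ : ℕ) : ℤ) :=
        Nat.mul_pos (Int.gcd_pos_of_ne_zero_right _ (by exact_mod_cast hB0.ne'))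
          (Int.gcd_pos_of_ne_zero_right _ (by exact_mod_cast (Nat.mul_pos hQ10 hQ20).ne'))
      have h7 := Nat.le_of_dvd h6 hdw
      have h8 := Nat.mul_le_mul_right (Int.gcd (li (u * n) + 1) ((Q₁ * Q₂ : ℕ) : ℤ))
        (ct_gcd_le (li (u * n) + 1) hB0)
      set g : ℕ := Int.gcd (li (u * n) + 1) ((Q₁ * Q₂ : ℕ) : ℤ) with hg
      set g' : ℕ := Int.gcd (li u - 1) ((Q₁ * Q₂ : ℕ) : ℤ) with hg'
      have hk2 : k < 3 * (B * g) := by omega
      have hgQ : g ∣ Q₁ * Q₂ := Int.natCast_dvd_natCast.1 (Int.gcd_dvd_right _ _)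
      have hgQ' : g' ∣ Q₁ * Q₂ := Int.natCast_dvd_natCast.1 (Int.gcd_dvd_right _ _)
      have hgu : (g : ℤ) ∣ li u + 1 := by
        have h9 : (g : ℤ) ∣ li (u * n) + 1 := Int.gcd_dvd_left _ _
        have h10 : (g : ℤ) ∣ li (u * n) - li u :=
          (by exact_mod_cast hgQ : (g : ℤ) ∣ ((Q₁ * Q₂ : ℕ) : ℤ)).trans hwQ
        have h11 := dvd_sub h9 h10
        have h12 : li (u * n) + 1 - (li (u * n) - li u) = li u + 1 := by ring
        rwa [h12] at h11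
      have hgu' : (g' : ℤ) ∣ li u - 1 := Int.gcd_dvd_left _ _
      have hgg : Nat.gcd g g' ∣ 2 := by
        have h9 : ((Nat.gcd g g' : ℕ) : ℤ) ∣ li u + 1 :=
          (Int.natCast_dvd_natCast.2 (Nat.gcd_dvd_left _ _)).trans hgu
        have h10 : ((Nat.gcd g g' : ℕ) : ℤ) ∣ li u - 1 :=
          (Int.natCast_dvd_natCast.2 (Nat.gcd_dvd_right _ _)).trans hgu'
        have h11 := dvd_sub h9 h10
        have h12 : li u + 1 - (li u - 1) = ((2 : ℕ) : ℤ) := by push_cast; ring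
        rw [h12] at h11
        exact Int.natCast_dvd_natCast.1 h11
      have hprod : g * g' ≤ 2 * (Q₁ * Q₂) := by
        rw [← Nat.gcd_mul_lcm g g']
        exact Nat.mul_le_mul (Nat.le_of_dvd (by norm_num) hgg)
          (Nat.le_of_dvd (Nat.mul_pos hQ10 hQ20) (Nat.lcm_dvd hgQ hgQ'))
      have hkk : k * k ≤ 18 * B * M := by
        calc k * k ≤ (3 * (B * g)) * (3 * (B * g')) := Nat.mul_le_mul hk2.le hk1.le
          _ = 9 * (B * B) * (g * g') := by ring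
          _ ≤ 9 * (B * B) * (2 * (Q₁ * Q₂)) := Nat.mul_le_mul_left _ hprod
          _ = 18 * B * (B * (Q₁ * Q₂)) := by ring
          _ = 18 * B * M := by rw [hM]
      have hkkk : k ^ 3 ≤ 108 * M ^ 2 := by
        calc k ^ 3 = k * k * k := by ring
          _ ≤ 18 * B * M * k := Nat.mul_le_mul_right _ hkk
          _ = 18 * M * (B * k) := by ring
          _ ≤ 18 * M * (6 * M) := Nat.mul_le_mul_left _ hB.le
          _ = 108 * M ^ 2 := by ring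
      have hM2 : 0 < M ^ 2 := by positivity
      omega

end Pool.Agent.C497
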