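import Mathlib

/-!
# MP_c497bd: unitary divisors
-/

namespace Pool.Agent.C497

/-- Every number greater than `1` has a component. -/
private theorem exists_component (C : ℕ) (hC : 0 < C) (h1 : C ≠ 1) :
    ∃ Q D : ℕ, C = Q * D ∧ Q.Coprime D ∧ IsPrimePow Q := by
  have hp : C.minFac.Prime := Nat.minFac_prime h1
  refine ⟨C.minFac ^ C.factorization C.minFac, C / C.minFac ^ C.factorization C.minFac, ?_, ?_, ?_⟩
  · exact (Nat.ordProj_mul_ordCompl_eq_self C C.minFac).symm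
  · exact Nat.Coprime.pow_left _ (Nat.coprime_ordCompl hp hC.ne')
  · rw [isPrimePow_nat_iff]
    refine ⟨C.minFac, C.factorization C.minFac, hp, ?_, rfl⟩
    exact (hp.dvd_iff_one_le_factorization hC.ne').1 (Nat.minFac_dvd C)

/-- The common step: a unitary divisor `Q` prime to `B` with `V Q` is large. -/
private theorem large_of_V (M k : ℕ) (hM : 0 < M) (hst : 216 * M ^ 2 < k ^ 3) (V : ℕ → Prop)
    (hmul : ∀ A B C : ℕ, A * B * C = M → A.Coprime B → A.Coprime C → B.Coprime C →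
      V A → V B → V (A * B))
    (hs : ∀ A B : ℕ, A * B = M → A.Coprime B → V A → A * k < 6 * M ∨ k < 6 * A)
    (B : ℕ) (hVB : V B) (hBk : B * k < 6 * M)
    (hmax : ∀ A C : ℕ, A * C = M → A.Coprime C → V A → A * k < 6 * M → A ≤ B)
    (Q C : ℕ) (hQ1 : 1 < Q) (hprod : B * Q * C = M) (hBQ : B.Coprime Q) (hBC : B.Coprime C)
    (hQC : Q.Coprime C) (hVQ : V Q) : k < 6 * Q := by
  have hB0 : 0 < B := by
    rcases Nat.eq_zero_or_pos B with h | h
    · subst h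
      simp at hprod
      omega
    · exact h
  have hV : V (B * Q) := hmul B Q C hprod hBQ hBC hQC hVB hVQ
  have hcop : (B * Q).Coprime C := Nat.Coprime.mul_left hBC hQC
  have h1 : k < 6 * (B * Q) := by
    rcases hs (B * Q) C hprod hcop hV with h | h
    · exfalso
      have h2 := hmax (B * Q) C hprod hcop hV h
      nlinarith
    · exact h
  have hprod2 : Q * (B * C) = M := by
    rw [← hprod]
    ring
  rcases hs Q (B * C) hprod2 (Nat.Coprime.mul_right hBQ.symm hQC) hVQ with h | h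
  · exfalso
    have hk : 0 < k := by
      rcases Nat.eq_zero_or_pos k with h' | h'
      · subst h'
        simp at hst
      · exact h'
    have h3 : B * k * (Q * k) < 6 * M * (6 * M) := Nat.mul_lt_mul'' hBk h
    have h4 : k * (k * k) < 6 * (B * Q) * (k * k) := Nat.mul_lt_mul_of_pos_right h1 (by positivity)
    have h5 : 6 * (B * Q) * (k * k) = 6 * (B * k * (Q * k)) := by ring
    have h6 : k ^ 3 = k * (k * k) := by ring
    have h7 : 6 * (6 * M * (6 * M)) = 216 * M ^ 2 := by ring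
    omega
  · exact h

/-- Proof. `k ≥ 7` by `hst`. Let `B` be the largest unitary divisor of `M` with `V B` and
`B k < 6 M` (`B = 1` is possible by `hs`), `C = M / B`; `C ≠ 1` because `M k < 6 M` is impossible.
Let `Q` be a component of `C` (a prime power with `Q ∣ C`, `Q` prime to `C / Q`).

If `V Q`: then `V (B Q)`, and `B Q k < 6 M` is excluded by the maximality of `B`, so `k < 6 B Q`. If
`Q k < 6 M` this gives `k ^ 3 < 6 (B k) (Q k) < 216 M ^ 2`, a contradiction. So `k < 6 Q` by `hs`, and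
the first alternative holds with `R = M / Q` (`R k < 6 Q R`).

So suppose that `V Q` fails for all components of `C`. If `C` is a prime power, the first alternative
holds with `R = B`. If `C` has exactly two components, the second alternative holds. If `C` has three
components `Q₁`, `Q₂`, `Q₃`: `V (Qᵢ Qⱼ)` by `hor`, `V (B Qᵢ Qⱼ)` by `hmul`, `k < 6 B Qᵢ Qⱼ` by the
maximality of `B`, and `Qᵢ Qⱼ k < 6 M` would give `k ^ 3 < 216 M ^ 2` as above, so `k < 6 Qᵢ Qⱼ`; the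
product over the three pairs is `k ^ 3 < 216 (Q₁ Q₂ Q₃) ^ 2 ≤ 216 M ^ 2`, a contradiction. -/
theorem comb (M k : ℕ) (hM : 0 < M) (hst : 216 * M ^ 2 < k ^ 3) (V : ℕ → Prop) (h1 : V 1)
    (hmul : ∀ A B C : ℕ, A * B * C = M → A.Coprime B → A.Coprime C → B.Coprime C →
      V A → V B → V (A * B))
    (hor : ∀ A B C : ℕ, A * B * C = M → A.Coprime B → A.Coprime C → B.Coprime C →
      V A ∨ V B ∨ V (A * B))
    (hs : ∀ A B : ℕ, A * B = M → A.Coprime B → V A → A * k < 6 * M ∨ k < 6 * A) :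
    (∃ Q R : ℕ, Q * R = M ∧ Q.Coprime R ∧ IsPrimePow Q ∧ R * k < 6 * M) ∨
    (∃ B Q₁ Q₂ : ℕ, B * (Q₁ * Q₂) = M ∧ B.Coprime Q₁ ∧ B.Coprime Q₂ ∧ Q₁.Coprime Q₂ ∧
      IsPrimePow Q₁ ∧ IsPrimePow Q₂ ∧ V B ∧ B * k < 6 * M) := by
  have hk7 : 6 < k := by
    by_contra hcon
    have h2 : k ≤ 6 := not_lt.1 hcon
    have h3 : k ^ 3 ≤ 6 ^ 3 := Nat.pow_le_pow_left h2 3
    have h4 : 1 ≤ M ^ 2 := Nat.one_le_pow _ _ hM
    omega
  have hone : 1 * k < 6 * M := by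
    rcases hs 1 M (one_mul M) (Nat.coprime_one_left M) h1 with h | h
    · exact h
    · omega
  classical
  let P : ℕ → Prop := fun B => ∃ C : ℕ, B * C = M ∧ B.Coprime C ∧ V B ∧ B * k < 6 * M
  have hP1 : P 1 := ⟨M, one_mul M, Nat.coprime_one_left M, h1, hone⟩
  have hPle : ∀ B, P B → B ≤ M := by
    rintro B ⟨C, hC, -, -, -⟩
    exact Nat.le_of_dvd hM ⟨C, hC.symm⟩
  obtain ⟨C, hBC, hcop, hVB, hBk⟩ : P (Nat.findGreatest P M) :=
    Nat.findGreatest_spec hM hP1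
  have hmax : ∀ A C : ℕ, A * C = M → A.Coprime C → V A → A * k < 6 * M →
      A ≤ Nat.findGreatest P M := by
    intro A C h h' h'' hk'
    have hPA : P A := ⟨C, h, h', h'', hk'⟩
    exact Nat.le_findGreatest (hPle A hPA) hPA
  generalize Nat.findGreatest P M = B at hBC hcop hVB hBk hmax
  have hB0 : 0 < B := by
    rcases Nat.eq_zero_or_pos B with h | h
    · subst h
      simp at hBC
      omega
    · exact h
  have hC0 : 0 < C := by
    rcases Nat.eq_zero_or_pos C with h | h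
    · subst h
      simp at hBC
      omega
    · exact h
  have hC1 : C ≠ 1 := by
    rintro rfl
    rw [mul_one] at hBC
    subst hBC
    have := Nat.lt_of_mul_lt_mul_left (lt_of_lt_of_eq hBk (mul_comm 6 B))
    omega
  -- the case of a component with `V`
  have hcomp : ∀ Q D : ℕ, B * Q * D = M → B.Coprime Q → B.Coprime D → Q.Coprime D →
      IsPrimePow Q → V Q → ∃ Q R : ℕ, Q * R = M ∧ Q.Coprime R ∧ IsPrimePow Q ∧ R * k < 6 * M := by
    intro Q D hprod hBQ hBD hQD hQ hVQ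
    have hlt : k < 6 * Q := large_of_V M k hM hst V hmul hs B hVB hBk hmax Q D hQ.one_lt hprod
      hBQ hBD hQD hVQ
    have hD0 : 0 < D := by
      rcases Nat.eq_zero_or_pos D with h | h
      · subst h
        simp at hprod
        omega
      · exact h
    refine ⟨Q, B * D, ?_, Nat.Coprime.mul_right hBQ.symm hQD, hQ, ?_⟩
    · rw [← hprod]
      ring
    · have h2 : B * D * k < B * D * (6 * Q) := Nat.mul_lt_mul_of_pos_left hlt (by positivity)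
      have h3 : B * D * (6 * Q) = 6 * M := by
        rw [← hprod]
        ring
      omega
  obtain ⟨Q₁, C₁, hQC₁, hc₁, hp₁⟩ := exists_component C hC0 hC1
  have hBQ₁ : B.Coprime Q₁ := Nat.Coprime.coprime_dvd_right ⟨C₁, hQC₁⟩ hcop
  have hBC₁ : B.Coprime C₁ := Nat.Coprime.coprime_dvd_right ⟨Q₁, by rw [hQC₁, mul_comm]⟩ hcop
  have hM₁ : B * Q₁ * C₁ = M := by rw [← hBC, hQC₁, mul_assoc]
  by_cases hV₁ : V Q₁
  · exact Or.inl (hcomp Q₁ C₁ hM₁ hBQ₁ hBC₁ hc₁ hp₁ hV₁)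
  by_cases hC₁ : C₁ = 1
  · left
    refine ⟨Q₁, B, ?_, hBQ₁.symm, hp₁, hBk⟩
    rw [← hM₁, hC₁, mul_one, mul_comm]
  have hC₁0 : 0 < C₁ := by
    rcases Nat.eq_zero_or_pos C₁ with h | h
    · subst h
      simp at hM₁
      omega
    · exact h
  obtain ⟨Q₂, C₂, hQC₂, hc₂, hp₂⟩ := exists_component C₁ hC₁0 hC₁
  have hBQ₂ : B.Coprime Q₂ := Nat.Coprime.coprime_dvd_right ⟨C₂, hQC₂⟩ hBC₁
  have hBC₂ : B.Coprime C₂ := Nat.Coprime.coprime_dvd_right ⟨Q₂, by rw [hQC₂, mul_comm]⟩ hBC₁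
  have h12 : Q₁.Coprime Q₂ := Nat.Coprime.coprime_dvd_right ⟨C₂, hQC₂⟩ hc₁
  have h1C : Q₁.Coprime C₂ := Nat.Coprime.coprime_dvd_right ⟨Q₂, by rw [hQC₂, mul_comm]⟩ hc₁
  have hM₂ : B * Q₂ * (Q₁ * C₂) = M := by
    rw [← hM₁, hQC₂]
    ring
  by_cases hV₂ : V Q₂
  · exact Or.inl (hcomp Q₂ (Q₁ * C₂) hM₂ hBQ₂ (Nat.Coprime.mul_right hBQ₁ hBC₂)
      (Nat.Coprime.mul_right h12.symm hc₂) hp₂ hV₂)
  by_cases hC₂ : C₂ = 1
  · right
    refine ⟨B, Q₁, Q₂, ?_, hBQ₁, hBQ₂, h12, hp₁, hp₂, hVB, hBk⟩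
    rw [← hM₂, hC₂]
    ring
  have hC₂0 : 0 < C₂ := by
    rcases Nat.eq_zero_or_pos C₂ with h | h
    · subst h
      simp at hM₂
      omega
    · exact h
  obtain ⟨Q₃, C₃, hQC₃, hc₃, hp₃⟩ := exists_component C₂ hC₂0 hC₂
  have d3 : Q₃ ∣ C₂ := ⟨C₃, hQC₃⟩
  have d3' : C₃ ∣ C₂ := ⟨Q₃, by rw [hQC₃, mul_comm]⟩
  have hBQ₃ : B.Coprime Q₃ := Nat.Coprime.coprime_dvd_right d3 hBC₂
  have hBC₃ : B.Coprime C₃ := Nat.Coprime.coprime_dvd_right d3' hBC₂
  have h13 : Q₁.Coprime Q₃ := Nat.Coprime.coprime_dvd_right d3 h1C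
  have h1D : Q₁.Coprime C₃ := Nat.Coprime.coprime_dvd_right d3' h1C
  have h23 : Q₂.Coprime Q₃ := Nat.Coprime.coprime_dvd_right d3 hc₂
  have h2D : Q₂.Coprime C₃ := Nat.Coprime.coprime_dvd_right d3' hc₂
  have hM₃ : B * Q₃ * (Q₁ * Q₂ * C₃) = M := by
    rw [← hM₂, hQC₃]
    ring
  have hC₃0 : 0 < C₃ := by
    rcases Nat.eq_zero_or_pos C₃ with h | h
    · subst h
      simp at hM₃
      omega
    · exact h
  by_cases hV₃ : V Q₃
  · exact Or.inl (hcomp Q₃ (Q₁ * Q₂ * C₃) hM₃ hBQ₃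
      (Nat.Coprime.mul_right (Nat.Coprime.mul_right hBQ₁ hBQ₂) hBC₃)
      (Nat.Coprime.mul_right (Nat.Coprime.mul_right h13.symm h23.symm) hc₃) hp₃ hV₃)
  exfalso
  have hpair : ∀ X Y Z : ℕ, 1 < X → 1 < Y → B * (X * Y) * (Z * C₃) = M → X.Coprime Y →
      X.Coprime Z → Y.Coprime Z → B.Coprime X → B.Coprime Y → B.Coprime Z →
      X.Coprime C₃ → Y.Coprime C₃ → ¬ V X → ¬ V Y → k < 6 * (X * Y) := by
    intro X Y Z hX hY hprod hXY hXZ hYZ hBX hBY hBZ hXC hYC hnX hnY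
    have hprod' : X * Y * (B * (Z * C₃)) = M := by
      rw [← hprod]
      ring
    have hVXY : V (X * Y) := by
      rcases hor X Y (B * (Z * C₃)) hprod' hXY
        (Nat.Coprime.mul_right hBX.symm (Nat.Coprime.mul_right hXZ hXC))
        (Nat.Coprime.mul_right hBY.symm (Nat.Coprime.mul_right hYZ hYC)) with h | h | h
      · exact absurd h hnX
      · exact absurd h hnY
      · exact h
    refine large_of_V M k hM hst V hmul hs B hVB hBk hmax (X * Y) (Z * C₃) ?_ hprod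
      (Nat.Coprime.mul_right hBX hBY) (Nat.Coprime.mul_right hBZ hBC₃)
      (Nat.Coprime.mul_left (Nat.Coprime.mul_right hXZ hXC) (Nat.Coprime.mul_right hYZ hYC)) hVXY
    nlinarith
  have q1 := hp₁.one_lt
  have q2 := hp₂.one_lt
  have q3 := hp₃.one_lt
  have e12 : k < 6 * (Q₁ * Q₂) := hpair Q₁ Q₂ Q₃ q1 q2 (by rw [← hM₃]; ring) h12 h13 h23 hBQ₁ hBQ₂
    hBQ₃ h1D h2D hV₁ hV₂
  have e13 : k < 6 * (Q₁ * Q₃) := hpair Q₁ Q₃ Q₂ q1 q3 (by rw [← hM₃]; ring) h13 h12 h23.symm hBQ₁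
    hBQ₃ hBQ₂ h1D hc₃ hV₁ hV₃
  have e23 : k < 6 * (Q₂ * Q₃) := hpair Q₂ Q₃ Q₁ q2 q3 (by rw [← hM₃]; ring) h23 h12.symm h13.symm
    hBQ₂ hBQ₃ hBQ₁ h2D hc₃ hV₂ hV₃
  have e1 : k * k < 6 * (Q₁ * Q₂) * (6 * (Q₁ * Q₃)) := Nat.mul_lt_mul'' e12 e13
  have e2 : k * k * k < 6 * (Q₁ * Q₂) * (6 * (Q₁ * Q₃)) * (6 * (Q₂ * Q₃)) :=
    Nat.mul_lt_mul'' e1 e23
  have e3 : Q₁ * Q₂ * Q₃ ≤ M := by
    rw [← hM₃]
    have : 1 ≤ B * C₃ := Nat.mul_pos hB0 hC₃0
    calc Q₁ * Q₂ * Q₃ = 1 * (Q₁ * Q₂ * Q₃) := (one_mul _).symm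
      _ ≤ B * C₃ * (Q₁ * Q₂ * Q₃) := Nat.mul_le_mul_right _ this
      _ = B * Q₃ * (Q₁ * Q₂ * C₃) := by ring
  have e4 : (Q₁ * Q₂ * Q₃) ^ 2 ≤ M ^ 2 := Nat.pow_le_pow_left e3 2
  have e5 : 6 * (Q₁ * Q₂) * (6 * (Q₁ * Q₃)) * (6 * (Q₂ * Q₃)) = 216 * (Q₁ * Q₂ * Q₃) ^ 2 := by
    ring
  have e6 : k ^ 3 = k * k * k := by ring
  omega

end Pool.Agent.C497
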