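import Pool.Agent.Lib.MP_c497bd_nt.Defs

/-!
# MP_c497bd: the conductor of a homomorphism
-/

namespace Pool.Agent.C497

/-- a homomorphism which is trivial on the kernel of a surjection factors through it -/
private theorem exists_factor {A B C : Type*} [Group A] [Group B] [Group C] (f : A →* B)
    (hf : Function.Surjective f) (g : A →* C) (h : f.ker ≤ g.ker) :
    ∃ g' : B →* C, ∀ a, g a = g' (f a) := by
  refine ⟨MonoidHom.liftOfRightInverse f (Function.surjInv hf)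
    (Function.rightInverse_surjInv hf) ⟨g, h⟩, fun a => ?_⟩
  exact (MonoidHom.liftOfRightInverse_comp_apply f (Function.surjInv hf)
    (Function.rightInverse_surjInv hf) ⟨g, h⟩ a).symm

/-- elements of the kernel of the reduction modulo `d` are `1` modulo `d` -/
private theorem dvd_of_ker {M d : ℕ} [NeZero M] (hd : d ∣ M) (v : (ZMod M)ˣ)
    (hv : ZMod.unitsMap hd v = 1) : (d : ℤ) ∣ li v - 1 := by
  rw [← ZMod.intCast_zmod_eq_zero_iff_dvd]
  have h1 : ((v : ZMod M).cast : ZMod d) = 1 := by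
    rw [← ZMod.unitsMap_val hd v, hv, Units.val_one]
  unfold li
  rw [Int.cast_sub, Int.cast_natCast, Int.cast_one, ← ZMod.cast_eq_val, h1, sub_self]

/-- Proof. Take `M ∣ m` minimal such that `F` factors through `(ZMod M)ˣ` (`M = m` is possible). If for
a prime `q ∣ M` all `v` with `v = 1` modulo `M / q` satisfied `G v = 1`, then `G` would factor through
the surjective map `ZMod.unitsMap : (ZMod M)ˣ → (ZMod (M / q))ˣ` (`ZMod.unitsMap_surjective`;
its kernel is the set of these `v`), contrary to the minimality. -/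
theorem exists_conductor (m k : ℕ) (hm : 0 < m) (F : (ZMod m)ˣ →* Multiplicative (ZMod k)) :
    ∃ (M : ℕ) (hM : M ∣ m) (G : (ZMod M)ˣ →* Multiplicative (ZMod k)), 0 < M ∧
      (∀ u : (ZMod m)ˣ, F u = G (ZMod.unitsMap hM u)) ∧
      ∀ q : ℕ, q.Prime → q ∣ M → ∃ v : (ZMod M)ˣ, ((M / q : ℕ) : ℤ) ∣ li v - 1 ∧ G v ≠ 1 := by
  classical
  have hex : ∃ M : ℕ, 0 < M ∧ ∃ (hM : M ∣ m) (G : (ZMod M)ˣ →* Multiplicative (ZMod k)),
      ∀ u : (ZMod m)ˣ, F u = G (ZMod.unitsMap hM u) :=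
    ⟨m, hm, dvd_refl m, F, fun u => by rw [ZMod.unitsMap_self]; rfl⟩
  obtain ⟨hMpos, hM, G, hG⟩ := Nat.find_spec hex
  have hmin : ∀ M' : ℕ, M' < Nat.find hex → ¬ (0 < M' ∧ ∃ (hM : M' ∣ m)
      (G : (ZMod M')ˣ →* Multiplicative (ZMod k)),
      ∀ u : (ZMod m)ˣ, F u = G (ZMod.unitsMap hM u)) := fun M' h => Nat.find_min hex h
  generalize Nat.find hex = M at hMpos hM G hG hmin
  refine ⟨M, hM, G, hMpos, hG, fun q hq hqM => ?_⟩
  by_contra hcon
  push Not at hcon
  have : NeZero M := ⟨hMpos.ne'⟩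
  have hd : M / q ∣ M := Nat.div_dvd_of_dvd hqM
  have hker : (ZMod.unitsMap hd).ker ≤ G.ker := by
    intro v hv
    rw [MonoidHom.mem_ker] at hv ⊢
    exact hcon v (dvd_of_ker hd v hv)
  obtain ⟨G', hG'⟩ := exists_factor (ZMod.unitsMap hd) (ZMod.unitsMap_surjective hd) G hker
  refine hmin (M / q) (Nat.div_lt_self hMpos hq.one_lt)
    ⟨Nat.div_pos (Nat.le_of_dvd hMpos hqM) hq.pos, hd.trans hM, G', fun u => ?_⟩
  rw [hG u, hG', ← ZMod.unitsMap_comp hd hM]
  rfl

end Pool.Agent.C497
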