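import Pool.Agent.Lib.MP_c497bd_nt.Defs

/-!
# MP_c497bd: all elements of `H` are `1` or `-1` modulo a large divisor of `M`
-/

namespace Pool.Agent.C497

/-- `16 L < k` -/
private theorem signs_small {M : ℕ} [NeZero M] (k L : ℕ)
    (hst : 8192 * L ^ 3 * M ^ 2 < k ^ 3) : 16 * L < k := by
  by_contra h
  push Not at h
  have hM : 1 ≤ M := Nat.one_le_iff_ne_zero.2 (NeZero.ne M)
  have h1 : k ^ 3 ≤ (16 * L) ^ 3 := Nat.pow_le_pow_left h 3
  have h2 : 1 ≤ M ^ 2 := Nat.one_le_pow _ _ hM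
  have h3 : (16 * L) ^ 3 ≤ 8192 * L ^ 3 * M ^ 2 := by
    calc (16 * L) ^ 3 = 4096 * L ^ 3 * 1 := by ring
      _ ≤ 8192 * L ^ 3 * M ^ 2 := Nat.mul_le_mul (Nat.mul_le_mul_right _ (by norm_num)) h2
  omega

/-- a nonzero multiple of `M` is too large -/
private theorem signs_zero {M : ℕ} [NeZero M] (k L : ℕ)
    (hst : 8192 * L ^ 3 * M ^ 2 < k ^ 3) (z : ℤ) (hz : |z| * k ≤ 16 * L * M)
    (hd : (M : ℤ) ∣ z) : z = 0 := by
  by_contra h0
  have hs := signs_small (M := M) k L hst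
  have hM : 0 < (M : ℤ) := by exact_mod_cast Nat.pos_of_ne_zero (NeZero.ne M)
  have h1 : (M : ℤ) ≤ |z| := Int.le_of_dvd (abs_pos.2 h0) ((dvd_abs _ _).2 hd)
  have h2 : (M : ℤ) * k ≤ |z| * k := mul_le_mul_of_nonneg_right h1 (by positivity)
  have h3 : (M : ℤ) * k ≤ M * (16 * L) := by
    calc (M : ℤ) * k ≤ 16 * L * M := h2.trans hz
      _ = M * (16 * L) := by ring
  have h4 : (k : ℤ) ≤ 16 * L := le_of_mul_le_mul_left h3 hM
  have h5 : k ≤ 16 * L := by exact_mod_cast h4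
  omega

/-- the estimate for the product rule -/
private theorem signs_mul_aux {M : ℕ} [NeZero M] (k L : ℕ) (hk : 0 < k)
    (hst : 8192 * L ^ 3 * M ^ 2 < k ^ 3) (x y z x' y' z' : ℤ)
    (hx : |x| * k ≤ 16 * L * M) (hy : |y| * k ≤ 16 * L * M) (hz : |z| * k ≤ 16 * L * M)
    (hx' : |x'| * k ≤ 16 * L * M) (hy' : |y'| * k ≤ 16 * L * M) (hz' : |z'| * k ≤ 16 * L * M)
    (hd : (M : ℤ) ∣ x * y * z - x' * y' * z') : x * y * z = x' * y' * z' := by
  have key : ∀ x y z : ℤ, |x| * k ≤ 16 * L * M → |y| * k ≤ 16 * L * M → |z| * k ≤ 16 * L * M →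
      |x * y * z| * (k : ℤ) ^ 3 ≤ (16 * L * M) ^ 3 := by
    intro x y z hx hy hz
    have h0 : (0 : ℤ) ≤ 16 * L * M := by positivity
    have hk0 : (0 : ℤ) ≤ k := by positivity
    calc |x * y * z| * (k : ℤ) ^ 3 = (|x| * k) * (|y| * k) * (|z| * k) := by
          rw [abs_mul, abs_mul]; ring
      _ ≤ (16 * L * M) * (16 * L * M) * (16 * L * M) := by
          apply mul_le_mul _ hz (by positivity) (by positivity)
          exact mul_le_mul hx hy (by positivity) h0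
      _ = _ := by ring
  by_contra hne
  have hM : 0 < (M : ℤ) := by exact_mod_cast Nat.pos_of_ne_zero (NeZero.ne M)
  have h1 : (M : ℤ) ≤ |x * y * z - x' * y' * z'| :=
    Int.le_of_dvd (abs_pos.2 (sub_ne_zero.2 hne)) ((dvd_abs _ _).2 hd)
  have h2 : |x * y * z - x' * y' * z'| ≤ |x * y * z| + |x' * y' * z'| := abs_sub _ _
  have hk3 : (0 : ℤ) ≤ (k : ℤ) ^ 3 := by positivity
  have h3 : (M : ℤ) * (k : ℤ) ^ 3 ≤ (16 * L * M) ^ 3 + (16 * L * M) ^ 3 := by
    calc (M : ℤ) * (k : ℤ) ^ 3 ≤ (|x * y * z| + |x' * y' * z'|) * (k : ℤ) ^ 3 :=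
          mul_le_mul_of_nonneg_right (h1.trans h2) hk3
      _ = |x * y * z| * (k : ℤ) ^ 3 + |x' * y' * z'| * (k : ℤ) ^ 3 := by ring
      _ ≤ _ := add_le_add (key x y z hx hy hz) (key x' y' z' hx' hy' hz')
  have h4 : (M : ℤ) * (k : ℤ) ^ 3 ≤ M * (8192 * L ^ 3 * M ^ 2) := by
    calc (M : ℤ) * (k : ℤ) ^ 3 ≤ (16 * L * M) ^ 3 + (16 * L * M) ^ 3 := h3
      _ = _ := by ring
  have h5 : (k : ℤ) ^ 3 ≤ 8192 * L ^ 3 * M ^ 2 := le_of_mul_le_mul_left h4 hM
  have h6 : k ^ 3 ≤ 8192 * L ^ 3 * M ^ 2 := by exact_mod_cast h5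
  omega

/-- the end of the argument -/
private theorem signs_end {M : ℕ} [NeZero M] (k L : ℕ) (a c : ℤ) (ha : a ≠ 0)
    (hak : |a| * k ≤ 16 * L * M) (hd : (M : ℤ) ∣ c * a) : k ≤ 16 * L * Int.gcd c M := by
  have hM : 0 < (M : ℤ) := by exact_mod_cast Nat.pos_of_ne_zero (NeZero.ne M)
  have hM' : 0 < M := Nat.pos_of_ne_zero (NeZero.ne M)
  have hg0 : 0 < Int.gcd c M := Int.gcd_pos_of_ne_zero_right _ hM.ne'
  have h1 : (M : ℤ) ∣ (Int.gcd c M : ℤ) * a := by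
    rw [Int.gcd_eq_gcd_ab, add_mul]
    refine dvd_add ?_ ?_
    · have : c * c.gcdA (M : ℤ) * a = (c * a) * c.gcdA (M : ℤ) := by ring
      rw [this]
      exact hd.mul_right _
    · rw [mul_assoc]
      exact dvd_mul_right _ _
  have hg1 : (0 : ℤ) < (Int.gcd c M : ℤ) := by exact_mod_cast hg0
  have h2 : (M : ℤ) ≤ |(Int.gcd c M : ℤ) * a| :=
    Int.le_of_dvd (abs_pos.2 (mul_ne_zero hg1.ne' ha)) ((dvd_abs _ _).2 h1)
  rw [abs_mul, abs_of_pos hg1] at h2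
  have h3 : (M : ℤ) * k ≤ M * (16 * L * Int.gcd c M) := by
    calc (M : ℤ) * k ≤ ((Int.gcd c M : ℤ) * |a|) * k :=
          mul_le_mul_of_nonneg_right h2 (by positivity)
      _ = (Int.gcd c M : ℤ) * (|a| * k) := by ring
      _ ≤ (Int.gcd c M : ℤ) * (16 * L * M) := mul_le_mul_of_nonneg_left hak hg1.le
      _ = _ := by ring
  have h4 : (k : ℤ) ≤ 16 * L * Int.gcd c M := le_of_mul_le_mul_left h3 hM
  exact_mod_cast h4

/-- Proof. For `u ∈ H` let `(a, b)` be the given pair. `a ≠ 0`: otherwise `M ∣ b`, `b ≠ 0`, so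
`M k ≤ 16 L M`, `k ≤ 16 L`, contrary to `hst` (`8192 > 16 ^ 3`). `b ≠ 0`: otherwise `M ∣ li u * a`,
`M ∣ a`, same contradiction. Let `ρ u = b / a` (a rational number, for a chosen pair). For
`u, v, u v ∈ H` with pairs `(a₁, b₁)`, `(a₂, b₂)`, `(a₃, b₃)`: modulo `M` we have
`a₁ a₂ b₃ = a₁ a₂ (u v) a₃ = b₁ b₂ a₃`, and
`|a₁ a₂ b₃ - b₁ b₂ a₃| * k ^ 3 ≤ 2 (16 L M) ^ 3 = 8192 L ^ 3 M ^ 3 < M k ^ 3`, so
`a₁ a₂ b₃ = b₁ b₂ a₃`, that is `ρ (u v) = ρ u * ρ v`. So `ρ` is a homomorphism from the finite group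
`H` to the nonzero rational numbers, and `ρ u = 1` or `ρ u = -1`, i.e. `b = a` or `b = -a`. Then `M`
divides `(li u - 1) * a` or `(li u + 1) * a`, so `M` divides `Dm u * a` or `Dp u * a`, and
`M k ≤ Dm u * |a| * k ≤ Dm u * 16 L M`. -/
theorem signs {M : ℕ} [NeZero M] (k L : ℕ) (H : Subgroup (ZMod M)ˣ) (hk : 0 < k)
    (hst : 8192 * L ^ 3 * M ^ 2 < k ^ 3)
    (hsv : ∀ u ∈ H, ∃ a b : ℤ, (a ≠ 0 ∨ b ≠ 0) ∧ |a| * k ≤ 16 * L * M ∧ |b| * k ≤ 16 * L * M ∧
      (M : ℤ) ∣ b - li u * a) :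
    ∀ u ∈ H, k ≤ 16 * L * Dm u ∨ k ≤ 16 * L * Dp u := by
  choose! a b h0 ha hb hd using hsv
  have ha0 : ∀ u ∈ H, a u ≠ 0 := by
    intro u hu hau
    have hbu : b u ≠ 0 := by
      rcases h0 u hu with h | h
      · exact absurd hau h
      · exact h
    refine hbu (signs_zero k L hst _ (hb u hu) ?_)
    have := hd u hu
    rw [hau] at this
    simpa using this
  have hb0 : ∀ u ∈ H, b u ≠ 0 := by
    intro u hu hbu
    refine ha0 u hu (signs_zero k L hst _ (ha u hu) ?_)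
    have h1 := hd u hu
    rw [hbu] at h1
    have h2 : (M : ℤ) ∣ li u * a u := by
      have h3 := (dvd_neg (a := (M : ℤ))).2 h1
      simpa using h3
    exact (li_coprime u).symm.dvd_of_dvd_mul_left h2
  have hmul : ∀ u ∈ H, ∀ v ∈ H, a u * a v * b (u * v) = b u * b v * a (u * v) := by
    intro u hu v hv
    have huv : u * v ∈ H := H.mul_mem hu hv
    refine signs_mul_aux k L hk hst _ _ _ _ _ _ (ha u hu) (ha v hv) (hb _ huv) (hb u hu) (hb v hv)
      (ha _ huv) ?_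
    obtain ⟨r, hr⟩ := hd u hu
    obtain ⟨s, hs⟩ := hd v hv
    obtain ⟨t, ht⟩ := hd _ huv
    obtain ⟨w, hw⟩ := li_mul u v
    have e1 : b u = li u * a u + M * r := by linarith
    have e2 : b v = li v * a v + M * s := by linarith
    have e3 : b (u * v) = li (u * v) * a (u * v) + M * t := by linarith
    have e4 : li (u * v) = li u * li v + M * w := by linarith
    refine ⟨a u * a v * (w * a (u * v) + t) - (r * b v + s * (li u * a u)) * a (u * v), ?_⟩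
    rw [e3, e4, e1, e2]
    ring
  have hρ : ∀ u ∈ H, ∀ v ∈ H, ((b (u * v) : ℚ) / a (u * v)) =
      ((b u : ℚ) / a u) * ((b v : ℚ) / a v) := by
    intro u hu v hv
    have huv : u * v ∈ H := H.mul_mem hu hv
    have h1 : (a u : ℚ) ≠ 0 := by exact_mod_cast ha0 u hu
    have h2 : (a v : ℚ) ≠ 0 := by exact_mod_cast ha0 v hv
    have h3 : (a (u * v) : ℚ) ≠ 0 := by exact_mod_cast ha0 _ huv
    have h4 : (a u : ℚ) * a v * b (u * v) = b u * b v * a (u * v) := by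
      exact_mod_cast hmul u hu v hv
    field_simp
    linarith
  have hρ1 : ((b 1 : ℚ) / a 1) = 1 := by
    have h1 := hρ 1 H.one_mem 1 H.one_mem
    rw [mul_one] at h1
    have h2 : ((b 1 : ℚ) / a 1) ≠ 0 := by
      refine div_ne_zero ?_ ?_
      · exact_mod_cast hb0 1 H.one_mem
      · exact_mod_cast ha0 1 H.one_mem
    have h3 : ((b 1 : ℚ) / a 1) * 1 = ((b 1 : ℚ) / a 1) * ((b 1 : ℚ) / a 1) := by
      rw [mul_one]; exact h1
    exact (mul_left_cancel₀ h2 h3).symm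
  have hρp : ∀ u ∈ H, ∀ n : ℕ, ((b (u ^ n) : ℚ) / a (u ^ n)) = ((b u : ℚ) / a u) ^ n := by
    intro u hu n
    induction n with
    | zero => rw [pow_zero, pow_zero]; exact hρ1
    | succ n ih => rw [pow_succ, hρ _ (H.pow_mem hu n) _ hu, ih, pow_succ]
  intro u hu
  have hn : 0 < orderOf u := orderOf_pos u
  have h1 : ((b u : ℚ) / a u) ^ orderOf u = 1 := by
    rw [← hρp u hu, pow_orderOf_eq_one]
    exact hρ1
  have h2 : |((b u : ℚ) / a u)| = 1 := by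
    have h3 : |((b u : ℚ) / a u)| ^ orderOf u = 1 := by
      rw [← abs_pow, h1, abs_one]
    exact (pow_eq_one_iff_of_nonneg (abs_nonneg _) hn.ne').1 h3
  have ha1 : (a u : ℚ) ≠ 0 := by exact_mod_cast ha0 u hu
  rcases (abs_eq (zero_le_one' ℚ)).1 h2 with h | h
  · left
    have hab : b u = a u := by
      have : (b u : ℚ) = a u := by
        rw [div_eq_iff ha1] at h
        linarith
      exact_mod_cast this
    refine signs_end k L (a u) _ (ha0 u hu) (ha u hu) ?_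
    have h4 := hd u hu
    rw [hab] at h4
    have h5 := (dvd_neg (a := (M : ℤ))).2 h4
    have h6 : -(a u - li u * a u) = (li u - 1) * a u := by ring
    rwa [h6] at h5
  · right
    have hab : b u = -a u := by
      have : (b u : ℚ) = -a u := by
        rw [div_eq_iff ha1] at h
        linarith
      exact_mod_cast this
    refine signs_end k L (a u) _ (ha0 u hu) (ha u hu) ?_
    have h4 := hd u hu
    rw [hab] at h4
    have h5 := (dvd_neg (a := (M : ℤ))).2 h4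
    have h6 : -(-a u - li u * a u) = (li u + 1) * a u := by ring
    rwa [h6] at h5

end Pool.Agent.C497
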