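import Pool.Agent.Lib.MP_c497bd_nt.Defs

/-!
# MP_c497bd: points on the lines `y = x + s D` and `x + y = s D`
-/

namespace Pool.Agent.C497

private theorem step_s (M : ℕ) : ∃ s : ℕ, 1 ≤ s ∧ s ≤ 2 ∧ (¬ 2 ∣ M → s = 2) ∧
    ∀ q : ℕ, q.Prime → q ∣ M → ¬ (q : ℤ) ∣ (s : ℤ) := by
  by_cases h : 2 ∣ M
  · refine ⟨1, le_refl _, by norm_num, fun h2 => absurd h h2, fun q hq _ hd => ?_⟩
    have : q ∣ 1 := by exact_mod_cast hd
    exact hq.one_lt.ne' (Nat.dvd_one.1 this)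
  · refine ⟨2, by norm_num, le_refl _, fun _ => rfl, fun q hq hqM hd => ?_⟩
    have h1 : q ∣ 2 := by exact_mod_cast hd
    have h2 : q = 2 := (Nat.prime_dvd_prime_iff_eq hq Nat.prime_two).1 h1
    exact h (h2 ▸ hqM)

private theorem step_inv {g q : ℕ} (hq : q.Prime) (h : ¬ q ∣ g) :
    ∃ c : ℤ, (q : ℤ) ∣ ((g : ℤ) * c - 1) := by
  have h1 : Nat.Coprime g q := ((Nat.Prime.coprime_iff_not_dvd hq).2 h).symm
  have h2 : IsCoprime (g : ℤ) (q : ℤ) := Nat.isCoprime_iff_coprime.2 h1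
  obtain ⟨a, b, hab⟩ := h2
  exact ⟨a, -b, by linear_combination hab⟩

private theorem step_core (M m : ℕ) (hm : m ≠ 0) (g : ℕ) (hg : 0 < g) (hgM : g ∣ M) (x₀ : ℕ)
    (hx₀ : x₀ < g) (hx0 : ∀ q : ℕ, q.Prime → q ∣ g → ¬ (q : ℤ) ∣ (x₀ : ℤ)) (t : ℤ)
    (ht : ¬ 2 ∣ M → (2 : ℤ) ∣ t) :
    ∃ x : ℕ, 1 ≤ x ∧ x ≤ g * (J m.primeFactors.card + 1) ∧ (g : ℤ) ∣ ((x : ℤ) - x₀) ∧
      (∀ q : ℕ, q.Prime → q ∣ m → ¬ (q : ℤ) ∣ (x : ℤ)) ∧
      (∀ q : ℕ, q.Prime → q ∣ m → ¬ q ∣ M → ¬ (q : ℤ) ∣ ((x : ℤ) + t)) := by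
  classical
  have hinv : ∀ q : ℕ, ∃ c : ℤ, q.Prime → ¬ q ∣ g → (q : ℤ) ∣ ((g : ℤ) * c - 1) := by
    intro q
    by_cases hq : q.Prime ∧ ¬ q ∣ g
    · obtain ⟨c, hc⟩ := step_inv hq.1 hq.2
      exact ⟨c, fun _ _ => hc⟩
    · exact ⟨0, fun h1 h2 => absurd ⟨h1, h2⟩ hq⟩
  choose c hc using hinv
  obtain ⟨i, hi, hav⟩ := exists_avoid m.primeFactors (fun q hq => Nat.prime_of_mem_primeFactors hq)
    (fun q => -1 - (x₀ : ℤ) * c q)
    (fun q => if q ∣ M then -1 - (x₀ : ℤ) * c q else -1 - ((x₀ : ℤ) + t) * c q)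
    (by
      intro _
      by_cases h2 : 2 ∣ M
      · simp [h2]
      · simp only [h2, if_false]
        obtain ⟨t', ht'⟩ := ht h2
        exact ⟨t' * c 2, by rw [ht']; ring⟩)
    (J m.primeFactors.card) (le_refl _)
  refine ⟨x₀ + g * (i + 1), ?_, ?_, ⟨(i : ℤ) + 1, by push_cast; ring⟩, ?_, ?_⟩
  · nlinarith
  · nlinarith
  · intro q hq hqm hd
    by_cases hqg : q ∣ g
    · apply hx0 q hq hqg
      have h1 : (q : ℤ) ∣ (g : ℤ) := by exact_mod_cast hqg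
      have h2 : (x₀ : ℤ) = ((x₀ + g * (i + 1) : ℕ) : ℤ) - (g : ℤ) * ((i : ℤ) + 1) := by
        push_cast; ring
      rw [h2]
      exact dvd_sub hd (Dvd.dvd.mul_right h1 _)
    · apply (hav q (Nat.mem_primeFactors.2 ⟨hq, hqm, hm⟩)).1
      have h1 := hc q hq hqg
      obtain ⟨e, he⟩ := hd
      obtain ⟨f, hf⟩ := h1
      push_cast at he
      refine ⟨e * c q - f * ((i : ℤ) + 1), ?_⟩
      linear_combination (c q) * he - ((i : ℤ) + 1) * hf
  · intro q hq hqm hqM hd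
    have hqg : ¬ q ∣ g := fun h => hqM (h.trans hgM)
    have h3 := (hav q (Nat.mem_primeFactors.2 ⟨hq, hqm, hm⟩)).2
    simp only [hqM, if_false] at h3
    apply h3
    obtain ⟨e, he⟩ := hd
    obtain ⟨f, hf⟩ := hc q hq hqg
    push_cast at he
    refine ⟨e * c q - f * ((i : ℤ) + 1), ?_⟩
    linear_combination (c q) * he - ((i : ℤ) + 1) * hf

private theorem step_coprime {x m : ℕ} (h : ∀ q : ℕ, q.Prime → q ∣ m → ¬ (q : ℤ) ∣ (x : ℤ)) :
    x.Coprime m :=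
  Nat.coprime_of_dvd fun q hq hqx hqm => h q hq hqm (by exact_mod_cast hqx)

/-- the data `g`, `u`, `x₀` -/
private theorem step_data (M : ℕ) (hM : 0 < M) (z : ℤ) (s : ℕ) :
    ∃ (g : ℕ) (u : ℤ) (x₀ : ℕ), M = Int.gcd z M * g ∧ 0 < g ∧ z = (Int.gcd z M : ℤ) * u ∧
      x₀ < g ∧ (g : ℤ) ∣ (u * x₀ - s) := by
  have hM' : (M : ℤ) ≠ 0 := by exact_mod_cast hM.ne'
  have hD : 0 < Int.gcd z M := Int.gcd_pos_of_ne_zero_right _ hM'
  obtain ⟨u, g', hcop, hu, hg⟩ := Int.exists_gcd_one hD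
  have hDz : (0 : ℤ) < (Int.gcd z M : ℤ) := by exact_mod_cast hD
  have hg0 : 0 < g' := by
    have h1 : (0 : ℤ) < g' * (Int.gcd z M : ℤ) := by rw [← hg]; exact_mod_cast hM
    by_contra hn
    rw [not_lt] at hn
    exact absurd h1 (not_lt.2 (mul_nonpos_of_nonpos_of_nonneg hn hDz.le))
  obtain ⟨g, rfl⟩ := Int.eq_ofNat_of_zero_le hg0.le
  have hg1 : 0 < g := by exact_mod_cast hg0
  have hcop' : IsCoprime u (g : ℤ) := Int.isCoprime_iff_gcd_eq_one.2 hcop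
  obtain ⟨a, b, hab⟩ := hcop'
  have hmod0 : 0 ≤ (a * s) % (g : ℤ) := Int.emod_nonneg _ hg0.ne'
  have hmod1 : (a * s) % (g : ℤ) < g := Int.emod_lt_of_pos _ hg0
  obtain ⟨x₀, hx₀⟩ := Int.eq_ofNat_of_zero_le hmod0
  refine ⟨g, u, x₀, ?_, hg1, ?_, ?_, ?_⟩
  · have : (M : ℤ) = ((Int.gcd z M * g : ℕ) : ℤ) := by
      rw [Nat.cast_mul, mul_comm]; exact hg
    exact_mod_cast this
  · rw [mul_comm]; exact hu
  · rw [hx₀] at hmod1; exact_mod_cast hmod1
  · rw [← hx₀]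
    have h1 : a * s % (g : ℤ) = a * s - g * (a * s / g) := by
      rw [Int.emod_def]
    rw [h1]
    refine ⟨-(b * s) - u * (a * s / g), ?_⟩
    linear_combination (s : ℤ) * hab

/-- Proof. Let `D = gcd (h - 1, M)`, `M = D g`, `h = 1 + D u` with `u` prime to `g`, and suppose
`3 D ≤ k`. Let `s = 1` if `M` is even and `s = 2` if `M` is odd. Choose `0 ≤ x₀ < g` with
`u x₀ = s` modulo `g`. For `x = x₀ + g (i + 1)`, `y = x + s D` we have `h x = x + D u x = y` modulo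
`M`. By `exists_avoid` choose `i < J` such that for all primes `q ∣ m`: if `q ∤ g`, then `q ∤ x`; if
`q ∤ M`, then `q ∤ x` and `q ∤ x + s D` (two classes; for `q = 2` (`M` odd, `s = 2`) they agree).
If `q ∣ g`, then `q ∤ s` (if `q = 2` then `s = 1`) and `u x = s` modulo `q`, so `q ∤ x`. So `x` is
prime to `m`; `y` is prime to `m`: if `q ∣ M` use `y = h x` modulo `q`. `g k ≤ 16 L M` by `hD`, so
`x ≤ g (J + 1) ≤ g L` and `3 g L k ≤ 48 L ^ 2 M ≤ k ^ 2`: `3 x ≤ k`, `y ≤ k / 3 + 2 D ≤ k`. -/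
theorem plus_bound (M m k L : ℕ) (hM : 0 < M) (hMm : M ∣ m) (hm : 0 < m) (hk : 0 < k)
    (hL : J m.primeFactors.card + 1 ≤ L) (hML : 256 * L ^ 2 * M ≤ k ^ 2) (h : ℤ)
    (hh : IsCoprime h (M : ℤ)) (hno : NoPt M m k h)
    (hD : k ≤ 16 * L * Int.gcd (h - 1) M) : k < 3 * Int.gcd (h - 1) M := by
  by_contra hcon
  rw [not_lt] at hcon
  obtain ⟨s, hs1, hs2, hs3, hs4⟩ := step_s M
  obtain ⟨g, u, x₀, hMg, hg, hu, hx₀, hgu⟩ := step_data M hM (h - 1) s
  set D := Int.gcd (h - 1) M with hDdef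
  have hgM : g ∣ M := ⟨D, by rw [hMg, mul_comm]⟩
  obtain ⟨x, hx1, hx2, hx3, hx4, hx5⟩ := step_core M m hm.ne' g hg hgM x₀ hx₀
    (by
      intro q hq hqg hd
      have h1 : (q : ℤ) ∣ (g : ℤ) := by exact_mod_cast hqg
      have h2 : (q : ℤ) ∣ (s : ℤ) := by
        have h3 := dvd_sub (Dvd.dvd.mul_left hd u) (h1.trans hgu)
        have h4 : u * (x₀ : ℤ) - (u * x₀ - s) = s := by ring
        rwa [h4] at h3
      exact hs4 q hq (hqg.trans hgM) h2) ((s : ℤ) * D)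
    (by
      intro h2
      rw [hs3 h2]
      exact ⟨(D : ℤ), by push_cast; ring⟩)
  have hgL : g * (J m.primeFactors.card + 1) ≤ g * L := Nat.mul_le_mul_left g hL
  have hxL : x ≤ g * L := hx2.trans hgL
  have hgk : g * k ≤ 16 * L * M := by
    calc g * k ≤ g * (16 * L * D) := Nat.mul_le_mul_left g hD
      _ = 16 * L * (D * g) := by ring
      _ = 16 * L * M := by rw [← hMg]
  have h3x : 3 * x ≤ k := by
    by_contra hlt
    rw [not_le] at hlt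
    have h1 : k * k < 3 * x * k := Nat.mul_lt_mul_of_pos_right hlt hk
    have h2 : 3 * x * k ≤ 3 * (g * L) * k := Nat.mul_le_mul_right k (Nat.mul_le_mul_left 3 hxL)
    have h3 : 3 * (g * L) * k = 3 * L * (g * k) := by ring
    have h4 : 3 * L * (g * k) ≤ 3 * L * (16 * L * M) := Nat.mul_le_mul_left _ hgk
    have h5 : 3 * L * (16 * L * M) = 48 * L ^ 2 * M := by ring
    have h6 : 48 * L ^ 2 * M ≤ 256 * L ^ 2 * M := by
      apply Nat.mul_le_mul_right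
      apply Nat.mul_le_mul_right
      norm_num
    have h7 : k ^ 2 = k * k := by ring
    omega
  have hdvd : (M : ℤ) ∣ (((x + s * D : ℕ) : ℤ) - h * x) := by
    obtain ⟨e, he⟩ := hx3
    obtain ⟨f, hf⟩ := hgu
    have hMz : (M : ℤ) = (D : ℤ) * g := by
      have : ((M : ℕ) : ℤ) = ((D * g : ℕ) : ℤ) := by rw [← hMg]
      rw [this, Nat.cast_mul]
    refine ⟨-f - u * e, ?_⟩
    rw [hMz]
    push_cast
    have hh' : h = 1 + D * u := by linear_combination hu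
    rw [hh']
    linear_combination (-(D : ℤ) * u) * he - (D : ℤ) * hf
  refine hno x (x + s * D) hx1 (by omega) (by omega) ?_ (step_coprime hx4) (step_coprime ?_) hdvd
  · have h1 : s * D ≤ 2 * D := Nat.mul_le_mul_right D hs2
    omega
  · intro q hq hqm hd
    by_cases hqM : q ∣ M
    · have h1 : (q : ℤ) ∣ (M : ℤ) := by exact_mod_cast hqM
      have h2 : (q : ℤ) ∣ h * x := by
        have h3 := dvd_sub hd (h1.trans hdvd)
        have h4 : (((x + s * D : ℕ) : ℤ)) - (((x + s * D : ℕ) : ℤ) - h * x) = h * x := by ring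
        rwa [h4] at h3
      have hqp : Prime (q : ℤ) := Nat.prime_iff_prime_int.1 hq
      rcases hqp.dvd_or_dvd h2 with h3 | h3
      · obtain ⟨a, b, hab⟩ := hh
        have h5 : (q : ℤ) ∣ 1 := by
          rw [← hab]
          exact dvd_add (Dvd.dvd.mul_left h3 a) (Dvd.dvd.mul_left h1 b)
        exact hqp.not_isUnit (isUnit_of_dvd_one h5)
      · exact hx4 q hq hqm h3
    · apply hx5 q hq hqm hqM
      push_cast at hd
      exact hd

/-- Proof. As `plus_bound`, with `D = gcd (h + 1, M)`, `h = -1 + D u`, `x = x₀ + g (i + 1)`,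
`y = s D - x`; `x ≤ g L < D` because `g k ≤ 16 L M`, `k ≤ 16 L D` and `256 L ^ 3 M < k ^ 2`. -/
theorem minus_bound (M m k L : ℕ) (hM : 0 < M) (hMm : M ∣ m) (hm : 0 < m) (hk : 0 < k)
    (hL : J m.primeFactors.card + 1 ≤ L) (hML : 256 * L ^ 3 * M < k ^ 2) (h : ℤ)
    (hh : IsCoprime h (M : ℤ)) (hno : NoPt M m k h)
    (hD : k ≤ 16 * L * Int.gcd (h + 1) M) : k < 3 * Int.gcd (h + 1) M := by
  by_contra hcon
  rw [not_lt] at hcon
  obtain ⟨s, hs1, hs2, hs3, hs4⟩ := step_s M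
  obtain ⟨g, u, x₀, hMg, hg, hu, hx₀, hgu⟩ := step_data M hM (h + 1) s
  set D := Int.gcd (h + 1) M with hDdef
  have hgM : g ∣ M := ⟨D, by rw [hMg, mul_comm]⟩
  obtain ⟨x, hx1, hx2, hx3, hx4, hx5⟩ := step_core M m hm.ne' g hg hgM x₀ hx₀
    (by
      intro q hq hqg hd
      have h1 : (q : ℤ) ∣ (g : ℤ) := by exact_mod_cast hqg
      have h2 : (q : ℤ) ∣ (s : ℤ) := by
        have h3 := dvd_sub (Dvd.dvd.mul_left hd u) (h1.trans hgu)
        have h4 : u * (x₀ : ℤ) - (u * x₀ - s) = s := by ring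
        rwa [h4] at h3
      exact hs4 q hq (hqg.trans hgM) h2) (-((s : ℤ) * D))
    (by
      intro h2
      rw [hs3 h2]
      exact ⟨-(D : ℤ), by push_cast; ring⟩)
  have hgL : g * (J m.primeFactors.card + 1) ≤ g * L := Nat.mul_le_mul_left g hL
  have hxL : x ≤ g * L := hx2.trans hgL
  have hlt : g * L < D := by
    by_contra hle
    rw [not_lt] at hle
    have h1 : k ^ 2 ≤ (16 * L * D) ^ 2 := Nat.pow_le_pow_left hD 2
    have h2 : (16 * L * D) ^ 2 = 256 * L ^ 2 * D * D := by ring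
    have h3 : 256 * L ^ 2 * D * D ≤ 256 * L ^ 2 * D * (g * L) := Nat.mul_le_mul_left _ hle
    have h4 : 256 * L ^ 2 * D * (g * L) = 256 * L ^ 3 * (D * g) := by ring
    rw [← hMg] at h4
    omega
  have hsD : D ≤ s * D := Nat.le_mul_of_pos_left D hs1
  have hsD2 : s * D ≤ 2 * D := Nat.mul_le_mul_right D hs2
  have hxs : x ≤ s * D := by omega
  have hcast : (((s * D - x : ℕ)) : ℤ) = (s : ℤ) * D - x := by
    rw [Nat.cast_sub hxs, Nat.cast_mul]
  have hdvd : (M : ℤ) ∣ (((s * D - x : ℕ) : ℤ) - h * x) := by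
    obtain ⟨e, he⟩ := hx3
    obtain ⟨f, hf⟩ := hgu
    have hMz : (M : ℤ) = (D : ℤ) * g := by
      have : ((M : ℕ) : ℤ) = ((D * g : ℕ) : ℤ) := by rw [← hMg]
      rw [this, Nat.cast_mul]
    refine ⟨-f - u * e, ?_⟩
    rw [hMz, hcast]
    have hh' : h = -1 + D * u := by linear_combination hu
    rw [hh']
    linear_combination (-(D : ℤ) * u) * he - (D : ℤ) * hf
  refine hno x (s * D - x) hx1 (by omega) (by omega) (by omega) (step_coprime hx4)
    (step_coprime ?_) hdvd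
  intro q hq hqm hd
  by_cases hqM : q ∣ M
  · have h1 : (q : ℤ) ∣ (M : ℤ) := by exact_mod_cast hqM
    have h2 : (q : ℤ) ∣ h * x := by
      have h3 := dvd_sub hd (h1.trans hdvd)
      have h4 : (((s * D - x : ℕ) : ℤ)) - (((s * D - x : ℕ) : ℤ) - h * x) = h * x := by ring
      rwa [h4] at h3
    have hqp : Prime (q : ℤ) := Nat.prime_iff_prime_int.1 hq
    rcases hqp.dvd_or_dvd h2 with h3 | h3
    · obtain ⟨a, b, hab⟩ := hh
      have h5 : (q : ℤ) ∣ 1 := by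
        rw [← hab]
        exact dvd_add (Dvd.dvd.mul_left h3 a) (Dvd.dvd.mul_left h1 b)
      exact hqp.not_isUnit (isUnit_of_dvd_one h5)
    · exact hx4 q hq hqm h3
  · apply hx5 q hq hqm hqM
    rw [hcast] at hd
    have h6 : (x : ℤ) + -((s : ℤ) * D) = -((s : ℤ) * D - x) := by ring
    rw [h6, dvd_neg]
    exact hd

/-- Proof. As `plus_bound` with `h = 1`, `g = 1`: `x = i + 1 ≤ J`, `y = x + s M`. -/
theorem one_bound (M m k L : ℕ) (hM : 0 < M) (hMm : M ∣ m) (hm : 0 < m)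
    (hL : J m.primeFactors.card + 1 ≤ L) (hLk : 3 * L ≤ k)
    (hinj : ∀ x y : ℕ, 1 ≤ x → x ≤ k → 1 ≤ y → y ≤ k → x.Coprime m → y.Coprime m →
      (M : ℤ) ∣ ((y : ℤ) - x) → x = y) : k < 3 * M := by
  by_contra hcon
  rw [not_lt] at hcon
  obtain ⟨s, hs1, hs2, hs3, hs4⟩ := step_s M
  obtain ⟨x, hx1, hx2, hx3, hx4, hx5⟩ := step_core M m hm.ne' 1 one_pos (one_dvd M) 0 one_pos
    (by
      intro q hq hqg
      exact absurd (Nat.dvd_one.1 hqg) hq.one_lt.ne') ((s : ℤ) * M)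
    (by
      intro h2
      rw [hs3 h2]
      exact ⟨(M : ℤ), by push_cast; ring⟩)
  have hsM : M ≤ s * M := Nat.le_mul_of_pos_left M hs1
  have hsM2 : s * M ≤ 2 * M := Nat.mul_le_mul_right M hs2
  have hxL : x ≤ L := by omega
  have hdvd : (M : ℤ) ∣ (((x + s * M : ℕ) : ℤ) - x) := ⟨(s : ℤ), by push_cast; ring⟩
  have h1 := hinj x (x + s * M) hx1 (by omega) (by omega) (by omega) (step_coprime hx4)
    (step_coprime ?_) hdvd
  · omega
  · intro q hq hqm hd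
    by_cases hqM : q ∣ M
    · have h1 : (q : ℤ) ∣ (M : ℤ) := by exact_mod_cast hqM
      have h3 := dvd_sub hd (h1.trans hdvd)
      have h4 : (((x + s * M : ℕ) : ℤ)) - (((x + s * M : ℕ) : ℤ) - x) = x := by ring
      rw [h4] at h3
      exact hx4 q hq hqm h3
    · apply hx5 q hq hqm hqM
      push_cast at hd
      exact hd

end Pool.Agent.C497
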