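import Pool.Agent.Lib.MP_c497bd_nt.Defs

/-!
# MP_c497bd: the order of the image divides `K`
-/

namespace Pool.Agent.C497

variable {M K : ℕ}

/-- Proof. Let `U` be the subgroup of the `u` with `u = 1` modulo `R`, i.e. the kernel of
`ZMod.unitsMap : (ZMod M)ˣ → (ZMod R)ˣ`, which is surjective; so `U` has
`φ M / φ R = φ Q` elements. By `h2` the kernel of `G` on `U` has `c ≤ 2` elements, so the image `G U`,
a subgroup of `Multiplicative (ZMod K)`, has `φ Q / c` elements; this number divides `K`, and so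
`φ Q ∣ c K ∣ 2 K`. -/
theorem totient_dvd [NeZero M] (hk : 0 < K) (G : (ZMod M)ˣ →* Multiplicative (ZMod K)) (Q R : ℕ)
    (hQR : Q * R = M) (hcop : Q.Coprime R)
    (h2 : ∀ u v : (ZMod M)ˣ, (R : ℤ) ∣ li u - 1 → (R : ℤ) ∣ li v - 1 → G u = 1 → G v = 1 →
      u ≠ 1 → v ≠ 1 → u = v) : Nat.totient Q ∣ 2 * K := by
  have hM : M ≠ 0 := NeZero.ne M
  have hR0 : R ≠ 0 := by rintro rfl; exact hM (by rw [← hQR, mul_zero])
  have : NeZero R := ⟨hR0⟩
  have : NeZero K := ⟨hk.ne'⟩
  have hRM : R ∣ M := ⟨Q, by rw [← hQR, mul_comm]⟩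
  set f := ZMod.unitsMap hRM with hf
  have hsurj : Function.Surjective f := ZMod.unitsMap_surjective hRM
  have hmem : ∀ u : (ZMod M)ˣ, u ∈ f.ker → (R : ℤ) ∣ li u - 1 := by
    intro u hu
    rw [MonoidHom.mem_ker] at hu
    have h1 : ((f u : (ZMod R)ˣ) : ZMod R) = 1 := by rw [hu, Units.val_one]
    rw [hf, ZMod.unitsMap_val, ZMod.cast_eq_val] at h1
    rw [← ZMod.intCast_zmod_eq_zero_iff_dvd]
    unfold li
    push_cast
    rw [h1, sub_self]
  -- the order of the kernel
  have hcard : Nat.card f.ker = Nat.totient Q := by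
    have h1 := Subgroup.card_mul_index f.ker
    rw [Subgroup.index_ker, MonoidHom.range_eq_top.2 hsurj] at h1
    rw [Subgroup.card_top, Nat.card_eq_fintype_card (α := (ZMod R)ˣ),
      Nat.card_eq_fintype_card (α := (ZMod M)ˣ), ZMod.card_units_eq_totient,
      ZMod.card_units_eq_totient] at h1
    have h2' : Nat.totient M = Nat.totient Q * Nat.totient R := by
      rw [← Nat.totient_mul hcop, hQR]
    rw [h2'] at h1
    exact Nat.eq_of_mul_eq_mul_right (Nat.totient_pos.2 (Nat.pos_of_ne_zero hR0)) h1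
  set g : f.ker →* Multiplicative (ZMod K) := G.comp f.ker.subtype with hg
  have h3 := Subgroup.card_mul_index g.ker
  rw [Subgroup.index_ker, hcard] at h3
  have h4 : Nat.card g.range ∣ K := by
    have h5 := Subgroup.card_subgroup_dvd_card g.range
    have h6 : Nat.card (Multiplicative (ZMod K)) = K := by
      rw [Nat.card_congr Multiplicative.toAdd, Nat.card_eq_fintype_card, ZMod.card]
    rwa [h6] at h5
  have h5 : Nat.card g.ker ∣ 2 := by
    have h6 : Nat.card g.ker ≤ 2 := by
      classical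
      by_contra hlt
      push Not at hlt
      rw [Nat.card_eq_fintype_card] at hlt
      obtain ⟨a, b, c, hab, hac, hbc⟩ := Fintype.two_lt_card_iff.1 hlt
      have key : ∀ x y : g.ker, x ≠ 1 → y ≠ 1 → x = y := by
        intro x y hx hy
        have hx1 : G ((x : f.ker) : (ZMod M)ˣ) = 1 := x.2
        have hy1 : G ((y : f.ker) : (ZMod M)ˣ) = 1 := y.2
        have hxn : ((x : f.ker) : (ZMod M)ˣ) ≠ 1 := by
          intro h
          exact hx (Subtype.ext (Subtype.ext h))
        have hyn : ((y : f.ker) : (ZMod M)ˣ) ≠ 1 := by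
          intro h
          exact hy (Subtype.ext (Subtype.ext h))
        exact Subtype.ext (Subtype.ext (h2 _ _ (hmem _ (x : f.ker).2) (hmem _ (y : f.ker).2)
          hx1 hy1 hxn hyn))
      by_cases ha : a = 1
      · exact hbc (key b c (by rw [← ha]; exact hab.symm) (by rw [← ha]; exact hac.symm))
      · by_cases hb : b = 1
        · exact hac (key a c ha (by rw [← hb]; exact hbc.symm))
        · exact hab (key a b ha hb)
    have h7 : 0 < Nat.card g.ker := Nat.card_pos
    interval_cases Nat.card g.ker <;> simp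
  rw [← h3]
  exact Nat.mul_dvd_mul h5 h4

end Pool.Agent.C497
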