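import Pool.Agent.Lib.MP_c497bd_nt.CaseTwo
import Pool.Agent.Lib.MP_c497bd_nt.Comb
import Pool.Agent.Lib.MP_c497bd_nt.Grp

/-!
# MP_c497bd: the structure theorem
-/

namespace Pool.Agent.C497

variable {M k K : ℕ}

/-- `q ≤ 2 φ(q)` for prime powers. -/
theorem le_two_totient {Q : ℕ} (hQ : IsPrimePow Q) : Q ≤ 2 * Nat.totient Q := by
  rw [isPrimePow_nat_iff] at hQ
  obtain ⟨p, e, hp, he, rfl⟩ := hQ
  rw [Nat.totient_prime_pow hp he]
  have h2 := hp.two_le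
  obtain ⟨f, rfl⟩ : ∃ f, e = f + 1 := ⟨e - 1, by omega⟩
  simp only [Nat.add_sub_cancel]
  obtain ⟨r, rfl⟩ : ∃ r, p = r + 2 := ⟨p - 2, by omega⟩
  have h3 : r + 2 - 1 = r + 1 := by omega
  rw [h3, pow_succ]
  have : r + 2 ≤ 2 * (r + 1) := by omega
  calc (r + 2) ^ f * (r + 2) ≤ (r + 2) ^ f * (2 * (r + 1)) := Nat.mul_le_mul_left _ this
    _ = 2 * ((r + 2) ^ f * (r + 1)) := by ring

theorem card_primeFactors_primePow {Q : ℕ} (hQ : IsPrimePow Q) : Q.primeFactors.card = 1 := by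
  rw [isPrimePow_nat_iff] at hQ
  obtain ⟨p, e, hp, he, rfl⟩ := hQ
  rw [Nat.primeFactors_prime_pow he.ne' hp]
  simp

/-- one component -/
theorem case_one [NeZero M] (hK : 0 < K) (G : (ZMod M)ˣ →* Multiplicative (ZMod K))
    (hF : ∀ u : (ZMod M)ˣ, G u = 1 → u ≠ 1 → k < 3 * Dm u ∨ k < 3 * Dp u)
    (hP : ∀ q : ℕ, q.Prime → q ∣ M → ∃ v : (ZMod M)ˣ, ((M / q : ℕ) : ℤ) ∣ li v - 1 ∧ G v ≠ 1)
    (hst : 1000 * M ^ 2 < k ^ 3) (Q R : ℕ) (hQR : Q * R = M)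
    (hcop : Q.Coprime R) (hQ : IsPrimePow Q) (hbig : 12 * M ≤ Q * k) (hkQ : k < 12 * Q) :
    ∃ i n : ℕ, 1 ≤ i ∧ i * k ≤ 48 * K ∧ 1 ≤ n ∧ n.primeFactors.card ≤ 2 ∧
      2 * K = i * Nat.totient n := by
  have hk : 0 < k := by
    rcases Nat.eq_zero_or_pos k with rfl | h
    · simp at hst
    · exact h
  have h54 : 54 * M ^ 2 < k ^ 3 := lt_of_le_of_lt (Nat.mul_le_mul_right _ (by norm_num)) hst
  have hpf := plusFree_primePow G hP Q R hQR hcop hQ hbig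
  have h2 := two_of_plusFree G h54 hF R ⟨Q, by rw [← hQR, mul_comm]⟩ hpf
  obtain ⟨i, hi⟩ := totient_dvd hK G Q R hQR hcop h2
  have hQ2 := le_two_totient hQ
  have hQ1 : 1 ≤ Q := hQ.pos
  refine ⟨i, Q, ?_, ?_, hQ1, ?_, by rw [hi, mul_comm]⟩
  · rcases Nat.eq_zero_or_pos i with rfl | h
    · omega
    · exact h
  · calc i * k ≤ i * (24 * Nat.totient Q) := Nat.mul_le_mul_left _ (by omega)
      _ = 24 * (Nat.totient Q * i) := by ring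
      _ = 48 * K := by rw [← hi]; ring
  · rw [card_primeFactors_primePow hQ]; norm_num

/-- two components, `Q₁ ≥ Q₂` -/
theorem case_two [NeZero M] (hK : 0 < K) (G : (ZMod M)ˣ →* Multiplicative (ZMod K)) (h1 : k < 3 * M)
    (hF : ∀ u : (ZMod M)ˣ, G u = 1 → u ≠ 1 → k < 3 * Dm u ∨ k < 3 * Dp u)
    (hP : ∀ q : ℕ, q.Prime → q ∣ M → ∃ v : (ZMod M)ˣ, ((M / q : ℕ) : ℤ) ∣ li v - 1 ∧ G v ≠ 1)
    (hst : 1000 * M ^ 2 < k ^ 3) (hk2 : 1000 * M ≤ k ^ 2) (B Q₁ Q₂ : ℕ)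
    (hM : B * (Q₁ * Q₂) = M)
    (hB1 : B.Coprime Q₁) (hB2 : B.Coprime Q₂) (h12 : Q₁.Coprime Q₂) (hQ1 : IsPrimePow Q₁)
    (hQ2 : IsPrimePow Q₂) (hV : NegIn G B) (hB : B * k < 6 * M) (hle : Q₂ ≤ Q₁) :
    ∃ i n : ℕ, 1 ≤ i ∧ i * k ≤ 48 * K ∧ 1 ≤ n ∧ n.primeFactors.card ≤ 2 ∧
      2 * K = i * Nat.totient n := by
  have hk : 0 < k := by
    rcases Nat.eq_zero_or_pos k with rfl | h
    · simp at hst
    · exact h
  have hM0 : 0 < M := Nat.pos_of_ne_zero (NeZero.ne M)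
  have hB0 : 0 < B := by
    rcases Nat.eq_zero_or_pos B with rfl | h
    · simp at hM; omega
    · exact h
  have h54 : 54 * M ^ 2 < k ^ 3 := lt_of_le_of_lt (Nat.mul_le_mul_right _ (by norm_num)) hst
  have hkQ := two_bound G h1 hF hk2 B (Q₁ * Q₂) hM (Nat.Coprime.mul_right hB1 hB2) hV hB
  -- `Q₁ k ≥ 12 M`
  have hbig : 12 * M ≤ Q₁ * k := by
    have h3 : k < 6 * Q₁ ^ 2 := by
      have : Q₁ * Q₂ ≤ Q₁ * Q₁ := Nat.mul_le_mul_left _ hle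
      nlinarith
    have h4 : (12 * M) ^ 2 ≤ (Q₁ * k) ^ 2 := by
      have h5 : k * k ^ 2 ≤ 6 * Q₁ ^ 2 * k ^ 2 := Nat.mul_le_mul_right _ h3.le
      have h6 : (Q₁ * k) ^ 2 = Q₁ ^ 2 * k ^ 2 := by ring
      have h7 : k ^ 3 = k * k ^ 2 := by ring
      rw [h6]
      nlinarith
    exact (Nat.pow_le_pow_iff_left (by norm_num)).1 h4
  by_cases hex : ∃ u : (ZMod M)ˣ, (B : ℤ) ∣ li u - 1 ∧ G u = 1 ∧ u ≠ 1 ∧ k < 3 * Dm u
  · obtain ⟨u, hu, hGu, hne, hD⟩ := hex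
    have h12' := two_plus G hF hP hst B Q₁ Q₂ hM hB1 hB2 h12 hQ1 hQ2 hV hB hbig u hu hGu hne hD
    exact case_one hK G hF hP hst Q₁ (B * Q₂) (by rw [← hM]; ring)
      (Nat.Coprime.mul_right hB1.symm h12) hQ1 hbig h12'
  · push Not at hex
    have hpf : ∀ u : (ZMod M)ˣ, (B : ℤ) ∣ li u - 1 → G u = 1 → u ≠ 1 → ¬ k < 3 * Dm u := by
      intro u hu hGu hne
      exact not_lt.2 (hex u hu hGu hne)
    have h2 := two_of_plusFree G h54 hF B ⟨Q₁ * Q₂, hM.symm⟩ hpf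
    obtain ⟨i, hi⟩ := totient_dvd hK G (Q₁ * Q₂) B (by rw [← hM]; ring)
      (Nat.Coprime.mul_right hB1 hB2).symm h2
    have hq1 := le_two_totient hQ1
    have hq2 := le_two_totient hQ2
    have hmul : Q₁ * Q₂ ≤ 4 * Nat.totient (Q₁ * Q₂) := by
      rw [Nat.totient_mul h12]
      calc Q₁ * Q₂ ≤ (2 * Nat.totient Q₁) * (2 * Nat.totient Q₂) := Nat.mul_le_mul hq1 hq2
        _ = _ := by ring
    refine ⟨i, Q₁ * Q₂, ?_, ?_, Nat.mul_pos hQ1.pos hQ2.pos, ?_, by rw [hi, mul_comm]⟩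
    · rcases Nat.eq_zero_or_pos i with rfl | h
      · omega
      · exact h
    · calc i * k ≤ i * (24 * Nat.totient (Q₁ * Q₂)) := Nat.mul_le_mul_left _ (by omega)
        _ = 24 * (Nat.totient (Q₁ * Q₂) * i) := by ring
        _ = 48 * K := by rw [← hi]; ring
    · rw [Nat.primeFactors_mul hQ1.pos.ne' hQ2.pos.ne']
      refine le_trans (Finset.card_union_le _ _) ?_
      rw [card_primeFactors_primePow hQ1, card_primeFactors_primePow hQ2]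

theorem structure_thm [NeZero M] (hK : 0 < K) (G : (ZMod M)ˣ →* Multiplicative (ZMod K)) (h1 : k < 3 * M)
    (hF : ∀ u : (ZMod M)ˣ, G u = 1 → u ≠ 1 → k < 3 * Dm u ∨ k < 3 * Dp u)
    (hP : ∀ q : ℕ, q.Prime → q ∣ M → ∃ v : (ZMod M)ˣ, ((M / q : ℕ) : ℤ) ∣ li v - 1 ∧ G v ≠ 1)
    (hst : 1000 * M ^ 2 < k ^ 3) (hk2 : 1000 * M ≤ k ^ 2) :
    ∃ i n : ℕ, 1 ≤ i ∧ i * k ≤ 48 * K ∧ 1 ≤ n ∧ n.primeFactors.card ≤ 2 ∧
      2 * K = i * Nat.totient n := by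
  have hk : 0 < k := by
    rcases Nat.eq_zero_or_pos k with rfl | h
    · simp at hst
    · exact h
  have hM0 : 0 < M := Nat.pos_of_ne_zero (NeZero.ne M)
  rcases comb M k hM0 (lt_of_le_of_lt (Nat.mul_le_mul_right _ (by norm_num)) hst) (NegIn G)
    (negIn_one G) (fun A B C h a b c hA hB => negIn_mul G A B C h a b c hA hB)
    (fun A B C h a b c => negIn_or hK G A B C h a b c)
    (fun A B h hc hA => negIn_small G h1 hF A B h hc hA) with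
    ⟨Q, R, hQR, hcop, hQ, hR⟩ | ⟨B, Q₁, Q₂, hM, hB1, hB2, h12, hQ1, hQ2, hV, hB⟩
  · have hR0 : 0 < R := by
      rcases Nat.eq_zero_or_pos R with rfl | h
      · simp at hQR; omega
      · exact h
    have hkQ : k < 6 * Q := by
      have : R * k < R * (6 * Q) := by
        calc R * k < 6 * M := hR
          _ = R * (6 * Q) := by rw [← hQR]; ring
      exact Nat.lt_of_mul_lt_mul_left this
    have hbig : 12 * M ≤ Q * k := by
      have h3 : k * k ≤ 6 * Q * k := Nat.mul_le_mul_right _ hkQ.le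
      nlinarith
    exact case_one hK G hF hP hst Q R hQR hcop hQ hbig (by omega)
  · rcases le_total Q₂ Q₁ with hle | hle
    · exact case_two hK G h1 hF hP hst hk2 B Q₁ Q₂ hM hB1 hB2 h12 hQ1 hQ2 hV hB hle
    · exact case_two hK G h1 hF hP hst hk2 B Q₂ Q₁ (by rw [← hM]; ring) hB2 hB1 h12.symm hQ2 hQ1
        hV hB hle

end Pool.Agent.C497
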