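import Pool.Agent.Lib.MP_c497bd_nt.Short
import Pool.Agent.Lib.MP_c497bd_nt.Signs
import Pool.Agent.Lib.MP_c497bd_nt.Steps
import Pool.Agent.Lib.MP_c497bd_nt.Conductor
import Pool.Agent.Lib.MP_c497bd_nt.Struct

/-!
# MP_c497bd: lengths with a homomorphism of modulus `m ≤ k ^ (3 / 2 - ε)`
-/

namespace Pool.Agent.C497

/-- `F` is injective on the integers `x ≤ k` prime to `m` (`m` is a multiple of `M₀`). -/
def InjOff (M₀ m k K : ℕ) (F : (ZMod M₀)ˣ →* Multiplicative (ZMod K)) : Prop :=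
  ∀ (x y : ℕ) (hx : x.Coprime M₀) (hy : y.Coprime M₀), x.Coprime m → y.Coprime m →
    1 ≤ x → x ≤ k → 1 ≤ y → y ≤ k →
    F (ZMod.unitOfCoprime x hx) = F (ZMod.unitOfCoprime y hy) → x = y

/-- The finite form. -/
theorem core (M₀ m k K L : ℕ) (hm : 0 < m) (hM₀ : M₀ ∣ m) (hk : 0 < k) (hK : 0 < K)
    (hL : J m.primeFactors.card + 1 ≤ L)
    (h2 : 8192 * L ^ 3 * M₀ ^ 2 < k ^ 3) (h3 : 1000 * L ^ 3 * M₀ < k ^ 2)
    (F : (ZMod M₀)ˣ →* Multiplicative (ZMod K)) (hF : InjOff M₀ m k K F) :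
    ∃ i n : ℕ, 1 ≤ i ∧ i * k ≤ 48 * K ∧ 1 ≤ n ∧ n.primeFactors.card ≤ 2 ∧
      2 * K = i * Nat.totient n := by
  have hM₀pos : 0 < M₀ := Nat.pos_of_dvd_of_pos hM₀ hm
  obtain ⟨M, hMM₀, G, hM0, hFG, hP⟩ := exists_conductor M₀ K hM₀pos F
  have hMm : M ∣ m := hMM₀.trans hM₀
  have : NeZero M := ⟨hM0.ne'⟩
  have hMle : M ≤ M₀ := Nat.le_of_dvd hM₀pos hMM₀
  have hL1 : 1 ≤ L := by have := J_pos m.primeFactors.card; omega
  have hL3 : 1 ≤ L ^ 3 := Nat.one_le_pow _ _ hL1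
  have hL23 : L ^ 2 ≤ L ^ 3 := Nat.pow_le_pow_right hL1 (by norm_num)
  have h2M : 8192 * L ^ 3 * M ^ 2 < k ^ 3 :=
    lt_of_le_of_lt (Nat.mul_le_mul_left _ (Nat.pow_le_pow_left hMle 2)) h2
  have h3M : 1000 * L ^ 3 * M < k ^ 2 :=
    lt_of_le_of_lt (Nat.mul_le_mul_left _ hMle) h3
  have hc1 : 256 * L ^ 2 * M ≤ k ^ 2 := by
    calc 256 * L ^ 2 * M ≤ 1000 * L ^ 3 * M := by
          apply Nat.mul_le_mul_right
          exact Nat.mul_le_mul (by norm_num) hL23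
      _ ≤ k ^ 2 := h3M.le
  have hc3 : 256 * L ^ 3 * M < k ^ 2 := by
    refine lt_of_le_of_lt ?_ h3M
    apply Nat.mul_le_mul_right
    exact Nat.mul_le_mul (by norm_num) le_rfl
  have hM2 : 1 ≤ M ^ 2 := Nat.one_le_pow _ _ hM0
  have hst : 1000 * M ^ 2 < k ^ 3 := by
    refine lt_of_le_of_lt ?_ h2M
    apply Nat.mul_le_mul_right
    calc 1000 = 1000 * 1 := by norm_num
      _ ≤ 8192 * L ^ 3 := Nat.mul_le_mul (by norm_num) hL3
  have hk2 : 1000 * M ≤ k ^ 2 := by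
    refine le_trans ?_ h3M.le
    apply Nat.mul_le_mul_right
    calc 1000 = 1000 * 1 := by norm_num
      _ ≤ 1000 * L ^ 3 := Nat.mul_le_mul (by norm_num) hL3
  have hLk : 3 * L ≤ k := by
    have h : (3 * L) ^ 3 ≤ k ^ 3 := by
      calc (3 * L) ^ 3 = 27 * L ^ 3 * 1 := by ring
        _ ≤ 8192 * L ^ 3 * M ^ 2 := Nat.mul_le_mul (Nat.mul_le_mul_right _ (by norm_num)) hM2
        _ ≤ k ^ 3 := h2M.le
    exact (Nat.pow_le_pow_iff_left (by norm_num)).1 h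
  -- values of `G` on integers
  have hcopM : ∀ x : ℕ, x.Coprime m → x.Coprime M :=
    fun x hx => Nat.Coprime.coprime_dvd_right hMm hx
  have hcopM₀ : ∀ x : ℕ, x.Coprime m → x.Coprime M₀ :=
    fun x hx => Nat.Coprime.coprime_dvd_right hM₀ hx
  have hGF : ∀ (x : ℕ) (hx : x.Coprime M₀) (w : (ZMod M)ˣ), ((w : ZMod M) = (x : ZMod M)) →
      F (ZMod.unitOfCoprime x hx) = G w := by
    intro x hx w hw
    rw [hFG]
    congr 1
    ext
    rw [ZMod.unitsMap_val, ZMod.coe_unitOfCoprime, hw]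
    exact ZMod.cast_natCast hMM₀ x
  have hinj1 : ∀ x y : ℕ, 1 ≤ x → x ≤ k → 1 ≤ y → y ≤ k → x.Coprime m → y.Coprime m →
      (M : ℤ) ∣ ((y : ℤ) - x) → x = y := by
    intro x y hx1 hxk hy1 hyk hx hy hd
    have hxy : ((y : ℕ) : ZMod M) = ((x : ℕ) : ZMod M) := by
      have h : (((y : ℤ) - x : ℤ) : ZMod M) = 0 := by
        rw [ZMod.intCast_zmod_eq_zero_iff_dvd]; exact_mod_cast hd
      push_cast at h
      exact sub_eq_zero.1 h
    apply hF x y (hcopM₀ x hx) (hcopM₀ y hy) hx hy hx1 hxk hy1 hyk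
    rw [hGF x (hcopM₀ x hx) (ZMod.unitOfCoprime x (hcopM x hx)) (ZMod.coe_unitOfCoprime _ _),
      hGF y (hcopM₀ y hy) (ZMod.unitOfCoprime x (hcopM x hx)) (by
        rw [ZMod.coe_unitOfCoprime, hxy])]
  have hno : ∀ u : (ZMod M)ˣ, G u = 1 → u ≠ 1 → NoPt M m k (li u) := by
    intro u hu hne x y hx1 hxk hy1 hyk hx hy hd
    have hxy : ((y : ℕ) : ZMod M) = (u : ZMod M) * ((x : ℕ) : ZMod M) := by
      have h : (((y : ℤ) - li u * x : ℤ) : ZMod M) = 0 := by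
        rw [ZMod.intCast_zmod_eq_zero_iff_dvd]; exact_mod_cast hd
      rw [Int.cast_sub, Int.cast_mul, li_cast] at h
      push_cast at h
      exact sub_eq_zero.1 h
    have hxy2 : x = y := by
      apply hF x y (hcopM₀ x hx) (hcopM₀ y hy) hx hy hx1 hxk hy1 hyk
      rw [hGF x (hcopM₀ x hx) (ZMod.unitOfCoprime x (hcopM x hx)) (ZMod.coe_unitOfCoprime _ _),
        hGF y (hcopM₀ y hy) (u * ZMod.unitOfCoprime x (hcopM x hx)) (by
          rw [Units.val_mul, ZMod.coe_unitOfCoprime, hxy]), map_mul, hu, one_mul]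
    subst hxy2
    apply hne
    ext
    have hux : IsUnit ((x : ℕ) : ZMod M) := by
      rw [← ZMod.coe_unitOfCoprime x (hcopM x hx)]
      exact Units.isUnit _
    have h1 : (1 : ZMod M) * ((x : ℕ) : ZMod M) = (u : ZMod M) * ((x : ℕ) : ZMod M) := by
      rw [one_mul]; exact hxy
    have h2 := hux.mul_right_cancel h1
    rw [← h2]; rfl
  have h1 : k < 3 * M := one_bound M m k L hM0 hMm hm hL hLk hinj1
  have hsv : ∀ u ∈ G.ker, ∃ a b : ℤ, (a ≠ 0 ∨ b ≠ 0) ∧ |a| * k ≤ 16 * L * M ∧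
      |b| * k ≤ 16 * L * M ∧ (M : ℤ) ∣ b - li u * a := by
    intro u hu
    rw [MonoidHom.mem_ker] at hu
    by_cases hne : u = 1
    · subst hne
      have hb : (1 : ℤ) * k ≤ 16 * L * M := by
        have h4 : k ≤ 16 * L * M := by
          calc k ≤ 3 * M := h1.le
            _ ≤ 16 * L * M := Nat.mul_le_mul_right _ (by omega)
        rw [one_mul]; exact_mod_cast h4
      refine ⟨1, 1, Or.inl one_ne_zero, by simpa using hb, by simpa using hb, ?_⟩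
      have := (li_one : (M : ℤ) ∣ li (1 : (ZMod M)ˣ) - 1)
      rw [mul_one, ← dvd_neg, neg_sub]
      exact this
    · exact short_of_noPt M m k L hM0 hMm hm hk (by omega) hc1 (li u) (li_coprime u)
        (hno u hu hne)
  have hsg := signs k L G.ker hk h2M hsv
  have hF1 : ∀ u : (ZMod M)ˣ, G u = 1 → u ≠ 1 → k < 3 * Dm u ∨ k < 3 * Dp u := by
    intro u hu hne
    rcases hsg u ((MonoidHom.mem_ker).2 hu) with h | h
    · left
      exact plus_bound M m k L hM0 hMm hm hk hL hc1 (li u) (li_coprime u) (hno u hu hne) h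
    · right
      exact minus_bound M m k L hM0 hMm hm hk hL hc3 (li u) (li_coprime u) (hno u hu hne) h
  exact structure_thm hK G h1 hF1 hP hst hk2

end Pool.Agent.C497
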