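import Pool.Agent.Lib.MP_c497bd_nt.FewTwo

/-!
# MP_c497bd: counting
-/

namespace Pool.Agent.C497

open Filter Topology

/-- `n ≤ 4 φ(n)` if `n` has at most two prime divisors. -/
theorem le_four_totient {n : ℕ} (h : n.primeFactors.card ≤ 2) : n ≤ 4 * Nat.totient n := by
  have h1 : (Nat.totient n : ℚ) = n * ∏ p ∈ n.primeFactors, (1 - (p : ℚ)⁻¹) :=
    Nat.totient_eq_mul_prod_factors n
  have h2 : (1 / 4 : ℚ) ≤ ∏ p ∈ n.primeFactors, (1 - (p : ℚ)⁻¹) := by
    calc (1 / 4 : ℚ) = (1 / 2) ^ 2 := by norm_num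
      _ ≤ (1 / 2) ^ n.primeFactors.card := pow_le_pow_of_le_one (by norm_num) (by norm_num) h
      _ = ∏ p ∈ n.primeFactors, (1 / 2 : ℚ) := by rw [Finset.prod_const]
      _ ≤ ∏ p ∈ n.primeFactors, (1 - (p : ℚ)⁻¹) := by
          apply Finset.prod_le_prod (fun _ _ => by norm_num)
          intro p hp
          have hp2 : (2 : ℚ) ≤ p := by exact_mod_cast (Nat.prime_of_mem_primeFactors hp).two_le
          have : (p : ℚ)⁻¹ ≤ 2⁻¹ := inv_anti₀ (by norm_num) hp2
          norm_num at this ⊢
          linarith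
  have h3 : (n : ℚ) ≤ 4 * Nat.totient n := by
    rw [h1]
    have : (0 : ℚ) ≤ n := by positivity
    nlinarith
  exact_mod_cast h3

/-- The counting function of a set of positive integers whose large elements satisfy the conclusion
of the structure theorem. -/
theorem count_bound (S : Set ℕ) (k₀ : ℕ) (hS : ∀ k ∈ S, k₀ ≤ k → ∃ i n : ℕ, 1 ≤ i ∧ i ≤ 48 ∧
    1 ≤ n ∧ n.primeFactors.card ≤ 2 ∧ 2 * k = i * Nat.totient n) :
    ∃ C : ℝ, ∀ N : ℕ, 16 ≤ N →
      ((S ∩ Set.Icc 1 N).ncard : ℝ) ≤ C * (N * Real.log (Real.log N) / Real.log N) := by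
  classical
  obtain ⟨C, hC, hfew⟩ := few_two
  refine ⟨k₀ + 768 * C, fun N hN => ?_⟩
  have hN16 : (16 : ℝ) ≤ N := by exact_mod_cast hN
  have hN0 : (0 : ℝ) < N := by linarith
  -- logarithms
  have hl16 : (2.7725 : ℝ) ≤ Real.log 16 := by
    have h := Real.log_two_gt_d9
    have h2 : Real.log 16 = 4 * Real.log 2 := by
      rw [show (16 : ℝ) = 2 ^ 4 by norm_num, Real.log_pow]
      norm_num
    rw [h2]
    linarith
  have hlN : (2.7725 : ℝ) ≤ Real.log N := le_trans hl16 (Real.log_le_log (by norm_num) hN16)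
  have hlN0 : 0 < Real.log N := by linarith
  have he : Real.exp 1 ≤ 2.7725 := by
    have := Real.exp_one_lt_d9
    linarith
  have hll : 1 ≤ Real.log (Real.log N) := by
    rw [Real.le_log_iff_exp_le hlN0]
    linarith
  have hmain : 1 ≤ N * Real.log (Real.log N) / Real.log N := by
    rw [le_div_iff₀ hlN0, one_mul]
    have h1 : Real.log N ≤ N := by
      have := Real.log_le_sub_one_of_pos hN0
      linarith
    nlinarith
  -- covering
  have hsub : S ∩ Set.Icc 1 N ⊆ ((Finset.range k₀ ∪
      ((Finset.Icc 1 48) ×ˢ ((Finset.Icc 1 (8 * N)).filter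
        (fun n => n.primeFactors.card ≤ 2))).image (fun x => x.1 * Nat.totient x.2 / 2) :
        Finset ℕ) : Set ℕ) := by
    intro k hk
    rw [Finset.mem_coe, Finset.mem_union, Finset.mem_range]
    by_cases h : k < k₀
    · exact Or.inl h
    · right
      obtain ⟨i, n, hi1, hi48, hn1, hn2, hkn⟩ := hS k hk.1 (not_lt.1 h)
      obtain ⟨hk1, hkN⟩ := hk.2
      rw [Finset.mem_image]
      refine ⟨(i, n), ?_, ?_⟩
      · rw [Finset.mem_product, Finset.mem_filter, Finset.mem_Icc, Finset.mem_Icc]
        refine ⟨⟨hi1, hi48⟩, ⟨hn1, ?_⟩, hn2⟩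
        have h4 := le_four_totient hn2
        have h5 : Nat.totient n ≤ i * Nat.totient n := Nat.le_mul_of_pos_left _ hi1
        simp only
        omega
      · simp only
        omega
  have hcard : (S ∩ Set.Icc 1 N).ncard ≤ k₀ + 48 *
      ((Finset.Icc 1 (8 * N)).filter (fun n => n.primeFactors.card ≤ 2)).card := by
    refine le_trans (Set.ncard_le_ncard hsub (Finset.finite_toSet _)) ?_
    rw [Set.ncard_coe_finset]
    refine le_trans (Finset.card_union_le _ _) ?_
    rw [Finset.card_range]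
    refine Nat.add_le_add_left (le_trans Finset.card_image_le ?_) _
    rw [Finset.card_product, Nat.card_Icc]
  have hcard' : ((S ∩ Set.Icc 1 N).ncard : ℝ) ≤ k₀ + 48 *
      (((Finset.Icc 1 (8 * N)).filter (fun n => n.primeFactors.card ≤ 2)).card : ℝ) := by
    exact_mod_cast hcard
  have h8 := hfew (8 * N) (by omega)
  push_cast at h8
  have hl8 : Real.log N ≤ Real.log (8 * N) := Real.log_le_log hN0 (by linarith)
  have hl8' : Real.log (8 * N) ≤ 2 * Real.log N := by
    have h1 : Real.log (8 * (N : ℝ)) ≤ Real.log ((N : ℝ) ^ 2) := by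
      apply Real.log_le_log (by positivity)
      nlinarith
    rw [Real.log_pow] at h1
    push_cast at h1
    exact h1
  have hll8 : Real.log (Real.log (8 * N)) ≤ 2 * Real.log (Real.log N) := by
    calc Real.log (Real.log (8 * N)) ≤ Real.log (2 * Real.log N) :=
          Real.log_le_log (by linarith) hl8'
      _ ≤ Real.log (Real.log N ^ 2) := by
          apply Real.log_le_log (by positivity)
          nlinarith
      _ = 2 * Real.log (Real.log N) := by rw [Real.log_pow]; push_cast; ring
  have hfin : 8 * (N : ℝ) * Real.log (Real.log (8 * N)) / Real.log (8 * N) ≤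
      16 * (N * Real.log (Real.log N) / Real.log N) := by
    calc 8 * (N : ℝ) * Real.log (Real.log (8 * N)) / Real.log (8 * N)
        ≤ 8 * (N : ℝ) * (2 * Real.log (Real.log N)) / Real.log (8 * N) := by
          apply div_le_div_of_nonneg_right _ (by linarith)
          exact mul_le_mul_of_nonneg_left hll8 (by positivity)
      _ ≤ 8 * (N : ℝ) * (2 * Real.log (Real.log N)) / Real.log N := by
          apply div_le_div_of_nonneg_left _ hlN0 hl8
          positivity
      _ = 16 * (N * Real.log (Real.log N) / Real.log N) := by ring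
  set T : ℝ := N * Real.log (Real.log N) / Real.log N with hT
  have h9 : (((Finset.Icc 1 (8 * N)).filter (fun n => n.primeFactors.card ≤ 2)).card : ℝ) ≤
      C * (16 * T) := le_trans h8 (mul_le_mul_of_nonneg_left hfin hC.le)
  have hk₀ : (0 : ℝ) ≤ k₀ := by positivity
  nlinarith

end Pool.Agent.C497
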