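import Pool.Agent.Lib.MP_c497bd_nt.PJ.Avoid

/-!
# MP_c497bd: logarithms induced by residue class homomorphisms, definitions

`M ∣ m`, `k` is the length, `G : (ZMod M)ˣ →* Multiplicative (ZMod k)`.  For a unit `u` modulo `M`
we work with the integer `li u`.  `Dm u = gcd (u - 1, M)` and `Dp u = gcd (u + 1, M)`.
-/

namespace Pool.Agent.C497

/-- The exponent of the polynomial Jacobsthal bound. -/
noncomputable def Jexp : ℕ := Classical.choose exists_avoid_poly

theorem Jexp_pos : 1 ≤ Jexp := (Classical.choose_spec exists_avoid_poly).1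

/-- Every interval of `J w` integers contains one which avoids two classes modulo each of `w`
given primes (one class if the prime is `2`). -/
noncomputable def J (w : ℕ) : ℕ := (w + 2) ^ Jexp

/-- There are no `x, y ≤ k` prime to `m` with `y = h * x` modulo `M`. -/
def NoPt (M m k : ℕ) (h : ℤ) : Prop :=
  ∀ x y : ℕ, 1 ≤ x → x ≤ k → 1 ≤ y → y ≤ k → x.Coprime m → y.Coprime m →
    ¬ (M : ℤ) ∣ ((y : ℤ) - h * x)

variable {M : ℕ}

/-- The integer representing a unit modulo `M`. -/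
def li (u : (ZMod M)ˣ) : ℤ := ((u : ZMod M).val : ℤ)

/-- `gcd (u - 1, M)` -/
def Dm (u : (ZMod M)ˣ) : ℕ := Int.gcd (li u - 1) M

/-- `gcd (u + 1, M)` -/
def Dp (u : (ZMod M)ˣ) : ℕ := Int.gcd (li u + 1) M

theorem J_pos (w : ℕ) : 2 ≤ J w := by
  unfold J
  calc 2 ≤ w + 2 := by omega
    _ = (w + 2) ^ 1 := (pow_one _).symm
    _ ≤ (w + 2) ^ Jexp := Nat.pow_le_pow_right (by omega) Jexp_pos

theorem li_cast [NeZero M] (u : (ZMod M)ˣ) : ((li u : ℤ) : ZMod M) = u := by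
  unfold li
  rw [Int.cast_natCast, ZMod.natCast_zmod_val]

theorem li_coprime [NeZero M] (u : (ZMod M)ˣ) : IsCoprime (li u) (M : ℤ) := by
  unfold li
  rw [Nat.isCoprime_iff_coprime]
  exact ZMod.val_coe_unit_coprime u

/-- units with the same integer class are equal -/
theorem li_ext [NeZero M] {u v : (ZMod M)ˣ} (h : (M : ℤ) ∣ li u - li v) : u = v := by
  ext
  rw [← li_cast u, ← li_cast v]
  rw [← sub_eq_zero, ← Int.cast_sub, ZMod.intCast_zmod_eq_zero_iff_dvd]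
  exact_mod_cast h

theorem li_one [NeZero M] : (M : ℤ) ∣ li (1 : (ZMod M)ˣ) - 1 := by
  have h := li_cast (1 : (ZMod M)ˣ)
  rw [Units.val_one] at h
  have h2 : ((li (1 : (ZMod M)ˣ) - 1 : ℤ) : ZMod M) = 0 := by
    rw [Int.cast_sub, h]; simp
  rw [ZMod.intCast_zmod_eq_zero_iff_dvd] at h2
  exact_mod_cast h2

theorem li_mul [NeZero M] (u v : (ZMod M)ˣ) : (M : ℤ) ∣ li (u * v) - li u * li v := by
  have h2 : ((li (u * v) - li u * li v : ℤ) : ZMod M) = 0 := by
    rw [Int.cast_sub, Int.cast_mul, li_cast, li_cast, li_cast]; simp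
  rw [ZMod.intCast_zmod_eq_zero_iff_dvd] at h2
  exact_mod_cast h2

theorem li_pow [NeZero M] (u : (ZMod M)ˣ) (n : ℕ) : (M : ℤ) ∣ li (u ^ n) - li u ^ n := by
  have h2 : ((li (u ^ n) - li u ^ n : ℤ) : ZMod M) = 0 := by
    rw [Int.cast_sub, Int.cast_pow, li_cast, li_cast]; simp
  rw [ZMod.intCast_zmod_eq_zero_iff_dvd] at h2
  exact_mod_cast h2

/-- an integer prime to `M` is the class of a unit -/
theorem exists_unit [NeZero M] {x : ℤ} (h : IsCoprime x (M : ℤ)) :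
    ∃ u : (ZMod M)ˣ, (M : ℤ) ∣ li u - x := by
  have hu : IsUnit ((x : ℤ) : ZMod M) := (ZMod.coe_int_isUnit_iff_isCoprime x M).2 h.symm
  obtain ⟨u, hu⟩ := hu
  refine ⟨u, ?_⟩
  have h2 : ((li u - x : ℤ) : ZMod M) = 0 := by
    rw [Int.cast_sub, li_cast, hu]; simp
  rw [ZMod.intCast_zmod_eq_zero_iff_dvd] at h2
  exact_mod_cast h2

/-- Among any `J |S|` consecutive integers there is one which is in neither of two given classes
modulo each `q ∈ S`. -/
theorem exists_avoid (S : Finset ℕ) (hS : ∀ q ∈ S, q.Prime) (r s : ℕ → ℤ)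
    (h2 : 2 ∈ S → (2 : ℤ) ∣ r 2 - s 2) (N : ℕ) (hN : J S.card ≤ N) :
    ∃ i : ℕ, i < N ∧ ∀ q ∈ S, ¬ (q : ℤ) ∣ ((i : ℤ) - r q) ∧ ¬ (q : ℤ) ∣ ((i : ℤ) - s q) :=
  (Classical.choose_spec exists_avoid_poly).2 S r s N hS h2 hN

end Pool.Agent.C497
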