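import Mathlib

/-!
# MP_c497bd: integers with at most two prime divisors have density zero
-/

namespace Pool.Agent.C497

/-- finite sets of primes with large reciprocal sum -/
private theorem exists_primes (S : ℝ) : ∃ P : Finset ℕ, (∀ p ∈ P, p.Prime) ∧
    S ≤ ∑ p ∈ P, (1 / (p : ℝ)) := by
  by_contra h
  push Not at h
  apply Nat.Primes.not_summable_one_div
  refine summable_of_sum_le (c := S) (fun p => by positivity) fun u => ?_
  have h1 := h (u.map ⟨fun p : Nat.Primes => (p : ℕ), Subtype.val_injective⟩) (by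
    intro p hp
    simp only [Finset.mem_map] at hp
    obtain ⟨q, _, rfl⟩ := hp
    exact q.2)
  rw [Finset.sum_map] at h1
  exact h1.le

private theorem card_mult (N d : ℕ) :
    (∑ n ∈ Finset.Icc 1 N, if d ∣ n then (1 : ℝ) else 0) = ((N / d : ℕ) : ℝ) := by
  rw [← Finset.sum_filter, Finset.sum_const, nsmul_eq_mul, mul_one]
  have h : (Finset.Icc 1 N).filter (fun n => d ∣ n) = {x ∈ Finset.Ioc 0 N | d ∣ x} := by
    ext x
    simp only [Finset.mem_filter, Finset.mem_Icc, Finset.mem_Ioc]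
    constructor <;> rintro ⟨⟨h1, h2⟩, h3⟩ <;> exact ⟨⟨by omega, h2⟩, h3⟩
  rw [h, Nat.Ioc_filter_dvd_card_eq_div]

private theorem div_le (N d : ℕ) : ((N / d : ℕ) : ℝ) ≤ (N : ℝ) * (1 / d) := by
  rw [mul_one_div]
  exact Nat.cast_div_le

private theorem le_div (N d : ℕ) : (N : ℝ) * (1 / d) - 1 ≤ ((N / d : ℕ) : ℝ) := by
  rw [mul_one_div]
  have h := Nat.lt_floor_add_one ((N : ℝ) / d)
  rw [Nat.floor_div_eq_div] at h
  linarith

/-- the number of the primes of `P` dividing `n` -/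
private noncomputable def cnt (P : Finset ℕ) (n : ℕ) : ℝ := ∑ p ∈ P, if p ∣ n then (1 : ℝ) else 0

private theorem variance (P : Finset ℕ) (hP : ∀ p ∈ P, p.Prime) (N : ℕ) (s : ℝ)
    (hs : s = ∑ p ∈ P, (1 / (p : ℝ))) :
    ∑ n ∈ Finset.Icc 1 N, (cnt P n - s) ^ 2 ≤ N * s + 2 * s * P.card := by
  have hs0 : 0 ≤ s := by rw [hs]; positivity
  have e1 : ∑ n ∈ Finset.Icc 1 N, (cnt P n - s) ^ 2 =
      ∑ n ∈ Finset.Icc 1 N, (cnt P n) ^ 2 - 2 * s * ∑ n ∈ Finset.Icc 1 N, cnt P n + N * s ^ 2 := by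
    have : ∀ n ∈ Finset.Icc 1 N, (cnt P n - s) ^ 2 = (cnt P n) ^ 2 - 2 * s * cnt P n + s ^ 2 := by
      intro n _; ring
    rw [Finset.sum_congr rfl this, Finset.sum_add_distrib, Finset.sum_sub_distrib,
      ← Finset.mul_sum, Finset.sum_const, Nat.card_Icc, nsmul_eq_mul]
    norm_num
  have e2 : N * s - P.card ≤ ∑ n ∈ Finset.Icc 1 N, cnt P n := by
    unfold cnt
    rw [Finset.sum_comm]
    calc (N : ℝ) * s - P.card = ∑ p ∈ P, ((N : ℝ) * (1 / p) - 1) := by
          rw [Finset.sum_sub_distrib, ← Finset.mul_sum, ← hs]; simp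
      _ ≤ _ := by
          refine Finset.sum_le_sum fun p _ => ?_
          rw [card_mult]
          exact le_div N p
  have e3 : ∑ n ∈ Finset.Icc 1 N, (cnt P n) ^ 2 ≤ N * s ^ 2 + N * s := by
    have h1 : ∀ n ∈ Finset.Icc 1 N, (cnt P n) ^ 2 =
        ∑ p ∈ P, ∑ q ∈ P, if (p ∣ n ∧ q ∣ n) then (1 : ℝ) else 0 := by
      intro n _
      unfold cnt
      rw [sq, Finset.sum_mul_sum]
      refine Finset.sum_congr rfl fun p _ => Finset.sum_congr rfl fun q _ => ?_
      by_cases h : p ∣ n <;> by_cases h' : q ∣ n <;> simp [h, h']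
    rw [Finset.sum_congr rfl h1, Finset.sum_comm]
    have h2 : ∀ p ∈ P, ∑ n ∈ Finset.Icc 1 N, ∑ q ∈ P, (if (p ∣ n ∧ q ∣ n) then (1 : ℝ) else 0) ≤
        ∑ q ∈ P, ((N : ℝ) * ((1 / p) * (1 / q)) + if p = q then (N : ℝ) * (1 / q) else 0) := by
      intro p hp
      rw [Finset.sum_comm]
      refine Finset.sum_le_sum fun q hq => ?_
      by_cases hpq : p = q
      · subst hpq
        have : ∀ n ∈ Finset.Icc 1 N, (if (p ∣ n ∧ p ∣ n) then (1 : ℝ) else 0) =
            if p ∣ n then (1 : ℝ) else 0 := by intro n _; simp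
        rw [Finset.sum_congr rfl this, card_mult, if_pos rfl]
        have h3 := div_le N p
        have : (0 : ℝ) ≤ (N : ℝ) * ((1 / p) * (1 / p)) := by positivity
        linarith
      · have hc : Nat.Coprime p q := (Nat.coprime_primes (hP p hp) (hP q hq)).2 hpq
        have : ∀ n ∈ Finset.Icc 1 N, (if (p ∣ n ∧ q ∣ n) then (1 : ℝ) else 0) =
            if p * q ∣ n then (1 : ℝ) else 0 := by
          intro n _
          have : (p ∣ n ∧ q ∣ n) ↔ p * q ∣ n :=
            ⟨fun h => hc.mul_dvd_of_dvd_of_dvd h.1 h.2,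
              fun h => ⟨(dvd_mul_right p q).trans h, (dvd_mul_left q p).trans h⟩⟩
          simp only [this]
        rw [Finset.sum_congr rfl this, card_mult, if_neg hpq, add_zero]
        refine (div_le N (p * q)).trans (le_of_eq ?_)
        push_cast
        rw [one_div_mul_one_div]
    refine (Finset.sum_le_sum h2).trans (le_of_eq ?_)
    have h4 : ∀ p ∈ P, ∑ q ∈ P, ((N : ℝ) * ((1 / p) * (1 / q)) +
        if p = q then (N : ℝ) * (1 / q) else 0) = (N * s) * (1 / p) + N * (1 / p) := by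
      intro p hp
      rw [Finset.sum_add_distrib, Finset.sum_ite_eq P p, if_pos hp, ← Finset.mul_sum,
        ← Finset.mul_sum, ← hs]
      ring
    rw [Finset.sum_congr rfl h4, Finset.sum_add_distrib, ← Finset.mul_sum, ← Finset.mul_sum, ← hs]
    ring
  rw [e1]
  nlinarith

/-- Proof (Turán). Let `P` be a finite set of primes with `σ = ∑_{p ∈ P} 1 / p ≥ 4 / δ + 4`
(`Nat.Primes.not_summable_one_div` or a similar theorem of Mathlib), and let `a n` be the number of
the `p ∈ P` dividing `n`. Then `∑_{n ≤ N} (a n - σ) ^ 2 ≤ N σ + C` with `C` depending only on `P`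
(the number of multiples of `p p'` up to `N` is `N / (p p')` up to an error at most `1`). A number
with at most two prime divisors has `(a n - σ) ^ 2 ≥ (σ - 2) ^ 2 ≥ σ ^ 2 / 4`, so there are at most
`4 (N σ + C) / σ ^ 2 ≤ δ N` of them if `N` is large. -/
theorem few_primes (δ : ℝ) (hδ : 0 < δ) : ∃ N₀ : ℕ, ∀ N : ℕ, N₀ ≤ N →
    (((Finset.Icc 1 N).filter (fun n => n.primeFactors.card ≤ 2)).card : ℝ) ≤ δ * N := by
  obtain ⟨P, hP, hS⟩ := exists_primes (8 / δ + 4)
  set s : ℝ := ∑ p ∈ P, (1 / (p : ℝ)) with hs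
  have h8 : 0 < 8 / δ := by positivity
  have hs4 : 4 ≤ s := by linarith
  have hs8 : 8 / δ ≤ s := by linarith
  have hsd : 8 ≤ s * δ := by rwa [div_le_iff₀ hδ] at hs8
  refine ⟨⌈16 * (P.card : ℝ) / δ⌉₊, fun N hN => ?_⟩
  have hN2 : 16 * (P.card : ℝ) ≤ δ * N := by
    have h1 : 16 * (P.card : ℝ) / δ ≤ N := (Nat.le_ceil _).trans (by exact_mod_cast hN)
    rw [div_le_iff₀ hδ] at h1
    linarith
  have hv := variance P hP N s hs
  set F := (Finset.Icc 1 N).filter (fun n => n.primeFactors.card ≤ 2) with hF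
  have hlow : (F.card : ℝ) * (s ^ 2 / 4) ≤ ∑ n ∈ Finset.Icc 1 N, (cnt P n - s) ^ 2 := by
    calc (F.card : ℝ) * (s ^ 2 / 4) = ∑ n ∈ F, s ^ 2 / 4 := by
          rw [Finset.sum_const, nsmul_eq_mul]
      _ ≤ ∑ n ∈ F, (cnt P n - s) ^ 2 := by
          refine Finset.sum_le_sum fun n hn => ?_
          rw [hF, Finset.mem_filter, Finset.mem_Icc] at hn
          have ha : cnt P n ≤ 2 := by
            unfold cnt
            rw [← Finset.sum_filter, Finset.sum_const, nsmul_eq_mul, mul_one]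
            have hsub : P.filter (fun p => p ∣ n) ⊆ n.primeFactors := by
              intro p hp
              rw [Finset.mem_filter] at hp
              exact Nat.mem_primeFactors.2 ⟨hP p hp.1, hp.2, by omega⟩
            exact_mod_cast (Finset.card_le_card hsub).trans hn.2
          have h2 : s / 2 ≤ s - cnt P n := by linarith
          nlinarith
      _ ≤ _ := Finset.sum_le_sum_of_subset_of_nonneg (Finset.filter_subset _ _)
          fun n _ _ => sq_nonneg _
  have hs0 : 0 < s := by linarith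
  have h3 : (F.card : ℝ) * s ≤ 4 * (N + 2 * P.card) := by
    have h5 : (F.card : ℝ) * (s ^ 2 / 4) ≤ N * s + 2 * s * P.card := hlow.trans hv
    have h6 : s * ((F.card : ℝ) * s) ≤ s * (4 * (N + 2 * P.card)) := by nlinarith
    exact le_of_mul_le_mul_left h6 hs0
  have h7 : (F.card : ℝ) * s ≤ (δ * N) * s := by
    have hN0 : (0 : ℝ) ≤ N := Nat.cast_nonneg N
    have hc0 : (0 : ℝ) ≤ P.card := Nat.cast_nonneg _
    nlinarith
  exact le_of_mul_le_mul_right h7 hs0

end Pool.Agent.C497
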