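import Pool.Agent.Lib.MP_6396c4_an.HR

/-!
# MP_c497bd: the number of integers with at most two prime divisors
-/

namespace Pool.Agent.C497

open Finset MP6396c4

private lemma pow_sum : ∃ K : ℝ, 0 < K ∧ ∀ N : ℕ,
    ∑ x ∈ Icc 2 N ×ˢ Icc 2 N, (((x.1 : ℝ) ^ x.2) ^ (-(3 / 4) : ℝ)) ≤ K := by
  set c : ℝ := (2 : ℝ) ^ (-(3 / 4) : ℝ) with hc
  have hc0 : 0 < c := by positivity
  have hc1 : c < 1 := Real.rpow_lt_one_of_one_lt_of_neg (by norm_num) (by norm_num)
  have hs : Summable (fun q : ℕ => (q : ℝ) ^ (-(3 / 2) : ℝ)) :=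
    Real.summable_nat_rpow.mpr (by norm_num)
  set A : ℝ := ∑' q : ℕ, (q : ℝ) ^ (-(3 / 2) : ℝ) with hA
  have hA0 : 0 ≤ A := tsum_nonneg (fun q => by positivity)
  refine ⟨A * (1 - c)⁻¹ + 1, ?_, fun N => ?_⟩
  · have : 0 < (1 - c)⁻¹ := inv_pos.mpr (by linarith)
    positivity
  have h1 : ∀ x ∈ Icc 2 N ×ˢ Icc 2 N, (((x.1 : ℝ) ^ x.2) ^ (-(3 / 4) : ℝ)) ≤
      (x.1 : ℝ) ^ (-(3 / 2) : ℝ) * c ^ (x.2 - 2) := by
    rintro ⟨q, a⟩ hx
    rw [mem_product, mem_Icc, mem_Icc] at hx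
    obtain ⟨⟨hq, -⟩, ha, -⟩ := hx
    dsimp only at hq ha ⊢
    obtain ⟨k, rfl⟩ := Nat.exists_eq_add_of_le ha
    have hq2 : (2 : ℝ) ≤ q := by exact_mod_cast hq
    have hq0 : (0 : ℝ) < q := by linarith
    have e1 : ((q : ℝ) ^ (2 + k)) ^ (-(3 / 4) : ℝ) = ((q : ℝ) ^ (-(3 / 4) : ℝ)) ^ (2 + k) := by
      rw [← Real.rpow_natCast, ← Real.rpow_mul hq0.le, ← Real.rpow_natCast,
        ← Real.rpow_mul hq0.le, mul_comm]
    have e2 : ((q : ℝ) ^ (-(3 / 4) : ℝ)) ^ 2 = (q : ℝ) ^ (-(3 / 2) : ℝ) := by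
      rw [← Real.rpow_natCast, ← Real.rpow_mul hq0.le]
      norm_num
    have e3 : (q : ℝ) ^ (-(3 / 4) : ℝ) ≤ c :=
      Real.rpow_le_rpow_of_nonpos (by norm_num) hq2 (by norm_num)
    rw [e1, pow_add, e2, show 2 + k - 2 = k by omega]
    have h0 : 0 ≤ (q : ℝ) ^ (-(3 / 4) : ℝ) := by positivity
    gcongr
  refine (Finset.sum_le_sum h1).trans ?_
  rw [Finset.sum_product]
  simp_rw [← Finset.mul_sum]
  have h2 : ∑ i ∈ Icc 2 N, c ^ (i - 2) ≤ (1 - c)⁻¹ := by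
    rw [← tsum_geometric_of_lt_one hc0.le hc1]
    have e : ∑ i ∈ Icc 2 N, c ^ (i - 2) = ∑ i ∈ (Icc 2 N).image (fun i => i - 2), c ^ i := by
      rw [Finset.sum_image]
      intro i hi j hj hij
      simp only [coe_Icc, Set.mem_Icc] at hi hj
      dsimp only at hij
      omega
    rw [e]
    exact (summable_geometric_of_lt_one hc0.le hc1).sum_le_tsum _ (fun i _ => by positivity)
  have h3 : ∑ q ∈ Icc 2 N, (q : ℝ) ^ (-(3 / 2) : ℝ) ≤ A :=
    hs.sum_le_tsum _ (fun i _ => by positivity)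
  calc ∑ q ∈ Icc 2 N, (q : ℝ) ^ (-(3 / 2) : ℝ) * ∑ i ∈ Icc 2 N, c ^ (i - 2)
      ≤ ∑ q ∈ Icc 2 N, (q : ℝ) ^ (-(3 / 2) : ℝ) * (1 - c)⁻¹ := by gcongr
    _ = (∑ q ∈ Icc 2 N, (q : ℝ) ^ (-(3 / 2) : ℝ)) * (1 - c)⁻¹ := by rw [Finset.sum_mul]
    _ ≤ A * (1 - c)⁻¹ := by
        have : 0 < (1 - c)⁻¹ := inv_pos.mpr (by linarith)
        gcongr
    _ ≤ _ := by linarith

private lemma one_add_log_le {x : ℝ} (hx : 1 ≤ x) : 1 + Real.log x ≤ 5 * x ^ ((1 / 4) : ℝ) := by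
  have h1 : Real.log x ≤ x ^ ((1 / 4) : ℝ) / (1 / 4) := Real.log_le_rpow_div (by linarith)
    (by norm_num)
  have h2 : 1 ≤ x ^ ((1 / 4) : ℝ) := Real.one_le_rpow hx (by norm_num)
  linarith

private lemma rpow_three {x : ℝ} (hx : 0 < x) : x ^ ((1 / 4) : ℝ) * x⁻¹ = x ^ (-(3 / 4) : ℝ) := by
  rw [← Real.rpow_neg_one, ← Real.rpow_add hx]
  norm_num

/-- the number of `v` equal to `1` or prime up to `N / Q`. -/
private lemma card_one_prime {N Q : ℕ} (hQ : 0 < Q) (hQN : Q ≤ N) :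
    (#((Icc 1 (N / Q)).filter (fun v => v = 1 ∨ v.Prime)) : ℝ) ≤
      55 * (N / (1 + Real.log N)) * ((Q : ℝ) ^ (-(3 / 4) : ℝ)) := by
  have hM : 1 ≤ N / Q := (Nat.one_le_div_iff hQ).mpr hQN
  set M := N / Q with hMdef
  have hQ1 : (1 : ℝ) ≤ Q := by exact_mod_cast hQ
  have hQ0 : (0 : ℝ) < Q := by linarith
  have hM1 : (1 : ℝ) ≤ M := by exact_mod_cast hM
  have hN0 : (0 : ℝ) < N := by
    have : 0 < N := lt_of_lt_of_le hQ hQN
    exact_mod_cast this
  have hsub : (Icc 1 M).filter (fun v => v = 1 ∨ v.Prime) ⊆ {1} ∪ pr M := by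
    intro v hv
    rw [mem_filter, mem_Icc] at hv
    rw [mem_union, mem_singleton, mem_pr]
    rcases hv.2 with h | h
    · exact Or.inl h
    · exact Or.inr ⟨h, hv.1.2⟩
  have hc := (Finset.card_le_card hsub).trans (Finset.card_union_le _ _)
  rw [card_singleton] at hc
  have hc' : (#((Icc 1 M).filter (fun v => v = 1 ∨ v.Prime)) : ℝ) ≤ 1 + #(pr M) := by
    exact_mod_cast hc
  have h1 := card_pr_le M hM
  have hlM : 0 ≤ Real.log M := Real.log_nonneg hM1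
  have h2 : (1 : ℝ) ≤ M / (1 + Real.log M) := by
    rw [le_div_iff₀ (by linarith)]
    have := Real.log_le_sub_one_of_pos (show (0 : ℝ) < M by linarith)
    linarith
  have hle : (M : ℝ) ≤ (N : ℝ) / Q := Nat.cast_div_le
  have h3 := div_log_mono hM1 hle
  have hNQ : 1 ≤ (N : ℝ) / Q := hM1.trans hle
  have hlNQ : 0 ≤ Real.log ((N : ℝ) / Q) := Real.log_nonneg hNQ
  have hlQ : 0 ≤ Real.log Q := Real.log_nonneg hQ1
  have hlog : Real.log N = Real.log ((N : ℝ) / Q) + Real.log Q := by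
    rw [Real.log_div hN0.ne' hQ0.ne']; ring
  have hlN : 0 ≤ Real.log N := by rw [hlog]; linarith
  have h4 : (N : ℝ) / Q / (1 + Real.log ((N : ℝ) / Q)) ≤
      N / (1 + Real.log N) * ((1 + Real.log Q) * (Q : ℝ)⁻¹) := by
    have e : (N : ℝ) / Q / (1 + Real.log ((N : ℝ) / Q)) =
        N * (Q : ℝ)⁻¹ * (1 + Real.log ((N : ℝ) / Q))⁻¹ := by
      rw [div_eq_mul_inv, div_eq_mul_inv]
    have e' : (N : ℝ) / (1 + Real.log N) * ((1 + Real.log Q) * (Q : ℝ)⁻¹) =
        N * (Q : ℝ)⁻¹ * ((1 + Real.log Q) / (1 + Real.log N)) := by ring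
    rw [e, e']
    apply mul_le_mul_of_nonneg_left _ (by positivity)
    rw [inv_eq_one_div, div_le_div_iff₀ (by linarith) (by linarith), hlog]
    nlinarith
  have h5 : (1 + Real.log Q) * (Q : ℝ)⁻¹ ≤ 5 * (Q : ℝ) ^ (-(3 / 4) : ℝ) := by
    rw [← rpow_three hQ0, ← mul_assoc]
    have := one_add_log_le hQ1
    gcongr
  have h6 : 0 ≤ (N : ℝ) / (1 + Real.log N) := by positivity
  have h7 := mul_le_mul_of_nonneg_left h5 h6
  calc (#((Icc 1 M).filter (fun v => v = 1 ∨ v.Prime)) : ℝ) ≤ 1 + #(pr M) := hc'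
    _ ≤ 11 * (M / (1 + Real.log M)) := by linarith
    _ ≤ 11 * (N / (1 + Real.log N) * (5 * (Q : ℝ) ^ (-(3 / 4) : ℝ))) := by linarith
    _ = _ := by ring

/-- the higher powers up to `N` -/
private def hp (N : ℕ) : Finset (ℕ × ℕ) :=
  (Icc 2 N ×ˢ Icc 2 N).filter (fun x => x.1 ^ x.2 ≤ N)

private lemma mem_hp {N q a : ℕ} (hq : 2 ≤ q) (ha : 2 ≤ a) (h : q ^ a ≤ N) :
    (q, a) ∈ hp N := by
  unfold hp
  rw [mem_filter, mem_product, mem_Icc, mem_Icc]
  refine ⟨⟨⟨hq, ?_⟩, ha, ?_⟩, h⟩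
  · exact (Nat.le_self_pow (by omega) q).trans h
  · have : a < 2 ^ a := Nat.lt_two_pow_self
    have h2 : 2 ^ a ≤ q ^ a := Nat.pow_le_pow_left hq a
    dsimp only
    omega

private def setC (N : ℕ) : Finset ℕ :=
  (hp N).biUnion (fun x => ((Icc 1 (N / x.1 ^ x.2)).filter (fun v => v = 1 ∨ v.Prime)).image
    (fun v => x.1 ^ x.2 * v))

private def setD (N : ℕ) : Finset ℕ :=
  ((hp N ×ˢ hp N).filter (fun y => y.1.1 ^ y.1.2 * y.2.1 ^ y.2.2 ≤ N)).image
    (fun y => y.1.1 ^ y.1.2 * y.2.1 ^ y.2.2)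

private lemma mem_setC {N q a v : ℕ} (hq : 2 ≤ q) (ha : 2 ≤ a) (hv : v = 1 ∨ v.Prime)
    (h : q ^ a * v ≤ N) : q ^ a * v ∈ setC N := by
  have hv1 : 1 ≤ v := by
    rcases hv with rfl | h'
    · exact le_rfl
    · exact h'.one_lt.le
  have hpos : 0 < q ^ a := by positivity
  unfold setC
  rw [mem_biUnion]
  refine ⟨(q, a), mem_hp hq ha ((Nat.le_mul_of_pos_right _ hv1).trans h), ?_⟩
  rw [mem_image]
  refine ⟨v, ?_, rfl⟩
  rw [mem_filter, mem_Icc]
  refine ⟨⟨hv1, ?_⟩, hv⟩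
  rw [Nat.le_div_iff_mul_le hpos, mul_comm]
  exact h

private lemma mem_setD {N q a r b : ℕ} (hq : 2 ≤ q) (ha : 2 ≤ a) (hr : 2 ≤ r) (hb : 2 ≤ b)
    (h : q ^ a * r ^ b ≤ N) : q ^ a * r ^ b ∈ setD N := by
  have hpos : 0 < q ^ a := by positivity
  have hpos' : 0 < r ^ b := by positivity
  unfold setD
  rw [mem_image]
  refine ⟨((q, a), (r, b)), ?_, rfl⟩
  rw [mem_filter, mem_product]
  exact ⟨⟨mem_hp hq ha ((Nat.le_mul_of_pos_right _ hpos').trans h),
    mem_hp hr hb ((Nat.le_mul_of_pos_left _ hpos).trans h)⟩, h⟩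

private lemma few_subset (N : ℕ) :
    (Icc 1 N).filter (fun n => n.primeFactors.card ≤ 2) ⊆
      ({1} ∪ sqf 1 N) ∪ sqf 2 N ∪ setC N ∪ setD N := by
  intro n hn
  rw [mem_filter, mem_Icc] at hn
  obtain ⟨⟨hn1, hnN⟩, hcard⟩ := hn
  have hn0 : n ≠ 0 := by omega
  simp only [mem_union, mem_singleton, mem_sqf]
  have hfac : ∏ p ∈ n.primeFactors, p ^ n.factorization p = n :=
    Nat.prod_factorization_pow_eq_self hn0
  by_cases hsq : Squarefree n
  · have hcf : ArithmeticFunction.cardFactors n = n.primeFactors.card := by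
      rw [← (ArithmeticFunction.cardDistinctFactors_eq_cardFactors_iff_squarefree hn0).mpr hsq]
      rfl
    interval_cases hk : n.primeFactors.card
    · have : n = 1 := by
        rw [Finset.card_eq_zero, Nat.primeFactors_eq_empty] at hk
        omega
      exact Or.inl (Or.inl (Or.inl (Or.inl this)))
    · exact Or.inl (Or.inl (Or.inl (Or.inr ⟨⟨hn1, hnN⟩, hsq, hcf⟩)))
    · exact Or.inl (Or.inl (Or.inr ⟨⟨hn1, hnN⟩, hsq, hcf⟩))
  · -- not squarefree
    have hex : ∃ p ∈ n.primeFactors, 2 ≤ n.factorization p := by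
      by_contra hcon
      push Not at hcon
      apply hsq
      rw [Nat.squarefree_iff_factorization_le_one hn0]
      intro p
      by_cases hp : p ∈ n.primeFactors
      · have := hcon p hp
        omega
      · rw [← Nat.support_factorization, Finsupp.notMem_support_iff] at hp
        omega
    obtain ⟨p, hp, hp2⟩ := hex
    have hpp := Nat.prime_of_mem_primeFactors hp
    rw [← Finset.mul_prod_erase _ _ hp] at hfac
    have hce : (n.primeFactors.erase p).card ≤ 1 := by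
      rw [Finset.card_erase_of_mem hp]; omega
    rw [Finset.card_le_one_iff_subset_singleton] at hce
    obtain ⟨r, hr⟩ := hce
    rw [Finset.subset_singleton_iff] at hr
    rcases hr with hr | hr
    · rw [hr, Finset.prod_empty] at hfac
      refine Or.inl (Or.inr ?_)
      rw [← hfac]
      exact mem_setC hpp.two_le hp2 (Or.inl rfl) (by rw [hfac]; exact hnN)
    · rw [hr, Finset.prod_singleton] at hfac
      have hrm : r ∈ n.primeFactors := by
        have : r ∈ n.primeFactors.erase p := by rw [hr]; exact mem_singleton_self r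
        exact Finset.mem_of_mem_erase this
      have hrp := Nat.prime_of_mem_primeFactors hrm
      have hr1 : 1 ≤ n.factorization r :=
        hrp.factorization_pos_of_dvd hn0 (Nat.dvd_of_mem_primeFactors hrm)
      rcases Nat.lt_or_ge (n.factorization r) 2 with hlt | hge
      · have h1 : n.factorization r = 1 := by omega
        rw [h1, pow_one] at hfac
        refine Or.inl (Or.inr ?_)
        rw [← hfac]
        exact mem_setC hpp.two_le hp2 (Or.inr hrp) (by rw [hfac]; exact hnN)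
      · refine Or.inr ?_
        rw [← hfac]
        exact mem_setD hpp.two_le hp2 hrp.two_le hge (by rw [hfac]; exact hnN)

private lemma sum_hp_le {K : ℝ} (N : ℕ)
    (hK : ∑ x ∈ Icc 2 N ×ˢ Icc 2 N, (((x.1 : ℝ) ^ x.2) ^ (-(3 / 4) : ℝ)) ≤ K) :
    ∑ x ∈ hp N, (((x.1 : ℝ) ^ x.2) ^ (-(3 / 4) : ℝ)) ≤ K :=
  (Finset.sum_le_sum_of_subset_of_nonneg (filter_subset _ _)
    (fun x _ _ => by positivity)).trans hK

private lemma card_setC {K : ℝ} (N : ℕ)
    (hK : ∑ x ∈ hp N, (((x.1 : ℝ) ^ x.2) ^ (-(3 / 4) : ℝ)) ≤ K) :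
    (#(setC N) : ℝ) ≤ 55 * (N / (1 + Real.log N)) * K := by
  have hlN : 0 ≤ Real.log N := Real.log_natCast_nonneg N
  have h1 : (#(setC N) : ℝ) ≤ ∑ x ∈ hp N,
      (#((Icc 1 (N / x.1 ^ x.2)).filter (fun v => v = 1 ∨ v.Prime)) : ℝ) := by
    have h := Finset.card_biUnion_le (s := hp N) (t := fun x =>
      ((Icc 1 (N / x.1 ^ x.2)).filter (fun v => v = 1 ∨ v.Prime)).image (fun v => x.1 ^ x.2 * v))
    have h' : #(setC N) ≤ ∑ x ∈ hp N,
        #((Icc 1 (N / x.1 ^ x.2)).filter (fun v => v = 1 ∨ v.Prime)) :=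
      h.trans (Finset.sum_le_sum (fun x _ => Finset.card_image_le))
    exact_mod_cast h'
  refine h1.trans ?_
  have h2 : ∀ x ∈ hp N, (#((Icc 1 (N / x.1 ^ x.2)).filter (fun v => v = 1 ∨ v.Prime)) : ℝ) ≤
      55 * (N / (1 + Real.log N)) * (((x.1 : ℝ) ^ x.2) ^ (-(3 / 4) : ℝ)) := by
    intro x hx
    unfold hp at hx
    rw [mem_filter, mem_product, mem_Icc] at hx
    have hpos : 0 < x.1 ^ x.2 := Nat.pow_pos (by omega)
    have := card_one_prime hpos hx.2
    push_cast at this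
    exact this
  refine (Finset.sum_le_sum h2).trans ?_
  rw [← Finset.mul_sum]
  have : 0 ≤ 55 * ((N : ℝ) / (1 + Real.log N)) := by positivity
  gcongr

private lemma card_setD {K : ℝ} (N : ℕ) (hN : 1 ≤ N) (hK0 : 0 ≤ K)
    (hK : ∑ x ∈ hp N, (((x.1 : ℝ) ^ x.2) ^ (-(3 / 4) : ℝ)) ≤ K) :
    (#(setD N) : ℝ) ≤ 5 * (N / (1 + Real.log N)) * K ^ 2 := by
  have hN1 : (1 : ℝ) ≤ N := by exact_mod_cast hN
  have hN0 : (0 : ℝ) < N := by linarith
  have hlN : 0 ≤ Real.log N := Real.log_nonneg hN1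
  have h1 : (#(setD N) : ℝ) ≤
      #((hp N ×ˢ hp N).filter (fun y => y.1.1 ^ y.1.2 * y.2.1 ^ y.2.2 ≤ N)) := by
    exact_mod_cast Finset.card_image_le
  refine h1.trans ?_
  rw [Finset.card_eq_sum_ones, Nat.cast_sum]
  have h2 : ∀ y ∈ (hp N ×ˢ hp N).filter (fun y => y.1.1 ^ y.1.2 * y.2.1 ^ y.2.2 ≤ N),
      ((1 : ℕ) : ℝ) ≤ (N : ℝ) ^ ((3 / 4) : ℝ) * ((((y.1.1 : ℝ) ^ y.1.2) ^ (-(3 / 4) : ℝ)) *
        (((y.2.1 : ℝ) ^ y.2.2) ^ (-(3 / 4) : ℝ))) := by
    intro y hy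
    rw [mem_filter, mem_product] at hy
    obtain ⟨⟨hy1, hy2⟩, hy3⟩ := hy
    unfold hp at hy1 hy2
    rw [mem_filter, mem_product, mem_Icc] at hy1 hy2
    have hp1 : (0 : ℝ) < (y.1.1 : ℝ) ^ y.1.2 := by
      have : (0 : ℝ) < y.1.1 := by
        have : 0 < y.1.1 := by omega
        exact_mod_cast this
      positivity
    have hp2 : (0 : ℝ) < (y.2.1 : ℝ) ^ y.2.2 := by
      have : (0 : ℝ) < y.2.1 := by
        have : 0 < y.2.1 := by omega
        exact_mod_cast this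
      positivity
    have hle : (y.1.1 : ℝ) ^ y.1.2 * (y.2.1 : ℝ) ^ y.2.2 ≤ N := by exact_mod_cast hy3
    rw [← Real.mul_rpow hp1.le hp2.le, Real.rpow_neg (by positivity), ← div_eq_mul_inv,
      le_div_iff₀ (by positivity)]
    push_cast
    rw [one_mul]
    exact Real.rpow_le_rpow (by positivity) hle (by norm_num)
  refine (Finset.sum_le_sum h2).trans ?_
  rw [← Finset.mul_sum]
  have h3 : ∑ y ∈ (hp N ×ˢ hp N).filter (fun y => y.1.1 ^ y.1.2 * y.2.1 ^ y.2.2 ≤ N),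
      ((((y.1.1 : ℝ) ^ y.1.2) ^ (-(3 / 4) : ℝ)) * (((y.2.1 : ℝ) ^ y.2.2) ^ (-(3 / 4) : ℝ))) ≤
      K ^ 2 := by
    refine (Finset.sum_le_sum_of_subset_of_nonneg (filter_subset _ _)
      (fun x _ _ => by positivity)).trans ?_
    rw [Finset.sum_product]
    simp_rw [← Finset.mul_sum]
    rw [← Finset.sum_mul, sq]
    have h0 : 0 ≤ ∑ x ∈ hp N, (((x.1 : ℝ) ^ x.2) ^ (-(3 / 4) : ℝ)) :=
      Finset.sum_nonneg (fun x _ => by positivity)
    gcongr
  have h4 : (N : ℝ) ^ ((3 / 4) : ℝ) ≤ 5 * (N / (1 + Real.log N)) := by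
    rw [← mul_div_assoc, le_div_iff₀ (by linarith)]
    have h := one_add_log_le hN1
    have e : (N : ℝ) ^ ((3 / 4) : ℝ) * (N : ℝ) ^ ((1 / 4) : ℝ) = N := by
      rw [← Real.rpow_add hN0]
      norm_num
    have h' := mul_le_mul_of_nonneg_left h (show 0 ≤ (N : ℝ) ^ ((3 / 4) : ℝ) by positivity)
    nlinarith
  have h5 : 0 ≤ 5 * ((N : ℝ) / (1 + Real.log N)) := by positivity
  exact mul_le_mul h4 h3 (Finset.sum_nonneg (fun x _ => by positivity)) h5

/-- Proof. `n` with at most two prime divisors is `Q Q'` with `Q`, `Q'` equal to `1` or prime powers,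
`Q ≤ Q'`, so `Q ≤ √N`, `Q' ≤ N / Q`. The number of prime powers (and `1`) up to `y ≥ 1` is at most
`C y / (1 + log y)` (`MP6396c4.card_pr_le`, and at most `√y (1 + log y)` higher powers), so the number
of the `n` is at most `∑_{Q ≤ √N} C (N / Q) / (1 + log √N)`, and the sum of `1 / Q` over `1` and the
prime powers up to `√N` is at most `C + log (1 + log N)` (Mertens: `MP6396c4.mertens_interval`, or
`mertens_second` of `Pool.Agent.Lib.MP_ec0ede_nt_EN.MertB`; the higher powers have a convergent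
sum). Alternatively use `MP6396c4.hr_sqf` with `r + 1 ≤ 2` for the squarefree `n`, and for the others
sum over the prime powers `q ^ a`, `a ≥ 2`. -/
theorem few_two : ∃ C : ℝ, 0 < C ∧ ∀ N : ℕ, 16 ≤ N →
    (((Finset.Icc 1 N).filter (fun n => n.primeFactors.card ≤ 2)).card : ℝ) ≤
      C * (N * Real.log (Real.log N) / Real.log N) := by
  obtain ⟨D, hD, hr⟩ := hr_sqf
  obtain ⟨K, hK0, hK⟩ := pow_sum
  refine ⟨41 + 10 * D + 55 * K + 5 * K ^ 2, by positivity, fun N hN => ?_⟩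
  have hN1 : 1 ≤ N := by omega
  have hNr : (16 : ℝ) ≤ N := by exact_mod_cast hN
  have hN0 : (0 : ℝ) < N := by linarith
  have hl16 : (2.7725 : ℝ) ≤ Real.log N := by
    have h1 : Real.log 16 ≤ Real.log N := Real.log_le_log (by norm_num) hNr
    have h2 : Real.log 16 = 4 * Real.log 2 := by
      rw [show (16 : ℝ) = 2 ^ 4 by norm_num, Real.log_pow]
      norm_num
    have := Real.log_two_gt_d9
    linarith
  have hLL : 1 ≤ Real.log (Real.log N) := by
    rw [Real.le_log_iff_exp_le (by linarith)]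
    have := Real.exp_one_lt_d9
    linarith
  set l := Real.log N with hl
  set LL := Real.log l with hLLdef
  have hl0 : 0 < l := by linarith
  have hX : Real.log (1 + l) ≤ 2 * LL := by
    have h1 : Real.log (1 + l) ≤ Real.log (l ^ 2) := Real.log_le_log (by linarith) (by nlinarith)
    rw [Real.log_pow] at h1
    exact_mod_cast h1
  have hKN := sum_hp_le N (hK N)
  have hC := card_setC N hKN
  have hDD := card_setD N hN1 hK0.le hKN
  have h1 := hr 0 N (Real.log (1 + l) + D) hN1 le_rfl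
  have h2 := hr 1 N (Real.log (1 + l) + D) hN1 le_rfl
  rw [← hl] at hC hDD h1 h2
  norm_num at h1 h2
  have hcard := Finset.card_le_card (few_subset N)
  have hu1 := Finset.card_union_le (({1} ∪ sqf 1 N) ∪ sqf 2 N ∪ setC N) (setD N)
  have hu2 := Finset.card_union_le (({1} ∪ sqf 1 N) ∪ sqf 2 N) (setC N)
  have hu3 := Finset.card_union_le ({1} ∪ sqf 1 N) (sqf 2 N)
  have hu4 := Finset.card_union_le {1} (sqf 1 N)
  rw [card_singleton] at hu4
  have htot : (((Finset.Icc 1 N).filter (fun n => n.primeFactors.card ≤ 2)).card : ℝ) ≤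
      1 + #(sqf 1 N) + #(sqf 2 N) + #(setC N) + #(setD N) := by
    have : ((Finset.Icc 1 N).filter (fun n => n.primeFactors.card ≤ 2)).card ≤
      1 + #(sqf 1 N) + #(sqf 2 N) + #(setC N) + #(setD N) := by omega
    exact_mod_cast this
  have hB : (N : ℝ) / (1 + l) ≤ N * LL / l := by
    rw [div_le_div_iff₀ (by linarith) hl0]
    nlinarith [mul_pos hN0 hl0, mul_le_mul_of_nonneg_left hLL (mul_pos hN0 hl0).le]
  have hB1 : 1 ≤ (N : ℝ) / (1 + l) := by
    rw [le_div_iff₀ (by linarith)]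
    have := Real.log_le_sub_one_of_pos hN0
    rw [← hl] at this
    linarith
  have hB2 : (N : ℝ) / (1 + l) * (Real.log (1 + l) + D) ≤ (2 + D) * (N * LL / l) := by
    have h3 : Real.log (1 + l) + D ≤ (2 + D) * LL := by nlinarith
    have h4 : (N : ℝ) / (1 + l) ≤ N / l := by
      apply div_le_div_of_nonneg_left hN0.le hl0 (by linarith)
    have h5 : 0 ≤ Real.log (1 + l) + D := by
      have := Real.log_nonneg (show (1 : ℝ) ≤ 1 + l by linarith)
      linarith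
    calc (N : ℝ) / (1 + l) * (Real.log (1 + l) + D) ≤ N / l * ((2 + D) * LL) := by gcongr
      _ = _ := by ring
  set B := (N : ℝ) * LL / l with hBdef
  have hB0 : 0 ≤ (N : ℝ) / (1 + l) := by positivity
  have hC' : 55 * ((N : ℝ) / (1 + l)) * K ≤ 55 * B * K := by gcongr
  have hD' : 5 * ((N : ℝ) / (1 + l)) * K ^ 2 ≤ 5 * B * K ^ 2 := by gcongr
  have h1' : (#(sqf 1 N) : ℝ) ≤ 10 * B := by
    refine h1.trans ?_
    linarith
  have h2' : (#(sqf 2 N) : ℝ) ≤ 10 * ((2 + D) * B) := by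
    refine h2.trans ?_
    linarith
  nlinarith
end Pool.Agent.C497
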