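import Mathlib

/-!
# MP_c497bd: the numbers with a collision
-/

namespace Pool.Agent.C497

open Classical in
/-- The numbers `n ∈ [1, K]` such that `f n = f n'` for another `n' ∈ [1, K]`. -/
noncomputable def Col (K : ℕ) (f : ℕ → ZMod K) : Finset ℕ :=
  (Finset.Icc 1 K).filter fun n => ∃ n' ∈ Finset.Icc 1 K, n' ≠ n ∧ f n' = f n

theorem mem_col {K : ℕ} {f : ℕ → ZMod K} {n : ℕ} :
    n ∈ Col K f ↔ n ∈ Finset.Icc 1 K ∧ ∃ n' ∈ Finset.Icc 1 K, n' ≠ n ∧ f n' = f n := by
  simp only [Col, Finset.mem_filter]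

theorem col_card (K : ℕ) (f : ℕ → ZMod K) :
    (Col K f).card + 2 * (f '' Set.Icc 1 K).ncard ≤ 2 * K := by
  classical
  have h1 : (f '' Set.Icc 1 K).ncard = ((Finset.Icc 1 K).image f).card := by
    rw [← Set.ncard_coe_finset, Finset.coe_image, Finset.coe_Icc]
  rw [h1]
  have hBsub : Col K f ⊆ Finset.Icc 1 K := fun n hn => (mem_col.1 hn).1
  have h2 : (Finset.Icc 1 K).image f ⊆ (Finset.Icc 1 K \ Col K f).image f ∪ (Col K f).image f := by
    rw [← Finset.image_union, Finset.sdiff_union_of_subset hBsub]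
  have h3 : ((Finset.Icc 1 K).image f).card ≤
      (Finset.Icc 1 K \ Col K f).card + ((Col K f).image f).card :=
    (Finset.card_le_card h2).trans ((Finset.card_union_le _ _).trans
      (Nat.add_le_add_right Finset.card_image_le _))
  have h4 : (Finset.Icc 1 K \ Col K f).card + (Col K f).card = K := by
    rw [Finset.card_sdiff_add_card_eq_card hBsub, Nat.card_Icc]
    omega
  have h5 : 2 * ((Col K f).image f).card ≤ (Col K f).card := by
    apply Finset.mul_card_image_le_card
    intro v hv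
    obtain ⟨n, hn, rfl⟩ := Finset.mem_image.1 hv
    obtain ⟨hn1, n', hn2, hne, hfe⟩ := mem_col.1 hn
    have hn'B : n' ∈ Col K f := mem_col.2 ⟨hn2, n, hn1, hne.symm, hfe.symm⟩
    have h6 : ({n, n'} : Finset ℕ) ⊆ (Col K f).filter (fun x => f x = f n) := by
      intro z hz
      rw [Finset.mem_insert, Finset.mem_singleton] at hz
      rw [Finset.mem_filter]
      rcases hz with rfl | rfl
      · exact ⟨hn, rfl⟩
      · exact ⟨hn'B, hfe⟩
    calc 2 = ({n, n'} : Finset ℕ).card := (Finset.card_pair hne.symm).symm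
      _ ≤ _ := Finset.card_le_card h6
  omega

end Pool.Agent.C497
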