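import Pool.Agent.Lib.MP_c497bd_nt.Core
import Pool.Agent.Lib.MP_c497bd_nt.Asym
import Pool.Agent.Lib.MP_c497bd_nt.Near

/-!
# MP_c497bd: the structure theorem for large `K`
-/

namespace Pool.Agent.C497

/-- The exceptional primes `p ≤ x` of `f` with respect to `G`. -/
def Exc (K x : ℕ) (f : ℕ → ZMod K) (M : ℕ) (G : (ZMod M)ˣ →* Multiplicative (ZMod K)) : Set ℕ :=
  {p : ℕ | p.Prime ∧ p ≤ x ∧ ∃ h : p.Coprime M,
    f p ≠ Multiplicative.toAdd (G (ZMod.unitOfCoprime p h))}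

/-- `f` agrees with `G` at the integers `≤ x` without exceptional prime divisor. -/
theorem agree {K x : ℕ} (hxK : x ≤ K) (f : ℕ → ZMod K)
    (hf : ∀ a b : ℕ, 1 ≤ a → 1 ≤ b → a * b ≤ K → f (a * b) = f a + f b) (M : ℕ)
    (G : (ZMod M)ˣ →* Multiplicative (ZMod K)) (n : ℕ) (hn1 : 1 ≤ n) (hnx : n ≤ x)
    (hn : n.Coprime M) (hE : ∀ p ∈ Exc K x f M G, ¬ p ∣ n) :
    f n = Multiplicative.toAdd (G (ZMod.unitOfCoprime n hn)) := by
  induction n using Nat.strong_induction_on with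
  | _ n ih =>
    rcases Nat.eq_or_lt_of_le hn1 with h1 | h1
    · subst h1
      have h2 := hf 1 1 le_rfl le_rfl (by rw [mul_one]; exact hnx.trans hxK)
      have h3 : f 1 = 0 := by
        rw [mul_one] at h2
        exact left_eq_add.1 h2
      rw [h3]
      have h4 : ZMod.unitOfCoprime 1 hn = 1 := by
        ext
        rw [ZMod.coe_unitOfCoprime]
        simp
      rw [h4, map_one]
      rfl
    · obtain ⟨p, hp, y, rfl⟩ := Nat.exists_prime_and_dvd (by omega : n ≠ 1)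
      have hy1 : 1 ≤ y := by
        rcases Nat.eq_zero_or_pos y with rfl | h
        · simp at h1
        · exact h
      have hpx : p ≤ x := le_trans (Nat.le_mul_of_pos_right p hy1) hnx
      have hyx : y ≤ x := le_trans (Nat.le_mul_of_pos_left y hp.pos) hnx
      have hpM : p.Coprime M := Nat.Coprime.coprime_mul_right hn
      have hyM : y.Coprime M := Nat.Coprime.coprime_mul_left hn
      have hlt : y < p * y := by
        have := hp.two_le
        nlinarith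
      have h5 := ih y hlt hy1 hyx hyM (fun q hq hd => hE q hq (Dvd.dvd.mul_left hd p))
      have h6 : f p = Multiplicative.toAdd (G (ZMod.unitOfCoprime p hpM)) := by
        by_contra hcon
        exact hE p ⟨hp, hpx, hpM, hcon⟩ (Dvd.intro _ rfl)
      rw [hf p y hp.pos hy1 (hnx.trans hxK), h5, h6, ← toAdd_mul, ← map_mul]
      congr 2
      ext
      rw [Units.val_mul, ZMod.coe_unitOfCoprime, ZMod.coe_unitOfCoprime, ZMod.coe_unitOfCoprime]
      push_cast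
      rfl

/-- The structure theorem. -/
theorem structure_large (ε : ℝ) (hε : 0 < ε) : ∃ c : ℝ, 0 < c ∧ c ≤ 1 / 2 ∧ ∃ k₀ : ℕ,
    ∀ (K x : ℕ) (f : ℕ → ZMod K) (M : ℕ) (G : (ZMod M)ˣ →* Multiplicative (ZMod K)), k₀ ≤ K →
    (K : ℝ) ^ (1 - c) ≤ x → x ≤ K →
    (∀ a b : ℕ, 1 ≤ a → 1 ≤ b → a * b ≤ K → f (a * b) = f a + f b) →
    (K : ℝ) - ((f '' Set.Icc 1 K).ncard : ℝ) ≤ (K : ℝ) ^ c →
    1 ≤ M → (M : ℝ) ≤ (K : ℝ) ^ ((3 : ℝ) / 2 - ε) →
    ((Exc K x f M G).ncard : ℝ) ≤ (K : ℝ) ^ c →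
    ∃ i n : ℕ, 1 ≤ i ∧ i * x ≤ 48 * K ∧ 1 ≤ n ∧ n.primeFactors.card ≤ 2 ∧
      2 * K = i * Nat.totient n := by
  classical
  obtain ⟨c₁, hc₁, hc₁2, k₁, hk₁, h⟩ := asym ε hε
  have hev : ∀ᶠ K : ℕ in Filter.atTop, (3 : ℝ) ≤ (K : ℝ) ^ (c₁ / 2) :=
    ((tendsto_rpow_atTop (by positivity : (0 : ℝ) < c₁ / 2)).comp
      tendsto_natCast_atTop_atTop).eventually (Filter.eventually_ge_atTop 3)
  obtain ⟨k₂, hk₂⟩ := hev.exists_forall_of_atTop
  obtain ⟨c, hc⟩ : ∃ c : ℝ, c = c₁ / 2 := ⟨_, rfl⟩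
  refine ⟨c, by rw [hc]; positivity, by rw [hc]; linarith, max k₁ k₂,
    fun K x f M G hK hx hxK hf himg hM hMK hE => ?_⟩
  have hK1 : 1 ≤ K := hk₁.trans ((le_max_left _ _).trans hK)
  have hK1r : (1 : ℝ) ≤ K := by exact_mod_cast hK1
  have hK0 : (0 : ℝ) < K := by linarith
  have hK3 := hk₂ K ((le_max_right _ _).trans hK)
  rw [← hc] at hK3
  have hcc : (K : ℝ) ^ c * (K : ℝ) ^ c = (K : ℝ) ^ c₁ := by
    rw [← Real.rpow_add hK0, hc]
    congr 1
    ring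
  have hx₁ : (K : ℝ) ^ (1 - c₁) ≤ x :=
    (Real.rpow_le_rpow_of_exponent_le hK1r (by rw [hc]; linarith)).trans hx
  have hx0 : 0 < x := by
    have : (0 : ℝ) < x := lt_of_lt_of_le (Real.rpow_pos_of_pos hK0 _) hx
    exact_mod_cast this
  have hfin : (Exc K x f M G).Finite :=
    (Set.finite_Icc 1 x).subset (fun p hp => ⟨hp.1.pos, hp.2.1⟩)
  obtain ⟨E₀, hE₀def⟩ : ∃ E₀ : Finset ℕ, E₀ = hfin.toFinset := ⟨_, rfl⟩
  have hmemE₀ : ∀ p, p ∈ E₀ ↔ p ∈ Exc K x f M G := by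
    intro p
    rw [hE₀def]
    exact hfin.mem_toFinset
  have hEcard : (Exc K x f M G).ncard = E₀.card := by
    rw [hE₀def]
    exact Set.ncard_eq_toFinset_card _ hfin
  rw [hEcard] at hE
  obtain ⟨E₁, hE₁def⟩ : ∃ E₁ : Finset ℕ, E₁ = ((Col K f).erase 1).image Nat.minFac := ⟨_, rfl⟩
  have hE₁card : (E₁.card : ℝ) ≤ 2 * (K : ℝ) ^ c := by
    have h1 : E₁.card ≤ (Col K f).card := by
      rw [hE₁def]
      exact Finset.card_image_le.trans (Finset.card_le_card (Finset.erase_subset _ _))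
    have h2 : ((Col K f).card : ℝ) + 2 * ((f '' Set.Icc 1 K).ncard : ℝ) ≤ 2 * K := by
      exact_mod_cast col_card K f
    have h3 : (E₁.card : ℝ) ≤ (Col K f).card := by exact_mod_cast h1
    linarith
  obtain ⟨E, hEdef⟩ : ∃ E : Finset ℕ, E = E₀ ∪ E₁ := ⟨_, rfl⟩
  have hEp : ∀ p ∈ E, p.Prime := by
    intro p hp
    rw [hEdef, Finset.mem_union] at hp
    rcases hp with hp | hp
    · exact ((hmemE₀ p).1 hp).1
    · rw [hE₁def, Finset.mem_image] at hp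
      obtain ⟨n, hn, rfl⟩ := hp
      exact Nat.minFac_prime (Finset.mem_erase.1 hn).1
  have hEle : (E.card : ℝ) ≤ (K : ℝ) ^ c₁ := by
    have h1 : (E.card : ℝ) ≤ E₀.card + E₁.card := by
      rw [hEdef]
      exact_mod_cast Finset.card_union_le _ _
    have h2 : (0 : ℝ) ≤ (K : ℝ) ^ c := by positivity
    nlinarith
  obtain ⟨h2, h3⟩ := h K x M E.card ((le_max_left _ _).trans hK) hx₁ hM hMK hEle
  have hprod : 0 < ∏ p ∈ E, p := Finset.prod_pos (fun p hp => (hEp p hp).pos)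
  have hm : 0 < M * ∏ p ∈ E, p := Nat.mul_pos hM hprod
  have hω : (M * ∏ p ∈ E, p).primeFactors.card ≤ M.primeFactors.card + E.card := by
    rw [Nat.primeFactors_mul (by omega) hprod.ne', Nat.primeFactors_prod hEp]
    exact Finset.card_union_le _ _
  refine core M (M * ∏ p ∈ E, p) x K (J (M.primeFactors.card + E.card) + 1) hm (Dvd.intro _ rfl)
    hx0 hK1 (Nat.add_le_add_right (J_mono hω) 1) h2 h3 G ?_
  intro y z hy hz hym hzm hy1 hyx hz1 hzx hyz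
  have hav : ∀ w : ℕ, w.Coprime (M * ∏ p ∈ E, p) → ∀ p ∈ E, ¬ p ∣ w := by
    intro w hw p hp hpw
    have h1 : p ∣ M * ∏ p ∈ E, p := Dvd.dvd.mul_left (Finset.dvd_prod_of_mem _ hp) M
    exact (hEp p hp).one_lt.ne' (Nat.Coprime.eq_one_of_dvd (Nat.Coprime.coprime_dvd_left hpw hw) h1)
  have hav₀ : ∀ w : ℕ, w.Coprime (M * ∏ p ∈ E, p) → ∀ p ∈ Exc K x f M G, ¬ p ∣ w := by
    intro w hw p hp
    refine hav w hw p ?_
    rw [hEdef, Finset.mem_union]
    exact Or.inl ((hmemE₀ p).2 hp)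
  have hfyz : f y = f z := by
    rw [agree hxK f hf M G y hy1 hyx hy (hav₀ y hym), agree hxK f hf M G z hz1 hzx hz (hav₀ z hzm),
      hyz]
  have hone : ∀ w w' : ℕ, w.Coprime (M * ∏ p ∈ E, p) → 1 ≤ w → w ≤ x → 1 ≤ w' → w' ≤ x →
      w' ≠ w → f w' = f w → w = 1 := by
    intro w w' hw hw1 hwx hw1' hwx' hne hfw
    by_contra hcon
    have hcol : w ∈ Col K f := mem_col.2 ⟨Finset.mem_Icc.2 ⟨hw1, hwx.trans hxK⟩, w',
      Finset.mem_Icc.2 ⟨hw1', hwx'.trans hxK⟩, hne, hfw⟩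
    have hmem : w.minFac ∈ E := by
      rw [hEdef, Finset.mem_union, hE₁def]
      exact Or.inr (Finset.mem_image_of_mem _ (Finset.mem_erase.2 ⟨hcon, hcol⟩))
    exact hav w hw _ hmem (Nat.minFac_dvd w)
  by_contra hne
  have e1 := hone y z hym hy1 hyx hz1 hzx (fun h => hne h.symm) hfyz.symm
  have e2 := hone z y hzm hz1 hzx hy1 hyx hne hfyz
  exact hne (e1.trans e2.symm)

end Pool.Agent.C497
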