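import Pool.Agent.Lib.MP_c497bd_nt.Prim

/-!
# MP_c497bd: subgroups without nontrivial elements near `1`
-/

namespace Pool.Agent.C497

variable {M k K : ℕ}

/-- Proof. By `hF` and `hpf` we have `k < 3 * Dp u`, `k < 3 * Dp v`. If `u ≠ v` let
`w = u v⁻¹ ≠ 1`; it is `1` modulo `R` and in the kernel, so `k < 3 * Dp w`. Let `d` be the gcd of
`Dp u`, `Dp v`, `Dp w` (divisors of `M`). Modulo `d` we have `-1 = u = w v = 1`, so `d ∣ 2`. But
`M ^ 2 d ≥ Dp u * Dp v * Dp w > k ^ 3 / 27 > 2 M ^ 2`. -/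
theorem two_of_plusFree [NeZero M] (G : (ZMod M)ˣ →* Multiplicative (ZMod K))
    (hst : 54 * M ^ 2 < k ^ 3)
    (hF : ∀ u : (ZMod M)ˣ, G u = 1 → u ≠ 1 → k < 3 * Dm u ∨ k < 3 * Dp u) (R : ℕ) (hR : R ∣ M)
    (hpf : ∀ u : (ZMod M)ˣ, (R : ℤ) ∣ li u - 1 → G u = 1 → u ≠ 1 → ¬ k < 3 * Dm u) :
    ∀ u v : (ZMod M)ˣ, (R : ℤ) ∣ li u - 1 → (R : ℤ) ∣ li v - 1 → G u = 1 → G v = 1 →
      u ≠ 1 → v ≠ 1 → u = v := by
  intro u v hu hv hGu hGv hu1 hv1
  by_contra huv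
  have hpu : k < 3 * Dp u := (hF u hGu hu1).resolve_left (hpf u hu hGu hu1)
  have hpv : k < 3 * Dp v := (hF v hGv hv1).resolve_left (hpf v hv hGv hv1)
  set w : (ZMod M)ˣ := u * v⁻¹ with hw
  have hwv : w * v = u := by rw [hw, inv_mul_cancel_right]
  have hw1 : w ≠ 1 := by
    intro h
    rw [h, one_mul] at hwv
    exact huv hwv.symm
  have hGw : G w = 1 := by rw [hw, map_mul, map_inv, hGu, hGv]; simp
  have hmul : (M : ℤ) ∣ li u - li w * li v := by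
    have := li_mul w v
    rwa [hwv] at this
  have hRM : (R : ℤ) ∣ (M : ℤ) := by exact_mod_cast hR
  have hwR : (R : ℤ) ∣ li w - 1 := by
    have h1 : (R : ℤ) ∣ li w * (li v - 1) := Dvd.dvd.mul_left hv _
    have h2 := dvd_sub (dvd_sub hu (hRM.trans hmul)) h1
    have h3 : li u - 1 - (li u - li w * li v) - li w * (li v - 1) = li w - 1 := by ring
    rwa [h3] at h2
  have hpw : k < 3 * Dp w := (hF w hGw hw1).resolve_left (hpf w hwR hGw hw1)
  have hMpos : 0 < M := Nat.pos_of_ne_zero (NeZero.ne M)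
  have hd : ∀ x : (ZMod M)ˣ, Dp x ∣ M := fun x => by
    have : ((Dp x : ℕ) : ℤ) ∣ (M : ℤ) := Int.gcd_dvd_right _ _
    exact_mod_cast this
  have hd2 : ∀ x : (ZMod M)ˣ, ((Dp x : ℕ) : ℤ) ∣ li x + 1 := fun x => Int.gcd_dvd_left _ _
  generalize ha : Dp u = a at *
  generalize hb : Dp v = b at *
  generalize hc : Dp w = c at *
  have haM : a ∣ M := ha ▸ hd u
  have hbM : b ∣ M := hb ▸ hd v
  have hcM : c ∣ M := hc ▸ hd w
  have hau : (a : ℤ) ∣ li u + 1 := ha ▸ hd2 u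
  have hbv : (b : ℤ) ∣ li v + 1 := hb ▸ hd2 v
  have hcw : (c : ℤ) ∣ li w + 1 := hc ▸ hd2 w
  set d : ℕ := (a.gcd b).gcd c with hdd
  have hda : d ∣ a := (Nat.gcd_dvd_left _ _).trans (Nat.gcd_dvd_left _ _)
  have hdb : d ∣ b := (Nat.gcd_dvd_left _ _).trans (Nat.gcd_dvd_right _ _)
  have hdc : d ∣ c := Nat.gcd_dvd_right _ _
  have hd2' : d ∣ 2 := by
    have h1 : (d : ℤ) ∣ li u + 1 := (Int.natCast_dvd_natCast.2 hda).trans hau
    have h2 : (d : ℤ) ∣ li v + 1 := (Int.natCast_dvd_natCast.2 hdb).trans hbv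
    have h3 : (d : ℤ) ∣ li w + 1 := (Int.natCast_dvd_natCast.2 hdc).trans hcw
    have h4 : (d : ℤ) ∣ li u - li w * li v :=
      (Int.natCast_dvd_natCast.2 (hda.trans haM)).trans hmul
    have h5 : (d : ℤ) ∣ (li u + 1) - (li u - li w * li v) - li w * (li v + 1) + (li w + 1) :=
      dvd_add (dvd_sub (dvd_sub h1 h4) (Dvd.dvd.mul_left h2 _)) h3
    have h6 : (li u + 1) - (li u - li w * li v) - li w * (li v + 1) + (li w + 1) = 2 := by ring
    rw [h6] at h5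
    exact_mod_cast h5
  have hd3 : d ≤ 2 := Nat.le_of_dvd (by norm_num) hd2'
  have hl1 : a.lcm b ≤ M := Nat.le_of_dvd hMpos (Nat.lcm_dvd haM hbM)
  have hl2 : (a.gcd b).lcm c ≤ M :=
    Nat.le_of_dvd hMpos (Nat.lcm_dvd ((Nat.gcd_dvd_left _ _).trans haM) hcM)
  have habc : a * b * c = a.lcm b * ((a.gcd b).lcm c) * d := by
    have h1 : a.gcd b * a.lcm b = a * b := Nat.gcd_mul_lcm a b
    have h2 : d * (a.gcd b).lcm c = a.gcd b * c := Nat.gcd_mul_lcm _ _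
    calc a * b * c = (a.gcd b * a.lcm b) * c := by rw [h1]
      _ = a.lcm b * (a.gcd b * c) := by ring
      _ = a.lcm b * (d * (a.gcd b).lcm c) := by rw [h2]
      _ = _ := by ring
  have hle : a * b * c ≤ M * M * 2 := by
    rw [habc]
    exact Nat.mul_le_mul (Nat.mul_le_mul hl1 hl2) hd3
  have h1 : k * k ≤ (3 * a) * (3 * b) := Nat.mul_le_mul hpu.le hpv.le
  have h2 : k * k * k ≤ (3 * a) * (3 * b) * (3 * c) := Nat.mul_le_mul h1 hpw.le
  have h3 : (3 * a) * (3 * b) * (3 * c) = 27 * (a * b * c) := by ring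
  have h4 : k ^ 3 = k * k * k := by ring
  have h5 : M ^ 2 = M * M := by ring
  rw [h3] at h2
  rw [h4, h5] at hst
  omega

/-- Proof. Let `u` be an element with `u = 1` modulo `R`, `G u = 1`, `u ≠ 1` and
`k < 3 * Dm u`. Since `Q`, `R` are coprime, `Dm u = R * d` with `d = gcd (li u - 1, Q)`, and
`3 R d > k`, `12 Q R ≤ Q k` give `d > 4`. So for the prime `q` of `Q` we have `q ∣ li u - 1`,
and `4 ∣ li u - 1` if `q = 2`. Now `prim_of_mem` contradicts `hP`. -/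
theorem plusFree_primePow [NeZero M] (G : (ZMod M)ˣ →* Multiplicative (ZMod K))
    (hP : ∀ q : ℕ, q.Prime → q ∣ M → ∃ v : (ZMod M)ˣ, ((M / q : ℕ) : ℤ) ∣ li v - 1 ∧ G v ≠ 1)
    (Q R : ℕ) (hQR : Q * R = M) (hcop : Q.Coprime R) (hQ : IsPrimePow Q)
    (hbig : 12 * M ≤ Q * k) :
    ∀ u : (ZMod M)ˣ, (R : ℤ) ∣ li u - 1 → G u = 1 → u ≠ 1 → ¬ k < 3 * Dm u := by
  intro u hu hGu hu1 hk
  have hMpos : 0 < M := Nat.pos_of_ne_zero (NeZero.ne M)
  obtain ⟨q, e, hq, he, rfl⟩ := hQ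
  have hq : q.Prime := hq.nat_prime
  have hQpos : 0 < q ^ e := Nat.pos_of_ne_zero (by rintro h; rw [h] at hQR; omega)
  have hRpos : 0 < R := Nat.pos_of_ne_zero (by rintro h; rw [h] at hQR; omega)
  set d : ℕ := Int.gcd (li u - 1) ((q ^ e : ℕ) : ℤ) with hd
  have hDm : Dm u = d * R := by
    have h1 : Dm u = (li u - 1).natAbs.gcd M := rfl
    have h2 : d = (li u - 1).natAbs.gcd (q ^ e) := rfl
    have h3 : (li u - 1).natAbs.gcd R = R :=
      Nat.gcd_eq_right (Int.natCast_dvd.1 hu)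
    have h4 : ∀ n : ℕ, n.gcd M = n.gcd (q ^ e) * n.gcd R := fun n => by
      rw [← hQR, Nat.Coprime.gcd_mul _ hcop]
    rw [h1, h2, h4, h3]
  have hk12 : 12 * R ≤ k := by
    have h1 : q ^ e * (12 * R) ≤ q ^ e * k := by
      calc q ^ e * (12 * R) = 12 * M := by rw [← hQR]; ring
        _ ≤ _ := hbig
    exact Nat.le_of_mul_le_mul_left h1 hQpos
  have hd4 : 4 < d := by
    rw [hDm] at hk
    have h1 : 12 * R < 3 * (d * R) := lt_of_le_of_lt hk12 hk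
    have h2 : 4 * R < d * R := by omega
    exact Nat.lt_of_mul_lt_mul_right h2
  have hdQ : d ∣ q ^ e := by
    have : ((d : ℕ) : ℤ) ∣ ((q ^ e : ℕ) : ℤ) := Int.gcd_dvd_right _ _
    exact_mod_cast this
  have hdu : ((d : ℕ) : ℤ) ∣ li u - 1 := Int.gcd_dvd_left _ _
  obtain ⟨j, hje, hj⟩ := (Nat.dvd_prime_pow hq).1 hdQ
  have hj1 : 1 ≤ j := by
    by_contra h
    have : j = 0 := by omega
    rw [this, pow_zero] at hj
    omega
  have hqd : q ∣ d := by rw [hj]; exact dvd_pow_self _ (by omega)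
  have hq1 : (q : ℤ) ∣ li u - 1 := (Int.natCast_dvd_natCast.2 hqd).trans hdu
  have hq2 : q = 2 → (4 : ℤ) ∣ li u - 1 := by
    intro h
    have hj2 : 2 ≤ j := by
      by_contra h3
      have h4 : j = 1 := by omega
      rw [h4, h] at hj
      omega
    have h5 : 4 ∣ d := by
      rw [hj, h]
      calc 4 = 2 ^ 2 := by norm_num
        _ ∣ 2 ^ j := pow_dvd_pow _ hj2
    have h6 : (((4 : ℕ)) : ℤ) ∣ li u - 1 := (Int.natCast_dvd_natCast.2 h5).trans hdu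
    exact_mod_cast h6
  have hqR : q.Coprime R := Nat.Coprime.coprime_dvd_left (dvd_pow_self _ he.ne') hcop
  have hall := prim_of_mem G q e R hq hQR hqR u hGu hu1 hu hq1 hq2
  have hqM : q ∣ M := by
    rw [← hQR]
    exact (dvd_pow_self _ he.ne').trans (Nat.dvd_mul_right _ _)
  obtain ⟨v, hv1, hv2⟩ := hP q hq hqM
  exact hv2 (hall v hv1)

end Pool.Agent.C497
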