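import Pool.Agent.Lib.MP_c497bd_nt.Final
import Pool.Agent.Lib.MP_c497bd_nt.EW.Dens

/-!
# MP_c497bd: density zero with the primes up to `K ^ (1 - c)`
-/

namespace Pool.Agent.C497

open Filter Topology

/-- A number with at most two prime divisors has a prime power divisor `≥ √n`. -/
theorem exists_big (n : ℕ) (hn : 1 < n) (h : n.primeFactors.card ≤ 2) :
    ∃ Q : ℕ, IsPrimePow Q ∧ Q ∣ n ∧ n ≤ Q ^ 2 := by
  have hn0 : n ≠ 0 := by omega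
  have hpp : ∀ p ∈ n.primeFactors, IsPrimePow (p ^ n.factorization p) := by
    intro p hp
    have hpr := Nat.prime_of_mem_primeFactors hp
    rw [isPrimePow_nat_iff]
    exact ⟨p, n.factorization p, hpr, hpr.factorization_pos_of_dvd hn0
      (Nat.dvd_of_mem_primeFactors hp), rfl⟩
  have hprod : ∏ p ∈ n.primeFactors, p ^ n.factorization p = n :=
    Nat.prod_factorization_pow_eq_self hn0
  have hne : n.primeFactors.Nonempty := Nat.nonempty_primeFactors.2 hn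
  obtain ⟨p, hp, hmax⟩ := Finset.exists_max_image n.primeFactors (fun p => p ^ n.factorization p) hne
  refine ⟨p ^ n.factorization p, hpp p hp, Nat.ordProj_dvd n p, ?_⟩
  calc n = ∏ q ∈ n.primeFactors, q ^ n.factorization q := hprod.symm
    _ ≤ ∏ _q ∈ n.primeFactors, p ^ n.factorization p := Finset.prod_le_prod' (fun q hq => hmax q hq)
    _ = (p ^ n.factorization p) ^ n.primeFactors.card := by rw [Finset.prod_const]
    _ ≤ (p ^ n.factorization p) ^ 2 := Nat.pow_le_pow_right (hpp p hp).pos h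

/-- The conclusion of the structure theorem gives a large prime power `Q` with `φ Q ∣ 2 K`. -/
theorem big_of_structure {K x i n : ℕ} (hK : 576 ^ 6 ≤ K) (hx : K ≤ x ^ 2) (hi : 1 ≤ i)
    (hix : i * x ≤ 48 * K) (hn1 : 1 ≤ n) (hn : n.primeFactors.card ≤ 2)
    (hKn : 2 * K = i * Nat.totient n) :
    ∃ Q : ℕ, IsPrimePow Q ∧ K ≤ Q ^ 5 ∧ Nat.totient Q ∣ 2 * K := by
  have h1 : x ≤ 24 * Nat.totient n := by
    have h2 : i * x ≤ i * (24 * Nat.totient n) := by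
      calc i * x ≤ 48 * K := hix
        _ = 24 * (2 * K) := by ring
        _ = i * (24 * Nat.totient n) := by rw [hKn]; ring
    exact Nat.le_of_mul_le_mul_left h2 hi
  have h2 : x ≤ 24 * n := h1.trans (Nat.mul_le_mul_left _ (Nat.totient_le n))
  have h3 : K ≤ 576 * n ^ 2 := by
    calc K ≤ x ^ 2 := hx
      _ ≤ (24 * n) ^ 2 := Nat.pow_le_pow_left h2 2
      _ = 576 * n ^ 2 := by ring
  have hn2 : 1 < n := by
    by_contra hcon
    have : n = 1 := by omega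
    subst this
    norm_num at h3
    omega
  obtain ⟨Q, hQ, hQn, hnQ⟩ := exists_big n hn2 hn
  have h4 : K ≤ 576 * Q ^ 4 := by
    calc K ≤ 576 * n ^ 2 := h3
      _ ≤ 576 * (Q ^ 2) ^ 2 := Nat.mul_le_mul_left _ (Nat.pow_le_pow_left hnQ 2)
      _ = 576 * Q ^ 4 := by ring
  have h5 : 576 ≤ Q := by
    by_contra hcon
    push Not at hcon
    have h6 : Q ^ 4 < 576 ^ 4 := Nat.pow_lt_pow_left hcon (by norm_num)
    have h7 : (576 : ℕ) ^ 6 = 576 * 576 ^ 4 * 576 := by norm_num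
    have h8 : K < 576 * 576 ^ 4 := lt_of_le_of_lt h4 (Nat.mul_lt_mul_of_pos_left h6 (by norm_num))
    omega
  refine ⟨Q, hQ, ?_, ?_⟩
  · calc K ≤ 576 * Q ^ 4 := h4
      _ ≤ Q * Q ^ 4 := Nat.mul_le_mul_right _ h5
      _ = Q ^ 5 := by ring
  · rw [hKn]
    exact Dvd.dvd.mul_left (Nat.totient_dvd_of_dvd hQn) i

/-- The structure theorem with a real bound `x` for the primes. -/
theorem key (ε : ℝ) (hε : 0 < ε) : ∃ c : ℝ, 0 < c ∧ c ≤ 1 / 2 ∧ ∃ k₀ : ℕ, ∀ (K : ℕ) (x : ℝ),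
    k₀ ≤ K → (K : ℝ) ^ (1 - c) ≤ x → x ≤ K →
    ∀ (f : ℕ → ZMod K) (M : ℕ) (G : (ZMod M)ˣ →* Multiplicative (ZMod K)),
    (∀ a b : ℕ, 1 ≤ a → 1 ≤ b → a * b ≤ K → f (a * b) = f a + f b) →
    (K : ℝ) - ((f '' Set.Icc 1 K).ncard : ℝ) ≤ (K : ℝ) ^ c →
    1 ≤ M → (M : ℝ) ≤ (K : ℝ) ^ ((3 : ℝ) / 2 - ε) →
    (({p : ℕ | p.Prime ∧ (p : ℝ) ≤ x ∧ ∃ h : p.Coprime M,
      f p ≠ Multiplicative.toAdd (G (ZMod.unitOfCoprime p h))}.ncard : ℕ) : ℝ) ≤ (K : ℝ) ^ c →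
    576 ^ 6 ≤ K ∧ K ≤ ⌊x⌋₊ ^ 2 ∧ x ≤ 2 * ⌊x⌋₊ ∧ ∃ i n : ℕ, 1 ≤ i ∧ i * ⌊x⌋₊ ≤ 48 * K ∧ 1 ≤ n ∧
      n.primeFactors.card ≤ 2 ∧ 2 * K = i * Nat.totient n := by
  obtain ⟨c, hc, hc2, k₀, h⟩ := structure_large ε hε
  have hev : ∀ᶠ K : ℕ in atTop, (K : ℝ) ^ (1 - c) + 1 ≤ (K : ℝ) ^ (1 - c / 2) := by
    have h1 : Tendsto (fun K : ℕ => (K : ℝ) ^ (c / 2)) atTop atTop :=
      (tendsto_rpow_atTop (by positivity)).comp tendsto_natCast_atTop_atTop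
    filter_upwards [h1.eventually (eventually_ge_atTop 2), eventually_ge_atTop 1] with K hK hK1
    have hK1' : (1 : ℝ) ≤ K := by exact_mod_cast hK1
    have hK0 : (0 : ℝ) < K := by linarith
    have h2 : (K : ℝ) ^ (1 - c / 2) = (K : ℝ) ^ (c / 2) * (K : ℝ) ^ (1 - c) := by
      rw [← Real.rpow_add hK0]
      congr 1
      ring
    have h3 : (1 : ℝ) ≤ (K : ℝ) ^ (1 - c) := Real.one_le_rpow hK1' (by linarith)
    rw [h2]
    nlinarith
  obtain ⟨k₁, hk₁⟩ := hev.exists_forall_of_atTop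
  refine ⟨c / 2, by positivity, by linarith, max (max k₀ k₁) (576 ^ 6), ?_⟩
  intro K x hK hx hxK f M G hf hinj hM hMK hE
  have hK0 : k₀ ≤ K := le_trans (le_trans (le_max_left _ _) (le_max_left _ _)) hK
  have hKev := hk₁ K (le_trans (le_trans (le_max_right _ _) (le_max_left _ _)) hK)
  have hKb : 576 ^ 6 ≤ K := le_trans (le_max_right _ _) hK
  have hK1 : (1 : ℝ) ≤ K := by
    have : 1 ≤ K := le_trans (by norm_num) hKb
    exact_mod_cast this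
  have hKpos : (0 : ℝ) < K := by linarith
  have hx0 : 0 ≤ x := le_trans (Real.rpow_nonneg hKpos.le _) hx
  have hfl : x < ⌊x⌋₊ + 1 := Nat.lt_floor_add_one x
  have hle : (K : ℝ) ^ (1 - c) ≤ (⌊x⌋₊ : ℝ) := by linarith
  have hfK : ⌊x⌋₊ ≤ K := by
    have h1 : (⌊x⌋₊ : ℝ) ≤ K := (Nat.floor_le hx0).trans hxK
    exact_mod_cast h1
  have h1f : (1 : ℝ) ≤ (⌊x⌋₊ : ℝ) := (Real.one_le_rpow hK1 (by linarith)).trans hle
  have hset : Exc K ⌊x⌋₊ f M G = {p : ℕ | p.Prime ∧ (p : ℝ) ≤ x ∧ ∃ h : p.Coprime M,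
      f p ≠ Multiplicative.toAdd (G (ZMod.unitOfCoprime p h))} := by
    ext p
    unfold Exc
    rw [Set.mem_ofPred_eq, Set.mem_ofPred_eq, Nat.le_floor_iff hx0]
  have hsq : K ≤ ⌊x⌋₊ ^ 2 := by
    have h2 : (K : ℝ) ≤ (⌊x⌋₊ : ℝ) ^ 2 := by
      calc (K : ℝ) = (K : ℝ) ^ (1 : ℝ) := (Real.rpow_one _).symm
        _ ≤ (K : ℝ) ^ ((1 - c) * 2) := Real.rpow_le_rpow_of_exponent_le hK1 (by linarith)
        _ = ((K : ℝ) ^ (1 - c)) ^ 2 := by
            rw [Real.rpow_mul hKpos.le]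
            norm_cast
        _ ≤ (⌊x⌋₊ : ℝ) ^ 2 := pow_le_pow_left₀ (Real.rpow_nonneg hKpos.le _) hle 2
    exact_mod_cast h2
  have hE' : ((Exc K ⌊x⌋₊ f M G).ncard : ℝ) ≤ (K : ℝ) ^ c := by
    rw [hset]
    exact hE.trans (Real.rpow_le_rpow_of_exponent_le hK1 (by linarith))
  have hinj' : (K : ℝ) - ((f '' Set.Icc 1 K).ncard : ℝ) ≤ (K : ℝ) ^ c :=
    hinj.trans (Real.rpow_le_rpow_of_exponent_le hK1 (by linarith))
  exact ⟨hKb, hsq, by linarith, h K ⌊x⌋₊ f M G hK0 hle hfK hf hinj' hM hMK hE'⟩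

end Pool.Agent.C497
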