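import Pool.Agent.Lib.MP_c497bd_nt.Defs

/-!
# MP_c497bd: a kernel element which is `1` modulo `R q` contains the top layer at `q`
-/

namespace Pool.Agent.C497

variable {M k K : ℕ}

/-- exact exponent of `q` in `x ^ q - 1` -/
private theorem prim_step {q c : ℕ} (hq : q.Prime) (hc : 1 ≤ c) (hc2 : q = 2 → 2 ≤ c) {x : ℤ}
    (h1 : ((q : ℤ)) ^ c ∣ x - 1) (h2 : ¬ ((q : ℤ)) ^ (c + 1) ∣ x - 1) :
    ((q : ℤ)) ^ (c + 1) ∣ x ^ q - 1 ∧ ¬ ((q : ℤ)) ^ (c + 2) ∣ x ^ q - 1 := by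
  rcases hq.eq_two_or_odd' with h | h
  · subst h
    have hc3 := hc2 rfl
    obtain ⟨z, hz⟩ := h1
    obtain ⟨b, rfl⟩ : ∃ b, c = b + 1 := ⟨c - 1, by omega⟩
    obtain ⟨b, rfl⟩ : ∃ b', b = b' + 1 := ⟨b - 1, by omega⟩
    push_cast at hz h2 ⊢
    have hx : x ^ 2 - 1 = 2 ^ (b + 1 + 1 + 1) * (z * (2 ^ (b + 1) * z + 1)) := by
      have : x = 2 ^ (b + 1 + 1) * z + 1 := by linarith
      rw [this]; ring
    refine ⟨⟨_, hx⟩, ?_⟩
    rintro ⟨t, ht⟩
    rw [hx, show (2 : ℤ) ^ (b + 1 + 1 + 2) * t = 2 ^ (b + 1 + 1 + 1) * (2 * t) by ring] at ht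
    have h3 := mul_left_cancel₀ (pow_ne_zero _ (by norm_num : (2 : ℤ) ≠ 0)) ht
    have h4 : (2 : ℤ) ∣ z * (2 ^ (b + 1) * z + 1) := ⟨t, h3⟩
    rcases Int.prime_two.dvd_or_dvd h4 with h5 | h5
    · obtain ⟨s, rfl⟩ := h5
      exact h2 ⟨s, by rw [hz]; ring⟩
    · have h6 : (2 : ℤ) ∣ 2 ^ (b + 1) * z := ⟨2 ^ b * z, by ring⟩
      have h7 := (Int.dvd_add_right h6).1 h5
      omega
  · have hqx : (q : ℤ) ∣ x - 1 := (dvd_pow_self _ (by omega)).trans h1
    have hqp : Prime (q : ℤ) := Nat.prime_iff_prime_int.1 hq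
    have hx : ¬ (q : ℤ) ∣ x := by
      intro h3
      have h4 : (q : ℤ) ∣ 1 := by
        have := dvd_sub h3 hqx
        simpa using this
      exact hqp.not_unit (isUnit_of_dvd_one h4)
    have h5 := Int.emultiplicity_pow_sub_pow hq h hqx hx q
    rw [one_pow, emultiplicity_eq_coe.2 ⟨h1, h2⟩] at h5
    have h7 : emultiplicity q q = 1 := by
      have := (Nat.finiteMultiplicity_iff.2 ⟨hq.ne_one, hq.pos⟩).emultiplicity_self
      exact this
    have h6 : emultiplicity (q : ℤ) (x ^ q - 1) = ((c + 1 : ℕ) : ℕ∞) := by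
      rw [h5, h7]; push_cast; rfl
    exact emultiplicity_eq_coe.1 h6

/-- the top layer from an element of exact exponent `e - 1` -/
private theorem prim_top [NeZero M] (G : (ZMod M)ˣ →* Multiplicative (ZMod K)) (q c R : ℕ)
    (hq : q.Prime) (hc : 1 ≤ c) (hM : q ^ (c + 1) * R = M) (hcop : q.Coprime R) (w : (ZMod M)ˣ)
    (hG : G w = 1) (hR : (R : ℤ) ∣ li w - 1) (h1 : ((q : ℤ)) ^ c ∣ li w - 1)
    (h2 : ¬ ((q : ℤ)) ^ (c + 1) ∣ li w - 1) :
    ∀ v : (ZMod M)ˣ, ((M / q : ℕ) : ℤ) ∣ li v - 1 → G v = 1 := by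
  intro v hv
  have hMq : M / q = q ^ c * R := by
    rw [← hM, pow_succ, mul_assoc, mul_comm q R, ← mul_assoc]
    exact Nat.mul_div_cancel _ hq.pos
  rw [hMq] at hv
  push_cast at hv
  obtain ⟨y, hy⟩ := hv
  have hcop2 : IsCoprime ((q : ℤ) ^ c) (R : ℤ) := by
    have : IsCoprime (q : ℤ) (R : ℤ) := Nat.isCoprime_iff_coprime.2 hcop
    exact this.pow_left
  obtain ⟨z, hz⟩ := hcop2.mul_dvd h1 hR
  have hqz : ¬ (q : ℤ) ∣ z := by
    rintro ⟨s, rfl⟩
    exact h2 ⟨R * s, by rw [hz]; ring⟩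
  have hqp : Prime (q : ℤ) := Nat.prime_iff_prime_int.1 hq
  have hcz : IsCoprime z (q : ℤ) := ((hqp.coprime_iff_not_dvd).2 hqz).symm
  obtain ⟨a, b, hab⟩ := hcz
  -- the exponent
  set j : ℕ := ((a * y) % (q : ℤ)).toNat with hj
  have hq0 : (q : ℤ) ≠ 0 := by exact_mod_cast hq.ne_zero
  have hj2 : (j : ℤ) = (a * y) % (q : ℤ) := by
    rw [hj, Int.toNat_of_nonneg (Int.emod_nonneg _ hq0)]
  have hj3 : (q : ℤ) ∣ a * y - j := by
    rw [hj2]; exact Int.dvd_self_sub_emod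
  obtain ⟨t, ht⟩ := hj3
  -- powers
  have hpw : ∀ n : ℕ, ∃ s : ℤ, li w ^ n = 1 + (q : ℤ) ^ c * R * (z * n) + M * s := by
    intro n
    have hMM : (M : ℤ) = (q : ℤ) ^ (c + 1) * R := by rw [← hM]; push_cast; ring
    have hlw : li w = 1 + (q : ℤ) ^ c * R * z := by linarith
    induction n with
    | zero => exact ⟨0, by simp⟩
    | succ n ih =>
      obtain ⟨s, hs⟩ := ih
      obtain ⟨d, rfl⟩ : ∃ d, c = d + 1 := ⟨c - 1, by omega⟩
      refine ⟨s * (1 + (q : ℤ) ^ (d + 1) * R * z) + (q : ℤ) ^ d * R * z * z * n, ?_⟩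
      rw [pow_succ, hs, hlw, hMM]
      push_cast
      ring
  have hwj : w ^ j = v := by
    apply li_ext
    obtain ⟨s, hs⟩ := hpw j
    have h5 := li_pow w j
    have h6 : (M : ℤ) ∣ li w ^ j - li v := by
      have hMM : (M : ℤ) = (q : ℤ) ^ (c + 1) * R := by rw [← hM]; push_cast; ring
      refine ⟨s - z * t - b * y, ?_⟩
      have hlv : li v = 1 + (q : ℤ) ^ c * R * y := by linarith
      rw [hs, hlv, hMM]
      have hjt : (j : ℤ) = a * y - q * t := by linarith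
      rw [hjt]
      have : a * z = 1 - b * q := by linarith
      linear_combination ((q : ℤ) ^ c * R * y) * this
    have h7 := dvd_add h5 h6
    simpa using h7
  rw [← hwj, map_pow, hG, one_pow]

/-- descending induction on the exponent -/
private theorem prim_ind [NeZero M] (G : (ZMod M)ˣ →* Multiplicative (ZMod K)) (q R : ℕ)
    (hq : q.Prime) (hcop : q.Coprime R) (d : ℕ) : ∀ (c : ℕ), 1 ≤ c → (q = 2 → 2 ≤ c) →
    q ^ (c + 1 + d) * R = M → ∀ w : (ZMod M)ˣ, G w = 1 → (R : ℤ) ∣ li w - 1 →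
    ((q : ℤ)) ^ c ∣ li w - 1 → ¬ ((q : ℤ)) ^ (c + 1) ∣ li w - 1 →
    ∀ v : (ZMod M)ˣ, ((M / q : ℕ) : ℤ) ∣ li v - 1 → G v = 1 := by
  induction d with
  | zero =>
    intro c hc _ hM w hG hR h1 h2
    exact prim_top G q c R hq hc hM hcop w hG hR h1 h2
  | succ d ih =>
    intro c hc hc2 hM w hG hR h1 h2
    obtain ⟨h3, h4⟩ := prim_step hq hc hc2 h1 h2
    have h5 := li_pow w q
    have hMM : (M : ℤ) = (q : ℤ) ^ (c + 1 + (d + 1)) * R := by rw [← hM]; push_cast; ring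
    have h6 : (q : ℤ) ^ (c + 2) ∣ li (w ^ q) - li w ^ q := by
      refine Dvd.dvd.trans ?_ h5
      rw [hMM]
      exact Dvd.dvd.mul_right (pow_dvd_pow _ (by omega)) _
    have h7 : (R : ℤ) ∣ li (w ^ q) - li w ^ q := by
      refine Dvd.dvd.trans ?_ h5
      rw [hMM]
      exact Dvd.intro_left _ rfl
    refine ih (c + 1) (by omega) (fun h => by have := hc2 h; omega) ?_ (w ^ q) ?_ ?_ ?_ ?_
    · rw [← hM]; congr 2; omega
    · rw [map_pow, hG, one_pow]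
    · have h8 : (R : ℤ) ∣ li w ^ q - 1 := by
        have := sub_dvd_pow_sub_pow (li w) 1 q
        rw [one_pow] at this
        exact hR.trans this
      have := dvd_add h7 h8
      simpa using this
    · have h8 : (q : ℤ) ^ (c + 1) ∣ li (w ^ q) - li w ^ q :=
        (pow_dvd_pow _ (by omega)).trans h6
      have := dvd_add h8 h3
      simpa using this
    · intro h9
      have := dvd_sub h9 h6
      apply h4
      simpa using this

/-- Proof. Among the `w` with `G w = 1`, `w ≠ 1`, `R ∣ li w - 1`, `q ∣ li w - 1` (`4 ∣ li w - 1` if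
`q = 2`) choose one such that the exponent `c` of `q` in `li w - 1` (as an integer different from
`0` modulo `q ^ e`; so `1 ≤ c < e`, and `2 ≤ c` if `q = 2`) is maximal. If `c ≤ e - 2`, then `w ^ q`
has the exponent `c + 1 < e` (`(1 + q ^ c z) ^ q = 1 + q ^ (c + 1) z` modulo `q ^ (c + 2)`; cf.
`Int.emultiplicity_pow_prime_sub_pow_prime` for odd `q`, `w ^ 2 - 1 = (w - 1) (w + 1)` for `q = 2`),
is `1` modulo `R` and different from `1`; a contradiction. So `c = e - 1`, `e ≥ 2` and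
`li w = 1 + (M / q) z` with `q ∤ z`. Since `M ∣ (M / q) ^ 2`, `w ^ j` is `1 + (M / q) z j` modulo `M`;
so every `v = 1` modulo `M / q` is a power of `w`. -/
theorem prim_of_mem [NeZero M] (G : (ZMod M)ˣ →* Multiplicative (ZMod K)) (q e R : ℕ)
    (hq : q.Prime) (hM : q ^ e * R = M) (hcop : q.Coprime R) (u : (ZMod M)ˣ) (hG : G u = 1)
    (hne : u ≠ 1) (hR : (R : ℤ) ∣ li u - 1) (hq1 : (q : ℤ) ∣ li u - 1)
    (hq2 : q = 2 → (4 : ℤ) ∣ li u - 1) :
    ∀ v : (ZMod M)ˣ, ((M / q : ℕ) : ℤ) ∣ li v - 1 → G v = 1 := by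
  have hM1 : ¬ (M : ℤ) ∣ li u - 1 := by
    intro h
    apply hne
    apply li_ext
    have := dvd_sub h (li_one (M := M))
    simpa using this
  have hqe : ¬ ((q : ℤ)) ^ e ∣ li u - 1 := by
    intro h
    apply hM1
    have hcop2 : IsCoprime ((q : ℤ) ^ e) (R : ℤ) := by
      have : IsCoprime (q : ℤ) (R : ℤ) := Nat.isCoprime_iff_coprime.2 hcop
      exact this.pow_left
    have h3 := hcop2.mul_dvd h hR
    have hMM : (M : ℤ) = (q : ℤ) ^ e * R := by rw [← hM]; push_cast; ring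
    rw [hMM]; exact h3
  classical
  have hex : ∃ n : ℕ, ¬ ((q : ℤ)) ^ n ∣ li u - 1 := ⟨e, hqe⟩
  obtain ⟨n, hn1, hn2⟩ : ∃ n : ℕ, ¬ ((q : ℤ)) ^ n ∣ li u - 1 ∧
      ∀ m < n, ((q : ℤ)) ^ m ∣ li u - 1 :=
    ⟨Nat.find hex, Nat.find_spec hex, fun m hm => not_not.1 (Nat.find_min hex hm)⟩
  have hne2 : n ≤ e := by
    by_contra h
    exact hqe (hn2 e (by omega))
  have h2n : 2 ≤ n := by
    by_contra h
    apply hn1
    have h3 : ((q : ℤ)) ^ n ∣ (q : ℤ) := by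
      calc ((q : ℤ)) ^ n ∣ (q : ℤ) ^ 1 := pow_dvd_pow _ (by omega)
        _ = q := pow_one _
    exact h3.trans hq1
  have h3n : q = 2 → 3 ≤ n := by
    intro h
    by_contra h4
    apply hn1
    have h5 := hq2 h
    subst h
    have h3 : (((2 : ℕ) : ℤ)) ^ n ∣ (4 : ℤ) := by
      calc (((2 : ℕ) : ℤ)) ^ n ∣ ((2 : ℕ) : ℤ) ^ 2 := pow_dvd_pow _ (by omega)
        _ = 4 := by norm_num
    exact h3.trans h5
  obtain ⟨c, rfl⟩ : ∃ c, n = c + 1 := ⟨n - 1, by omega⟩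
  obtain ⟨d, rfl⟩ : ∃ d, e = c + 1 + d := ⟨e - (c + 1), by omega⟩
  exact prim_ind G q R hq hcop d c (by omega) (fun h => by have := h3n h; omega) hM u hG hR
    (hn2 c (by omega)) hn1

end Pool.Agent.C497
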