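import Pool.Agent.Lib.MP_c497bd_nt.Basis
import Pool.Agent.Lib.MP_c497bd_nt.Box

/-!
# MP_c497bd: a short vector if there is no point in the box
-/

namespace Pool.Agent.C497

theorem short_of_noPt (M m k L : ℕ) (hM : 0 < M) (hMm : M ∣ m) (hm : 0 < m) (hk : 0 < k)
    (hL : J m.primeFactors.card ≤ L) (hML : 256 * L ^ 2 * M ≤ k ^ 2) (h : ℤ)
    (hh : IsCoprime h (M : ℤ)) (hno : NoPt M m k h) :
    ∃ a b : ℤ, (a ≠ 0 ∨ b ≠ 0) ∧ |a| * k ≤ 16 * L * M ∧ |b| * k ≤ 16 * L * M ∧
      (M : ℤ) ∣ b - h * a := by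
  obtain ⟨a, b, c, d, n, hn1, hnM, han, hbn, hab0, hab, hcd, hdet, hac, hc, hd⟩ :=
    exists_basis M hM h
  by_cases hcase : (n : ℤ) * k ≤ 16 * L * M
  · have hk0 : (0 : ℤ) ≤ k := by positivity
    exact ⟨a, b, hab0, le_trans (mul_le_mul_of_nonneg_right han hk0) hcase,
      le_trans (mul_le_mul_of_nonneg_right hbn hk0) hcase, hab⟩
  · exfalso
    push Not at hcase
    have hJ := J_pos m.primeFactors.card
    have hL2 : 2 ≤ L := le_trans hJ hL
    -- `16 L n ≤ k`
    have h1 : 16 * L * n ≤ k := by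
      have h2 : (16 * L * n) ^ 2 ≤ k ^ 2 := by
        calc (16 * L * n) ^ 2 = 256 * L ^ 2 * (n * n) := by ring
          _ ≤ 256 * L ^ 2 * M := Nat.mul_le_mul_left _ hnM
          _ ≤ k ^ 2 := hML
      exact (Nat.pow_le_pow_iff_left (by norm_num)).1 h2
    have key : ∀ z w : ℤ, |z| ≤ n → |w| * n ≤ M + n * n →
        2 * (J m.primeFactors.card : ℤ) * (|z| + |w|) < k := by
      intro z w hz hw
      have hnpos : (0 : ℤ) < n := by exact_mod_cast hn1
      have h3 : (|z| + |w|) * n ≤ M + 2 * (n * n) := by nlinarith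
      have hJL : (J m.primeFactors.card : ℤ) ≤ L := by exact_mod_cast hL
      have h4 : 0 ≤ |z| + |w| := by positivity
      -- multiply by `n k`
      by_contra hcon
      push Not at hcon
      have h5 : (k : ℤ) ≤ 2 * L * (|z| + |w|) := by
        calc (k : ℤ) ≤ 2 * (J m.primeFactors.card : ℤ) * (|z| + |w|) := hcon
          _ ≤ 2 * L * (|z| + |w|) := by
            apply mul_le_mul_of_nonneg_right _ h4
            linarith
      have h6 : (k : ℤ) * n ≤ 2 * L * (M + 2 * (n * n)) := by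
        calc (k : ℤ) * n ≤ 2 * L * (|z| + |w|) * n := mul_le_mul_of_nonneg_right h5 hnpos.le
          _ = 2 * L * ((|z| + |w|) * n) := by ring
          _ ≤ 2 * L * (M + 2 * (n * n)) := by
            apply mul_le_mul_of_nonneg_left h3; positivity
      have h7 : (16 : ℤ) * L * n ≤ k := by exact_mod_cast h1
      have h8 : 4 * (16 : ℤ) * L * n * n ≤ 4 * k * n := by nlinarith
      nlinarith
    obtain ⟨x, y, hx1, hxk, hy1, hyk, hxm, hym, hxy⟩ := box_point M m k hM hMm hm h hh a b c d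
      hab hcd hdet hac (key a c han hc) (key b d hbn hd)
    exact hno x y hx1 hxk hy1 hyk hxm hym hxy

end Pool.Agent.C497
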